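import Pool.Agent.Work.MP_dd0d16_nt.Defs

/-!
Definitions used in the statement about sums of roots of unity.
-/

set_option autoImplicit false

namespace Pool.Agent.Work.MP_dd0d16_nt.T

variable {p : ℕ} [Fact p.Prime]

/-- `z` is a root of unity of order prime to `p`. -/
def Root (z : PadicAlgCl p) : Prop := ∃ N : ℕ, ¬ p ∣ N ∧ z ^ N = 1

/-- `x` is a sum of `B` terms `t * z` with `t` in `T` and `z` a root of unity of order prime
to `p`. -/
def Comb (T : Set (PadicAlgCl p)) (B : ℕ) (x : PadicAlgCl p) : Prop :=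
  ∃ t z : Fin B → PadicAlgCl p, (∀ j, t j ∈ T ∧ Root (z j)) ∧ x = ∑ j, t j * z j

end Pool.Agent.Work.MP_dd0d16_nt.T
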