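import Mathlib
import Pool.Agent.Work.MP_dd0d16_nt.T.Defs
import Pool.Agent.Work.MP_dd0d16_nt.PAdic
import Pool.Agent.Work.MP_dd0d16_nt.S.Defs

-- merged part: Pool.Agent.Work.MP_dd0d16_nt.S.LF
section
-- merged part: Pool.Agent.Work.MP_dd0d16_nt.T.WDefs
section
/-!
Definitions on the side of Witt vectors (overview: /team-store/h29_dd0d16_T.md).
-/

set_option autoImplicit false

namespace Pool.Agent.Work.MP_dd0d16_nt.T

variable {p : ℕ} [Fact p.Prime]

/-- Witt vectors modulo `p ^ (N + 1)`. -/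
abbrev Q (p : ℕ) [Fact p.Prime] (k : Type) [CommRing k] (N : ℕ) : Type :=
  WittVector p k ⧸ Ideal.span {(p : WittVector p k) ^ (N + 1)}

/-- The `N`-th power of Frobenius followed by reduction modulo `p ^ (N + 1)`. -/
noncomputable def rho {k : Type} [CommRing k] [CharP k p] (N : ℕ) : WittVector p k →+* Q p k N :=
  (Ideal.Quotient.mk _).comp (WittVector.map (iterateFrobenius k p N))

/-- `l` is the logarithm of `1 + p x`. -/
def WLog (p : ℕ) {R : Type} [CommRing R] (x l : R) : Prop :=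
  ∀ M : ℕ, (p : R) ^ (2 * M) ∣ (1 + p * x) ^ p ^ M - 1 - p ^ M * l

theorem WLog.map {p : ℕ} {R S : Type} [CommRing R] [CommRing S] (f : R →+* S) {x l : R}
    (h : WLog p x l) : WLog p (f x) (f l) := fun M => by
  simpa using map_dvd f (h M)

/-- Two polynomials are proportional. -/
def Prop2 {σ R : Type} [CommRing R] (P P' : MvPolynomial σ R) : Prop :=
  ∀ μ ν, P.coeff μ * P'.coeff ν = P.coeff ν * P'.coeff μ

variable {k0 F k : Type} [Field k0] [Field F] [Field k] [CharP k p] {m : ℕ}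

/-- A derivation along a power of Frobenius, in the form of a map to dual numbers; `δ i` is the
logarithmic derivative of the Teichmueller lift of `a i`. -/
structure Test (τ : F →+* k) (κ : k0 →+* F) (a : Fin m → F) (N : ℕ)
    (Ψ : WittVector p F →+* DualNumber (Q p k N)) (δ : Fin m → Q p k N) : Prop where
  fst : ∀ x, (Ψ x).fst = rho N (WittVector.map τ x)
  ker : ∀ x, (Ψ x).fst = 0 → Ψ x = 0
  const : ∀ c : WittVector p k0, (Ψ (WittVector.map κ c)).snd = 0
  teich : ∀ i, (Ψ (WittVector.teichmuller p (a i))).snd =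
    (Ψ (WittVector.teichmuller p (a i))).fst * δ i

/-- The tests separate gradients. -/
def Sep (p : ℕ) [Fact p.Prime] [CharP k p] (τ : F →+* k) (κ : k0 →+* F) (a : Fin m → F) : Prop :=
  ∀ g : Fin m → WittVector p k,
    (∀ N Ψ δ, Test τ κ a N Ψ δ → ∑ i, rho N (g i) * δ i = 0) → g = 0

/-- `g` is the logarithmic gradient of `y`. -/
def Gd (τ : F →+* k) (κ : k0 →+* F) (a : Fin m → F) (y : WittVector p k)
    (g : Fin m → WittVector p k) : Prop :=
  ∀ N Ψ δ, Test τ κ a N Ψ δ →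
    ∃ x : WittVector p F, (Ψ x).fst = rho N y ∧ (Ψ x).snd = ∑ i, rho N (g i) * δ i

/-- Gradients of fractions. -/
def Gf {R Ω : Type} [CommRing R] [Field Ω] [Algebra R Ω] (G : R → (Fin m → R) → Prop) (z : Ω)
    (h : Fin m → Ω) : Prop :=
  ∃ y g y' g', G y g ∧ G y' g' ∧ algebraMap R Ω y' ≠ 0 ∧ z * algebraMap R Ω y' = algebraMap R Ω y ∧
    ∀ i, h i * algebraMap R Ω y' + z * algebraMap R Ω (g' i) = algebraMap R Ω (g i)

end Pool.Agent.Work.MP_dd0d16_nt.T
end

-- merged part: Pool.Agent.Work.MP_dd0d16_nt.R.ADefs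
section
/-!
Abstract tests (ramified version of T/WDefs; overview: /team-store/h29_dd0d16_R.md).
-/

set_option autoImplicit false

namespace Pool.Agent.Work.MP_dd0d16_nt.T

variable {R0 RF R : Type} [CommRing R0] [CommRing RF] [CommRing R] {m : ℕ}

/-- A derivation with values in a ring in which `p` is nilpotent. -/
structure ATest (p : ℕ) (τ : RF →+* R) (κ : R0 →+* RF) (A : Fin m → RF) {Q : Type} [CommRing Q]
    (ρ : R →+* Q) (Ψ : RF →+* DualNumber Q) (δ : Fin m → Q) : Prop where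
  nil : ∃ N : ℕ, (p : Q) ^ N = 0
  fst : ∀ x, (Ψ x).fst = ρ (τ x)
  ker : ∀ x, (Ψ x).fst = 0 → Ψ x = 0
  const : ∀ c, (Ψ (κ c)).snd = 0
  teich : ∀ i, (Ψ (A i)).snd = (Ψ (A i)).fst * δ i

/-- The tests separate gradients. -/
def ASep (p : ℕ) (τ : RF →+* R) (κ : R0 →+* RF) (A : Fin m → RF) : Prop :=
  ∀ g : Fin m → R, (∀ (Q : Type) [CommRing Q] (ρ : R →+* Q) (Ψ : RF →+* DualNumber Q)
    (δ : Fin m → Q), ATest p τ κ A ρ Ψ δ → ∑ i, ρ (g i) * δ i = 0) → g = 0

/-- `g` is the logarithmic gradient of `y`. -/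
def AGd (p : ℕ) (τ : RF →+* R) (κ : R0 →+* RF) (A : Fin m → RF) (y : R) (g : Fin m → R) : Prop :=
  ∀ (Q : Type) [CommRing Q] (ρ : R →+* Q) (Ψ : RF →+* DualNumber Q) (δ : Fin m → Q),
    ATest p τ κ A ρ Ψ δ → ∃ x : RF, (Ψ x).fst = ρ y ∧ (Ψ x).snd = ∑ i, ρ (g i) * δ i

/-- An Eisenstein polynomial. -/
structure Eis (p : ℕ) {A : Type} [CommRing A] (g : Polynomial A) : Prop where
  monic : g.Monic
  pos : 0 < g.natDegree
  dvd : ∀ a < g.natDegree, (p : A) ∣ g.coeff a
  unit : ∃ u : Aˣ, g.coeff 0 = p * u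

end Pool.Agent.Work.MP_dd0d16_nt.T
end

-- merged part: Pool.Agent.Work.MP_dd0d16_nt.S.LDefs
section
/-!
Valued fields with a logarithm: definitions (overview: /team-store/h29_dd0d16_S.md).
-/

set_option autoImplicit false

namespace Pool.Agent.Work.MP_dd0d16_nt.T

open MvPolynomial

variable {Ω Γ : Type} [Field Ω] [LinearOrderedCommGroupWithZero Γ]

/-- A valued field with a logarithm `L` and a field of constants `E`. -/
structure LF (p : ℕ) (v : Valuation Ω Γ) (L : Ω → Ω) (E : Subfield Ω) : Prop where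
  p0 : v p ≠ 0
  p1 : v p < 1
  nat : ∀ n : ℕ, n ≠ 0 → ∃ c : ℕ, v p ^ c ≤ v n
  mul : ∀ a b, a ≠ 0 → b ≠ 0 → L (a * b) = L a + L b
  mem : ∀ a ∈ E, a ≠ 0 → L a ∈ E
  tail : ∀ (T : ℕ) (s : Ω), v s ≤ v p ^ (T + 1) →
    v (L (1 + s) - ∑ n ∈ Finset.range T, (-1 : Ω) ^ n * s ^ (n + 1) / ((n : Ω) + 1)) ≤ v s ^ T

/-- `z` is infinitesimal at the scale `γ`. -/
def Inf (v : Valuation Ω Γ) (γ : Γ) (z : Ω) : Prop := ∀ c : ℕ, v z ≤ γ ^ c

/-- Independence at the scale `γ`. -/
def SI (v : Valuation Ω Γ) (E : Subfield Ω) (γ : Γ) {σ : Type} (y : σ → Ω) : Prop :=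
  ∀ (P : MvPolynomial σ E) (μ : σ →₀ ℕ), ∃ c : ℕ, γ ^ c * v (P.coeff μ : E) ≤ v (aeval y P)

/-- `u` is a rational function of `y` that is constant at the scale `γ`. -/
def Small (v : Valuation Ω Γ) (E : Subfield Ω) (γ : Γ) {σ : Type} (y : σ → Ω) (u : Ω) : Prop :=
  ∃ (κ : E) (g d : MvPolynomial σ E) (ν : σ →₀ ℕ), κ ≠ 0 ∧ g.coeff ν = 1 ∧ d.coeff ν = 0 ∧
    (∀ μ, v (g.coeff μ : E) ≤ 1) ∧ (∀ μ, Inf v γ (d.coeff μ : E)) ∧ u * aeval y g = κ * aeval y (g + d)

/-- Two polynomials are proportional at the scale `γ`. -/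
def Near (v : Valuation Ω Γ) {E : Subfield Ω} (γ : Γ) {σ : Type} (P P' : MvPolynomial σ E) : Prop :=
  ∀ μ ν, Inf v γ ((P.coeff μ * P'.coeff ν - P.coeff ν * P'.coeff μ : E) : Ω)

/-- `z` and its gradient `g` are limits, at the scale `γ`, of elements of `E1` and their
derivatives. -/
def App [CharZero Ω] (v : Valuation Ω Γ) (γ : Γ) {E1 : Subfield Ω} {m : ℕ}
    (Θ : Fin m → Derivation ℚ E1 E1) (z : Ω) (g : Fin m → Ω) : Prop :=
  ∀ M : ℕ, ∃ e : E1, v (z - e) ≤ γ ^ M ∧ ∀ a, v (g a - Θ a e) ≤ γ ^ M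

end Pool.Agent.Work.MP_dd0d16_nt.T
end

-- merged part: Pool.Agent.Work.MP_dd0d16_nt.S.LF
section
/-!
Basic facts on scales.

PLAN. `v_aeval_le`: `aeval_def`, `eval₂_eq`, `Valuation.map_sum_le`. `SI.comp`: apply the hypothesis to
`rename e P` (`aeval_rename`, `coeff_rename_mapDomain`). `Small.rename`: rename `g`, `d`, `ν`; a
coefficient of `rename e P` is a coefficient of `P` or zero (`coeff_rename_ne_zero`).
`exists_max_coeff`: `Finset.exists_max_image` on the support.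
`Small.log`: `g y` has `γ ^ c ≤ v (g y)` by `SI`, `d y` is infinitesimal, so `s = d y / g y` is
infinitesimal, `u = κ (1 + s)`, `1 + s ≠ 0`, and `LF.tail` with `T = 1` gives `v (L (1 + s)) ≤ v s`.
`small_of_near`: let `ν` be the place of a largest coefficient of `G`; it is not infinitesimal because
`v (G y) ≤ v (coeff ν G)`; some coefficient `F μ` is not infinitesimal, and `F μ G ν - F ν G μ` is, so
`F ν` is not infinitesimal. Take `g = G / G ν`, `g + d = F / F ν`.
(`¬ Inf v γ z` means `γ ^ c < v z` for some `c`.)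
-/

set_option autoImplicit false

namespace Pool.Agent.Work.MP_dd0d16_nt.T

open MvPolynomial

variable {Ω Γ : Type} [Field Ω] [LinearOrderedCommGroupWithZero Γ] {v : Valuation Ω Γ}
  {L : Ω → Ω} {E : Subfield Ω} {p : ℕ} {γ γ' : Γ} {σ τ : Type} {y : σ → Ω}

theorem LF_one (μ : σ →₀ ℕ) : v ((1 : MvPolynomial σ E).coeff μ : E) ≤ 1 := by
  classical
  rw [coeff_one]
  split_ifs <;> simp

theorem LF_mul {P Q : MvPolynomial σ E} (hP : ∀ μ, v (P.coeff μ : E) ≤ 1)
    (hQ : ∀ μ, v (Q.coeff μ : E) ≤ 1) (μ : σ →₀ ℕ) : v ((P * Q).coeff μ : E) ≤ 1 := by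
  classical
  rw [coeff_mul]
  push_cast
  refine v.map_sum_le fun q _ => ?_
  rw [map_mul]
  exact mul_le_one' (hP _) (hQ _)

theorem LF_inf_zero : Inf v γ 0 := fun c => by simp

theorem LF_inf_div (h0 : γ ≠ 0) {z w : Ω} (hz : Inf v γ z) (hw : ¬ Inf v γ w) :
    Inf v γ (z / w) := by
  simp only [Inf, not_forall, not_le] at hw
  obtain ⟨c, hc⟩ := hw
  intro c'
  rw [map_div₀, div_le_iff₀ (zero_le.trans_lt hc)]
  exact (hz (c' + c)).trans (by rw [pow_add]; exact mul_le_mul_right hc.le _)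

theorem v_aeval_le (hy : ∀ s, v (y s) ≤ 1) {P : MvPolynomial σ E} {δ : Γ}
    (hP : ∀ μ, v (P.coeff μ : E) ≤ δ) : v (aeval y P) ≤ δ := by
  rw [aeval_def, eval₂_eq]
  refine v.map_sum_le fun μ _ => ?_
  rw [map_mul, map_prod]
  refine (mul_le_of_le_one_right' (Finset.prod_le_one' fun i _ => ?_)).trans (hP μ)
  rw [map_pow]
  exact pow_le_one' (hy i) _

theorem exists_max_coeff (v : Valuation Ω Γ) {P : MvPolynomial σ E} (hP : P ≠ 0) :
    ∃ ν, P.coeff ν ≠ 0 ∧ ∀ μ, v (P.coeff μ : E) ≤ v (P.coeff ν : E) := by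
  obtain ⟨ν, h1, h2⟩ := Finset.exists_max_image P.support (fun μ => v (P.coeff μ : E))
    (support_nonempty.2 hP)
  refine ⟨ν, mem_support_iff.1 h1, fun μ => ?_⟩
  by_cases h : μ ∈ P.support
  · exact h2 μ h
  · rw [notMem_support_iff.1 h]
    simp

/-- Products of polynomials with integral coefficients have integral coefficients. -/
theorem v_coeff_prod {I : Type} (s : Finset I) (P : I → MvPolynomial σ E)
    (hP : ∀ i μ, v ((P i).coeff μ : E) ≤ 1) (μ : σ →₀ ℕ) : v ((∏ i ∈ s, P i).coeff μ : E) ≤ 1 := by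
  classical
  induction s using Finset.induction_on generalizing μ with
  | empty => rw [Finset.prod_empty]; exact LF_one μ
  | insert i s hi ih => rw [Finset.prod_insert hi]; exact LF_mul (hP i) ih μ

theorem v_coeff_mul {P Q : MvPolynomial σ E} (hP : ∀ μ, v (P.coeff μ : E) ≤ 1)
    (hQ : ∀ μ, v (Q.coeff μ : E) ≤ 1) (μ : σ →₀ ℕ) : v ((P * Q).coeff μ : E) ≤ 1 := by
  exact LF_mul hP hQ μ

theorem v_coeff_pow {P : MvPolynomial σ E} (hP : ∀ μ, v (P.coeff μ : E) ≤ 1) (n : ℕ) (μ : σ →₀ ℕ) :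
    v ((P ^ n).coeff μ : E) ≤ 1 := by
  induction n generalizing μ with
  | zero => rw [pow_zero]; exact LF_one μ
  | succ n ih => rw [pow_succ]; exact LF_mul ih hP μ

theorem SI.mono (h : SI v E γ y) (h' : γ' ≤ γ) : SI v E γ' y := by
  intro P μ
  obtain ⟨c, hc⟩ := h P μ
  exact ⟨c, (mul_le_mul_left (pow_le_pow_left' h' c) _).trans hc⟩

theorem SI.comp (h : SI v E γ y) {e : τ → σ} (he : Function.Injective e) : SI v E γ (y ∘ e) := by
  intro P μ
  obtain ⟨c, hc⟩ := h (MvPolynomial.rename e P) (μ.mapDomain e)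
  rw [coeff_rename_mapDomain e he, aeval_rename] at hc
  exact ⟨c, hc⟩

theorem SI.algInd (h : SI v E γ y) (h0 : γ ≠ 0) : AlgebraicIndependent E y := by
  refine algebraicIndependent_iff.2 fun P hP => ?_
  ext μ
  obtain ⟨c, hc⟩ := h P μ
  rw [hP, map_zero, le_zero_iff, mul_eq_zero] at hc
  have := hc.resolve_left (pow_ne_zero _ h0)
  rw [Valuation.zero_iff] at this
  simpa using this

theorem Small.rename {e : τ → σ} (he : Function.Injective e) {u : Ω} (h : Small v E γ (y ∘ e) u) :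
    Small v E γ y u := by
  obtain ⟨κ, g, d, ν, h1, h2, h3, h4, h5, h6⟩ := h
  have key : ∀ (P : MvPolynomial τ E) (μ : σ →₀ ℕ), (MvPolynomial.rename e P).coeff μ = 0 ∨
      ∃ μ', (MvPolynomial.rename e P).coeff μ = P.coeff μ' := by
    intro P μ
    by_cases h0 : (MvPolynomial.rename e P).coeff μ = 0
    · exact Or.inl h0
    · obtain ⟨μ', rfl, -⟩ := coeff_rename_ne_zero e P μ h0
      exact Or.inr ⟨μ', coeff_rename_mapDomain e he P μ'⟩
  refine ⟨κ, MvPolynomial.rename e g, MvPolynomial.rename e d, ν.mapDomain e, h1,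
    by rw [coeff_rename_mapDomain e he, h2], by rw [coeff_rename_mapDomain e he, h3],
    fun μ => ?_, fun μ => ?_, ?_⟩
  · rcases key g μ with h | ⟨μ', h⟩ <;> rw [h]
    · simp
    · exact h4 μ'
  · rcases key d μ with h | ⟨μ', h⟩ <;> rw [h]
    · intro c
      simp
    · exact h5 μ'
  · rw [← map_add, aeval_rename, aeval_rename, h6]

theorem Small.const_mul {u c : Ω} (h : Small v E γ y u) (hc : c ∈ E) (h0 : c ≠ 0) :
    Small v E γ y (c * u) := by
  obtain ⟨κ, g, d, ν, h1, h2, h3, h4, h5, h6⟩ := h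
  refine ⟨⟨c, hc⟩ * κ, g, d, ν, mul_ne_zero (fun h => h0 (congrArg Subtype.val h)) h1, h2, h3, h4,
    h5, ?_⟩
  rw [mul_assoc, h6, ← mul_assoc]
  rfl

/-- A product of elements that are not infinitesimal is not infinitesimal. -/
theorem not_inf_mul {a b : Ω} (h1 : γ ≤ 1) (ha : ¬ Inf v γ a) (hb : ¬ Inf v γ b) :
    ¬ Inf v γ (a * b) := by
  simp only [Inf, not_forall, not_le] at ha hb ⊢
  obtain ⟨c, hc⟩ := ha
  obtain ⟨c', hc'⟩ := hb
  refine ⟨c + c', ?_⟩
  rw [pow_add, map_mul]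
  exact mul_lt_mul'' hc hc' zero_le zero_le

theorem not_inf_of_le {a : Ω} (h0 : γ ≠ 0) (h1 : γ < 1) {c : ℕ} (h : γ ^ c ≤ v a) :
    ¬ Inf v γ a := by
  intro hi
  exact absurd (h.trans (hi (c + 1)))
    (not_le.2 (pow_lt_pow_right_of_lt_one₀ (zero_lt_iff.2 h0) h1 (Nat.lt_succ_self c)))

theorem LF.one (h : LF p v L E) : L 1 = 0 := by
  have := h.mul 1 1 one_ne_zero one_ne_zero
  rw [mul_one] at this
  linear_combination -this

theorem LF.prod_zpow (h : LF p v L E) {I : Type} (s : Finset I) (u : I → Ω) (hu : ∀ i, u i ≠ 0)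
    (r : I → ℤ) : L (∏ i ∈ s, u i ^ r i) = ∑ i ∈ s, r i * L (u i) := by
  classical
  have key : ∀ a : Ω, a ≠ 0 → ∀ n : ℤ, L (a ^ n) = n * L a := by
    intro a ha n
    induction n using Int.induction_on with
    | zero => simp [h.one]
    | succ n ih =>
      rw [zpow_add_one₀ ha, h.mul _ _ (zpow_ne_zero _ ha) ha, ih]
      push_cast
      ring
    | pred n ih =>
      have h1 := h.mul (a ^ (-(n : ℤ) - 1)) a (zpow_ne_zero _ ha) ha
      rw [← zpow_add_one₀ ha, sub_add_cancel, ih] at h1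
      push_cast at h1 ⊢
      linear_combination -h1
  induction s using Finset.induction_on with
  | empty => simp [h.one]
  | insert i s hi ih =>
    rw [Finset.prod_insert hi, Finset.sum_insert hi, h.mul _ _ (zpow_ne_zero _ (hu i))
      (Finset.prod_ne_zero_iff.2 fun j _ => zpow_ne_zero _ (hu j)), ih, key _ (hu i)]

theorem Small.log (h : LF p v L E) (h0 : γ ≠ 0) (hp : γ ≤ v p) (hy : ∀ s, v (y s) ≤ 1)
    (hs : SI v E γ y) {u : Ω} (hu : Small v E γ y u) : u ≠ 0 ∧ ∃ c ∈ E, Inf v γ (L u - c) := by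
  obtain ⟨κ, g, d, ν, h1, h2, h3, h4, h5, h6⟩ := hu
  have hγ : γ < 1 := hp.trans_lt h.p1
  obtain ⟨c, hc⟩ := hs g ν
  rw [h2] at hc
  simp only [OneMemClass.coe_one, map_one, mul_one] at hc
  have hg := not_inf_of_le h0 hγ hc
  have hg0 : aeval y g ≠ 0 := fun h => hg (h ▸ LF_inf_zero)
  have hs : Inf v γ (aeval y d / aeval y g) :=
    LF_inf_div h0 (fun c => v_aeval_le hy fun μ => h5 μ c) hg
  obtain ⟨s, hsd⟩ : ∃ s, s = aeval y d / aeval y g := ⟨_, rfl⟩
  rw [← hsd] at hs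
  have hu : u = κ * (1 + s) := by
    refine mul_right_cancel₀ hg0 ?_
    rw [h6, hsd, map_add]
    field_simp
  have hκ : (κ : Ω) ≠ 0 := fun h => h1 (Subtype.ext h)
  have h1s : 1 + s ≠ 0 := by
    intro h7
    have h8 : s = -1 := by linear_combination h7
    have h9 := hs 1
    rw [h8, Valuation.map_neg, map_one, pow_one] at h9
    exact absurd hγ (not_lt.2 h9)
  refine ⟨hu ▸ mul_ne_zero hκ h1s, L κ, h.mem _ κ.2 hκ, fun c => ?_⟩
  have h7 := h.tail 1 s ((hs 2).trans (pow_le_pow_left' hp 2))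
  simp only [Finset.range_one, Finset.sum_singleton, pow_zero, one_mul, zero_add, pow_one,
    Nat.cast_zero, div_one] at h7
  rw [hu, h.mul _ _ hκ h1s, add_sub_cancel_left, ← sub_add_cancel (L (1 + s)) s]
  exact v.map_add_le (h7.trans (hs c)) (hs c)

theorem small_of_near (h0 : γ ≠ 0) (h1 : γ < 1) (hy : ∀ s, v (y s) ≤ 1) {F G : MvPolynomial σ E}
    (hF : ∀ μ, v (F.coeff μ : E) ≤ 1) (hG : ∀ μ, v (G.coeff μ : E) ≤ 1) (hF' : ¬ Inf v γ (aeval y F))
    (hG' : ¬ Inf v γ (aeval y G)) (hn : Near v γ F G) {u : Ω} (hu : u * aeval y G = aeval y F) :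
    Small v E γ y u := by
  have hG0 : G ≠ 0 := fun h => hG' (by rw [h, map_zero]; exact LF_inf_zero)
  obtain ⟨ν, ha0, hν⟩ := exists_max_coeff v hG0
  have ha : ¬ Inf v γ (G.coeff ν : E) := fun h => hG' fun c => (v_aeval_le hy hν).trans (h c)
  obtain ⟨μ, hμ⟩ : ∃ μ, ¬ Inf v γ (F.coeff μ : E) := by
    by_contra hc
    push Not at hc
    exact hF' fun c => v_aeval_le hy fun μ => hc μ c
  have hb : ¬ Inf v γ (F.coeff ν : E) := by
    intro h
    refine not_inf_mul h1.le hμ ha fun c => ?_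
    have h2 := hn μ ν c
    push_cast at h2
    rw [← sub_add_cancel (((F.coeff μ : E) : Ω) * ((G.coeff ν : E) : Ω))
      (((F.coeff ν : E) : Ω) * ((G.coeff μ : E) : Ω))]
    refine v.map_add_le h2 ?_
    rw [map_mul]
    exact (mul_le_of_le_one_right' (hG μ)).trans (h c)
  have hb0 : F.coeff ν ≠ 0 := fun h => hb (by rw [h]; exact LF_inf_zero)
  have ha1 : ((G.coeff ν : E) : Ω) ≠ 0 := fun h => ha0 (Subtype.ext h)
  have hb1 : ((F.coeff ν : E) : Ω) ≠ 0 := fun h => hb0 (Subtype.ext h)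
  refine ⟨F.coeff ν / G.coeff ν, C (G.coeff ν)⁻¹ * G, C (F.coeff ν)⁻¹ * F - C (G.coeff ν)⁻¹ * G, ν,
    div_ne_zero hb0 ha0, ?_, ?_, fun μ => ?_, fun μ => ?_, ?_⟩
  · rw [coeff_C_mul, inv_mul_cancel₀ ha0]
  · rw [coeff_sub, coeff_C_mul, coeff_C_mul, inv_mul_cancel₀ ha0, inv_mul_cancel₀ hb0, sub_self]
  · rw [coeff_C_mul]
    push_cast
    rw [map_mul, map_inv₀]
    exact inv_mul_le_one_of_le₀ (hν μ) zero_le
  · have h2 := LF_inf_div h0 (hn μ ν) (not_inf_mul h1.le hb ha)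
    rw [coeff_sub, coeff_C_mul, coeff_C_mul]
    convert h2 using 1
    push_cast
    field_simp
  · rw [add_sub_cancel, map_mul, map_mul, aeval_C, aeval_C, ← hu]
    change u * ((((G.coeff ν)⁻¹ : E) : Ω) * _) = _ * ((((F.coeff ν)⁻¹ : E) : Ω) * _)
    push_cast
    field_simp

end Pool.Agent.Work.MP_dd0d16_nt.T
end
end

-- merged part: Pool.Agent.Work.MP_dd0d16_nt.S.Germ
section
-- merged part: Pool.Agent.Work.MP_dd0d16_nt.T.BDefs
section
/-!
The link between unramified elements of `PadicAlgCl p` and Witt vectors.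
-/

set_option autoImplicit false

namespace Pool.Agent.Work.MP_dd0d16_nt.T

/-- The residue field. -/
abbrev K0 (p : ℕ) [Fact p.Prime] : Type := AlgebraicClosure (ZMod p)

variable {p : ℕ} [Fact p.Prime]

/-- `O` is a ring of unramified integers, `j` maps it to Witt vectors. -/
structure Br (O : Subring (PadicAlgCl p)) (j : O →+* WittVector p (K0 p)) : Prop where
  inj : Function.Injective j
  root : ∀ z, Root z → ∃ (h : z ∈ O) (t : K0 p), t ≠ 0 ∧ j ⟨z, h⟩ = WittVector.teichmuller p t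
  teich : ∀ t : K0 p, t ≠ 0 → ∃ z : O, Root (z : PadicAlgCl p) ∧ j z = WittVector.teichmuller p t
  zp : ∀ c : ℤ_[p], ∃ h : algebraMap ℚ_[p] (PadicAlgCl p) c ∈ O,
    (∀ i, (j ⟨_, h⟩).coeff i ^ p = (j ⟨_, h⟩).coeff i) ∧ (IsUnit c → (j ⟨_, h⟩).coeff 0 ≠ 0)
  unr : ∀ z ∈ IntermediateField.adjoin ℚ_[p] {z : PadicAlgCl p | Root z},
    ∃ r : ℕ, (p : PadicAlgCl p) ^ r * z ∈ O
  sat : ∀ z ∈ IntermediateField.adjoin ℚ_[p] {z : PadicAlgCl p | Root z}, ‖z‖ ≤ 1 → z ∈ O
  le : ∀ z ∈ O, ‖z‖ ≤ 1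
  sub : ∀ z ∈ O, z ∈ IntermediateField.adjoin ℚ_[p] {z : PadicAlgCl p | Root z}
  dvd : ∀ (z : O) (y : WittVector p (K0 p)), j z = p * y → ∃ w : O, j w = y

/-- `z` is the value at `x` of a polynomial over `K` of degree at most `D`. -/
def Pol {σ : Type} (K : IntermediateField ℚ_[p] (PadicAlgCl p)) (D : ℕ) (x : σ → PadicAlgCl p)
    (z : PadicAlgCl p) : Prop :=
  ∃ P : MvPolynomial σ K, P.totalDegree ≤ D ∧ MvPolynomial.aeval x P = z

/-- No nonzero polynomial over `K` of degree at most `D` vanishes at `x`. -/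
def Ind {σ : Type} (K : IntermediateField ℚ_[p] (PadicAlgCl p)) (D : ℕ) (x : σ → PadicAlgCl p) :
    Prop :=
  ∀ P : MvPolynomial σ K, P.totalDegree ≤ D → MvPolynomial.aeval x P = 0 → P = 0

/-- The span of `1` and the logarithms of the elements of `S` over the algebraic numbers. -/
noncomputable def Vsp (L : PadicAlgCl p → PadicAlgCl p) (S : Finset (PadicAlgCl p)) :
    Submodule (algebraicClosure ℚ (PadicAlgCl p)) (PadicAlgCl p) :=
  Submodule.span _ (insert 1 (L '' S))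

end Pool.Agent.Work.MP_dd0d16_nt.T
end

-- merged part: Pool.Agent.Work.MP_dd0d16_nt.T.BLog
section
/-!
The logarithm through the link.

PLAN. `IsLog.root`: `N * L z = L (z ^ N) = L 1 = 0`.
`Br.log`: take `z` from `Br.teich` for `g` and `z'` for `g⁻¹`; by `Br.dvd` (induction on `v`) there is
`w : O` with `j w = [g] * (1 + p x)` and `α = p ^ v * w`; `j (w * z' - 1) = p * x` gives `y : O` with
`j y = x`, and `α = p ^ v * z * (1 + p y)`, so `L α = L (1 + p y)`. Let `U` be the unramified field and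
`E = ℚ_[p]⟮y⟯ ≤ U`; it is finite-dimensional, so closed
(`Submodule.closed_of_finiteDimensional`), and the finite sums of the logarithm series lie in it: so
`L α ∈ U`. With `u = 1 + p y` and `zM = u ^ p ^ M - 1` we have `‖zM‖ ≤ p ^ (-(M + 1))`
(`dvd_sub_pow_of_dvd_sub` in `O`, `Br.le`, `norm_p_eq`), `p ^ M * L u = L (1 + zM)` and
`‖L (1 + zM) - zM‖ ≤ 2 * p ^ (-(2 M + 2)) ≤ p ^ (-2 M)` (`log_tail norm_int_ge` with `T = 1`, see
`norm_le_norm_log` in PAdic). `M = 0` gives `‖L α‖ ≤ 1`, so `L α ∈ O` by `Br.sat`; the element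
`(zM - p ^ M * L u) / p ^ (2 M)` lies in `U` and has norm at most `1`, so it is in `O`; apply `j`.
-/

set_option autoImplicit false

namespace Pool.Agent.Work.MP_dd0d16_nt.T

variable {p : ℕ} [Fact p.Prime] {L : PadicAlgCl p → PadicAlgCl p}

theorem log_one (hL : IsLog L) : L 1 = 0 := by
  exact hL.isLogF.one

theorem log_pow (hL : IsLog L) {z : PadicAlgCl p} (hz : z ≠ 0) (n : ℕ) : L (z ^ n) = n * L z := by
  exact hL.isLogF.pow hz n

theorem log_prod (hL : IsLog L) {I : Type} (s : Finset I) (z : I → PadicAlgCl p)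
    (hz : ∀ i, z i ≠ 0) : L (∏ i ∈ s, z i) = ∑ i ∈ s, L (z i) := by
  classical
  induction s using Finset.induction_on with
  | empty => simpa using log_one hL
  | insert a s ha ih =>
    rw [Finset.prod_insert ha, Finset.sum_insert ha,
      hL.1 _ _ (hz a) (Finset.prod_ne_zero_iff.2 fun i _ => hz i), ih]

theorem Root.ne_zero {z : PadicAlgCl p} (h : Root z) : z ≠ 0 := by
  obtain ⟨N, h1, h2⟩ := h
  rintro rfl
  rw [zero_pow (by rintro rfl; exact h1 (dvd_zero p))] at h2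
  exact zero_ne_one h2

theorem Root.isAlgebraic {z : PadicAlgCl p} (h : Root z) : IsAlgebraic ℚ z := by
  obtain ⟨N, h1, h2⟩ := h
  exact IsAlgebraic.of_pow (Nat.pos_of_ne_zero (by rintro rfl; exact h1 (dvd_zero p)))
    (h2 ▸ isAlgebraic_one)

theorem log_root (hL : IsLog L) {z : PadicAlgCl p} (h : Root z) : L z = 0 := by
  have h0 := h.ne_zero
  obtain ⟨N, h1, h2⟩ := h
  have h3 := log_pow hL h0 N
  rw [h2, log_one hL] at h3
  exact (mul_eq_zero.1 h3.symm).resolve_left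
    (Nat.cast_ne_zero.2 (by rintro rfl; exact h1 (dvd_zero p)))

theorem BLog_mem (hL : IsLog L) (U : IntermediateField ℚ_[p] (PadicAlgCl p)) {z : PadicAlgCl p}
    (hz : z ∈ U) (h1 : ‖z‖ < 1) : L (1 + z) ∈ U := by
  have hi : IsIntegral ℚ_[p] z := Algebra.IsIntegral.isIntegral z
  have := IntermediateField.adjoin.finiteDimensional hi
  have h2 : FiniteDimensional ℚ_[p] (IntermediateField.adjoin ℚ_[p] {z}).toSubmodule := this
  have h3 := (IntermediateField.adjoin ℚ_[p] {z}).toSubmodule.closed_of_finiteDimensional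
  have h4 : z ∈ IntermediateField.adjoin ℚ_[p] {z} := IntermediateField.mem_adjoin_simple_self _ z
  refine (IntermediateField.adjoin_simple_le_iff.2 hz)
    (h3.mem_of_tendsto (hL.2.2 z h1).tendsto_sum_nat (Filter.Eventually.of_forall fun n => ?_))
  show _ ∈ IntermediateField.adjoin ℚ_[p] {z}
  exact sum_mem fun i _ => div_mem (mul_mem (pow_mem (neg_mem (one_mem _)) _) (pow_mem h4 _))
    (add_mem (natCast_mem _ i) (one_mem _))

theorem BLog_est (hL : IsLog L) {z : PadicAlgCl p} {M : ℕ} (hz : ‖z‖ ≤ (p : ℝ)⁻¹ ^ (M + 1)) :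
    ‖L (1 + z) - z‖ ≤ (p : ℝ)⁻¹ ^ (2 * M) := by
  have hp : (2 : ℝ) ≤ p := by exact_mod_cast (Fact.out : p.Prime).two_le
  have h0 : (0 : ℝ) ≤ (p : ℝ)⁻¹ := by positivity
  have h1 : (p : ℝ)⁻¹ ≤ 1 / 2 := by
    rw [one_div]
    exact inv_anti₀ two_pos hp
  have h2 : (p : ℝ)⁻¹ ^ (M + 1) ≤ 1 / 2 :=
    (pow_le_of_le_one h0 (by linarith) (Nat.succ_ne_zero M)).trans h1
  have h3 := log_tail norm_int_ge hz h2 (hL.2.2 z (by linarith)) 1
  simp only [Finset.sum_range_one, pow_zero, one_mul, zero_add, pow_one, Nat.cast_zero, div_one,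
    Nat.cast_one] at h3
  refine h3.trans ?_
  have h4 : (1 + 1) * ((p : ℝ)⁻¹ ^ (M + 1)) ^ (1 + 1) =
      (p : ℝ)⁻¹ ^ (2 * M) * (2 * ((p : ℝ)⁻¹ * (p : ℝ)⁻¹)) := by ring
  rw [h4]
  exact mul_le_of_le_one_right (pow_nonneg h0 _) (by nlinarith)

theorem BLog_dvd {O : Subring (PadicAlgCl p)} {j : O →+* WittVector p (K0 p)} (h : Br O j)
    (v : ℕ) (α : O) (y : WittVector p (K0 p)) (hα : j α = p ^ v * y) : ∃ w : O, j w = y := by
  induction v generalizing α with
  | zero => exact ⟨α, by rw [hα, pow_zero, one_mul]⟩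
  | succ v ih =>
    obtain ⟨w, hw⟩ := h.dvd α (p ^ v * y) (by rw [hα, pow_succ', mul_assoc])
    exact ih w hw

theorem BLog_unit {O : Subring (PadicAlgCl p)} {j : O →+* WittVector p (K0 p)} (h : Br O j)
    (hL : IsLog L) (y : O) : 1 + (p : PadicAlgCl p) * y ≠ 0 ∧
      ∃ h' : L (1 + p * y) ∈ O, WLog p y ⟨L (1 + p * y), h'⟩ := by
  have hp : (2 : ℝ) ≤ p := by exact_mod_cast (Fact.out : p.Prime).two_le
  have h0 : (0 : ℝ) < (p : ℝ)⁻¹ := by positivity
  have h1 : (p : ℝ)⁻¹ < 1 := inv_lt_one_of_one_lt₀ (by linarith)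
  have hp0 : (p : PadicAlgCl p) ≠ 0 := Nat.cast_ne_zero.2 (Fact.out : p.Prime).ne_zero
  have h2 : ∀ (n : ℕ) (c : O), ‖(p : PadicAlgCl p) ^ n * c‖ ≤ (p : ℝ)⁻¹ ^ n := fun n c => by
    rw [norm_mul, norm_pow, norm_p_eq]
    exact mul_le_of_le_one_right (pow_nonneg h0.le _) (h.le c c.2)
  have h3 : ‖(p : PadicAlgCl p) * y‖ ≤ (p : ℝ)⁻¹ := by simpa using h2 1 y
  have h4 : 1 + (p : PadicAlgCl p) * y ≠ 0 := fun k => by
    rw [eq_neg_of_add_eq_zero_right k, norm_neg, norm_one] at h3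
    linarith
  have h5 := BLog_mem hL _ (h.sub _ (O.mul_mem (natCast_mem O p) y.2)) (h3.trans_lt h1)
  have h6 : L (1 + p * y) ∈ O := by
    refine h.sat _ h5 ?_
    have h7 := BLog_est hL (M := 0) (z := p * y) (by simpa using h3)
    have h8 := IsUltrametricDist.norm_add_le_max (L (1 + p * y) - p * y) (p * y)
    rw [sub_add_cancel] at h8
    exact h8.trans (max_le (by simpa using h7) (h3.trans h1.le))
  refine ⟨h4, h6, fun M => ?_⟩
  obtain ⟨c, hc⟩ := dvd_sub_pow_of_dvd_sub (p := p) (a := 1 + (p : O) * y) (b := 1)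
    ⟨y, add_sub_cancel_left _ _⟩ M
  have h7 : (1 + (p : PadicAlgCl p) * y) ^ p ^ M = 1 + (p : PadicAlgCl p) ^ (M + 1) * c := by
    have h8 := congrArg O.subtype hc
    simp only [map_sub, map_pow, map_add, map_mul, map_one, map_natCast, one_pow,
      Subring.subtype_apply] at h8
    rw [← h8, add_sub_cancel]
  have h8 := BLog_est hL (h2 (M + 1) c)
  rw [← h7, log_pow hL h4, Nat.cast_pow] at h8
  have h9 : ((p : PadicAlgCl p) ^ (M + 1) * c - p ^ M * L (1 + p * y)) / p ^ (2 * M) ∈ O := by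
    refine h.sat _ (div_mem (sub_mem (mul_mem (pow_mem (natCast_mem _ p) _) (h.sub _ c.2))
      (mul_mem (pow_mem (natCast_mem _ p) _) h5)) (pow_mem (natCast_mem _ p) _)) ?_
    rw [norm_div, norm_pow, norm_p_eq, div_le_one (pow_pos h0 _), norm_sub_rev]
    exact h8
  refine ⟨⟨_, h9⟩, Subtype.ext ?_⟩
  push_cast
  rw [h7, mul_div_cancel₀ _ (pow_ne_zero _ hp0), add_sub_cancel_left]

theorem Br.log {O : Subring (PadicAlgCl p)} {j : O →+* WittVector p (K0 p)} (h : Br O j)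
    (hL : IsLog L) (α : O) {v : ℕ} {g : K0 p} {x : WittVector p (K0 p)} (hg : g ≠ 0)
    (hα : j α = p ^ v * WittVector.teichmuller p g * (1 + p * x)) :
    ∃ h' : L α ∈ O, WLog p x (j ⟨L α, h'⟩) := by
  obtain ⟨w, hw⟩ := BLog_dvd h v α _ (hα.trans (mul_assoc _ _ _))
  obtain ⟨z, hz, jz⟩ := h.teich g hg
  obtain ⟨z', -, jz'⟩ := h.teich g⁻¹ (inv_ne_zero hg)
  obtain ⟨y, rfl⟩ := h.dvd (w * z' - 1) x (by
    rw [map_sub, map_mul, hw, jz', mul_right_comm, ← map_mul, mul_inv_cancel₀ hg, map_one, map_one,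
      one_mul, add_sub_cancel_left])
  have h1 : α = (p : O) ^ v * z * (1 + p * y) := h.inj (by
    rw [hα, map_mul, map_mul, map_pow, map_add, map_mul, map_natCast, map_one, jz])
  obtain ⟨h2, h3, h4⟩ := BLog_unit h hL y
  have hp0 : (p : PadicAlgCl p) ≠ 0 := Nat.cast_ne_zero.2 (Fact.out : p.Prime).ne_zero
  have h5 : L α = L (1 + p * y) := by
    rw [h1]
    push_cast
    rw [hL.1 _ _ (mul_ne_zero (pow_ne_zero _ hp0) hz.ne_zero) h2,
      hL.1 _ _ (pow_ne_zero _ hp0) hz.ne_zero, log_pow hL hp0, hL.2.1, log_root hL hz, mul_zero,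
      add_zero, zero_add]
  refine ⟨h5 ▸ h3, ?_⟩
  simp only [h5]
  exact h4.map j

end Pool.Agent.Work.MP_dd0d16_nt.T
end

-- merged part: Pool.Agent.Work.MP_dd0d16_nt.T.Bridge
section
/-!
Construction of the link.

PLAN. `W = WittVector p (K0 p)` is a discrete valuation ring with uniformiser `p`
(`WittVector.isDiscreteValuationRing`, `WittVector.irreducible`,
`WittVector.exists_eq_pow_p_mul'`), `Ω0 = FractionRing W`, `Ω = AlgebraicClosure Ω0`.
`i : ℤ_[p] →+* W` is `WittVector.map (algebraMap (ZMod p) (K0 p))` after `(WittVector.equiv p).symm`;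
it is injective, extends to `ℚ_[p] →+* Ω0` (`IsFractionRing.lift`), and `IsAlgClosed.lift` gives a
`ℚ_[p]`-algebra map `J : PadicAlgCl p → Ω`. Let `U = adjoin ℚ_[p] {z | Root z}` and let `O` be the
subring of all `z ∈ U` with `J z` in the image of `W`; `j z` is the preimage.
`root`: for `¬ p ∣ N` the polynomial `X ^ N - 1` has a primitive root `t0` in `K0 p`
(`HasEnoughRootsOfUnity.exists_primitiveRoot`), its Teichmueller lift is a primitive root in `Ω`, and
`IsPrimitiveRoot.eq_pow_of_pow_eq_one` applies to `J z`. `teich`: `t` has finite order `N` prime to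
`p` (it lies in a finite field; or write `t ^ (p ^ n) = t`), take a primitive `N`-th root `z0` in
`PadicAlgCl p`; `J z0` is a primitive root in `Ω`, so the lift of `t` is a power of it.
`J` maps `U` into the image of `Ω0` (`IntermediateField.adjoin_induction`), which gives `unr`
(every element of `Ω0` is `w / p ^ r`). `sat`: `‖z‖ ≤ 1` makes `z` integral over `ℤ_[p]`
(`spectralValue_le_one_iff`, `PadicAlgCl.spectralNorm_eq`,
`Polynomial.lifts_and_natDegree_eq_and_monic`, see `unit_pow_close` in PAdic), so `J z` is integral over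
the integrally closed ring `W`. `le`: if `1 < ‖z‖` then `‖(z⁻¹) ^ e / p‖ ≤ 1` for some `e`, so this
element `u` is in `O` by `sat`, and `u * z ^ e * p = 1` makes `p` a unit of `W`. `dvd`: `w = z / p`.
`zp`: the coefficients of `i c` lie in the image of `ZMod p`; a unit has `coeff 0 ≠ 0`
(`WittVector.constantCoeff`).
-/

set_option autoImplicit false

namespace Pool.Agent.Work.MP_dd0d16_nt.T

open Polynomial

theorem Bridge_int {p : ℕ} [Fact p.Prime] {u : PadicAlgCl p} (hu : ‖u‖ ≤ 1) :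
    ∃ f : ℤ_[p][X], f.Monic ∧
      f.eval₂ ((algebraMap ℚ_[p] (PadicAlgCl p)).comp (algebraMap ℤ_[p] ℚ_[p])) u = 0 := by
  have hi : IsIntegral ℚ_[p] u := Algebra.IsIntegral.isIntegral u
  have hc : ∀ n, ‖(minpoly ℚ_[p] u).coeff n‖ ≤ 1 := by
    rw [← spectralValue_le_one_iff (minpoly.monic hi)]
    exact (PadicAlgCl.spectralNorm_eq p u).le.trans hu
  obtain ⟨f, hf1, -, hf3⟩ := lifts_and_natDegree_eq_and_monic
    (f := algebraMap ℤ_[p] ℚ_[p]) ((lifts_iff_coeff_lifts _).2 fun n => ⟨⟨_, hc n⟩, rfl⟩)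
    (minpoly.monic hi)
  refine ⟨f, hf3, ?_⟩
  rw [← eval₂_map, hf1]
  exact minpoly.aeval _ _

theorem Bridge_ord {p : ℕ} [Fact p.Prime] {t : K0 p} (ht : t ≠ 0) : ∃ N, ¬ p ∣ N ∧ t ^ N = 1 := by
  have hi : IsIntegral (ZMod p) t := Algebra.IsIntegral.isIntegral t
  have := IntermediateField.adjoin.finiteDimensional hi
  have : Finite (IntermediateField.adjoin (ZMod p) {t}) := Module.finite_of_finite (ZMod p)
  have := Fintype.ofFinite (IntermediateField.adjoin (ZMod p) {t})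
  have h1 := FiniteField.pow_card_sub_one_eq_one (IntermediateField.AdjoinSimple.gen (ZMod p) t)
    fun h => ht (congrArg Subtype.val h)
  have h2 := (CharP.cast_eq_zero_iff _ p _).1
    (FiniteField.cast_card_eq_zero (IntermediateField.adjoin (ZMod p) {t}))
  refine ⟨_, fun h => (Fact.out : p.Prime).one_lt.ne' (Nat.dvd_one.1 ?_), congrArg Subtype.val h1⟩
  have h3 := Nat.dvd_sub h2 h
  rwa [Nat.sub_sub_self Fintype.card_pos] at h3

theorem Bridge_frac {p : ℕ} [Fact p.Prime] (x : FractionRing (WittVector p (K0 p))) :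
    ∃ (r : ℕ) (w : WittVector p (K0 p)), (p : FractionRing (WittVector p (K0 p))) ^ r * x =
      algebraMap _ _ w := by
  obtain ⟨a, b, hb, rfl⟩ := IsFractionRing.div_surjective (A := WittVector p (K0 p)) x
  obtain ⟨r, u, rfl⟩ := WittVector.exists_eq_pow_p_mul' b (nonZeroDivisors.ne_zero hb)
  have h := (map_ne_zero_iff _ (IsFractionRing.injective _
    (FractionRing (WittVector p (K0 p))))).2 (nonZeroDivisors.ne_zero hb)
  refine ⟨r, a * (u⁻¹ : Units _), ?_⟩
  rw [← mul_div_assoc, div_eq_iff h, ← map_mul, mul_comm _ (u : WittVector p (K0 p)), mul_assoc,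
    Units.inv_mul_cancel_left, map_mul, map_pow, map_natCast, mul_comm]

theorem Bridge_emb (p : ℕ) [Fact p.Prime] : ∃ (i : ℤ_[p] →+* WittVector p (K0 p))
    (J : PadicAlgCl p →+* AlgebraicClosure (FractionRing (WittVector p (K0 p)))),
    (∀ c n, (i c).coeff n ^ p = (i c).coeff n) ∧
    (∀ c : ℤ_[p], J (algebraMap ℚ_[p] _ c) = algebraMap _ _ (i c)) ∧
    ∀ c : ℚ_[p], ∃ x : FractionRing (WittVector p (K0 p)),
      algebraMap _ _ x = J (algebraMap ℚ_[p] _ c) := by
  let i : ℤ_[p] →+* WittVector p (K0 p) :=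
    (WittVector.map (algebraMap (ZMod p) (K0 p))).comp (WittVector.equiv p).symm.toRingHom
  have hi : Function.Injective ((algebraMap _ (FractionRing (WittVector p (K0 p)))).comp i) :=
    (IsFractionRing.injective _ _).comp
      ((WittVector.map_injective _ (algebraMap (ZMod p) (K0 p)).injective).comp
        (WittVector.equiv p).symm.injective)
  let i' : ℚ_[p] →+* FractionRing (WittVector p (K0 p)) := IsFractionRing.lift hi
  let _ : Algebra ℚ_[p] (FractionRing (WittVector p (K0 p))) := i'.toAlgebra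
  let J : PadicAlgCl p →ₐ[ℚ_[p]] AlgebraicClosure (FractionRing (WittVector p (K0 p))) :=
    IsAlgClosed.lift
  refine ⟨i, J, fun c n => ?_, fun c => (J.commutes c).trans ?_, fun c => ⟨i' c, (J.commutes c).symm⟩⟩
  · show (WittVector.map _ _).coeff n ^ p = (WittVector.map _ _).coeff n
    rw [WittVector.map_coeff, ← map_pow, ZMod.pow_card]
  · exact congrArg (algebraMap (FractionRing (WittVector p (K0 p))) _)
      (IsFractionRing.lift_algebraMap hi c)

theorem exists_br (p : ℕ) [Fact p.Prime] :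
    ∃ (O : Subring (PadicAlgCl p)) (j : O →+* WittVector p (K0 p)), Br O j := by
  have hp : p.Prime := Fact.out
  obtain ⟨i, J, hi, hJ, hJ'⟩ := Bridge_emb p
  let φ := algebraMap (WittVector p (K0 p)) (AlgebraicClosure (FractionRing (WittVector p (K0 p))))
  let ψ := algebraMap (FractionRing (WittVector p (K0 p)))
    (AlgebraicClosure (FractionRing (WittVector p (K0 p))))
  have hφψ : ∀ w, φ w = ψ (algebraMap _ _ w) := fun w => IsScalarTower.algebraMap_apply _ _ _ w
  have hφ : Function.Injective φ := fun a b h =>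
    IsFractionRing.injective _ _ (ψ.injective ((hφψ a).symm.trans (h.trans (hφψ b))))
  let U := IntermediateField.adjoin ℚ_[p] {z : PadicAlgCl p | Root z}
  let O : Subring (PadicAlgCl p) := U.toSubring ⊓ φ.range.comap J
  have hO : ∀ z, z ∈ O ↔ z ∈ U ∧ ∃ w, φ w = J z := fun _ => Iff.rfl
  let e := RingEquiv.ofBijective φ.rangeRestrict
    ⟨fun a b h => hφ (congrArg Subtype.val h), φ.rangeRestrict_surjective⟩
  let j : O →+* WittVector p (K0 p) :=
    e.symm.toRingHom.comp ((J.comp O.subtype).codRestrict φ.range fun z => z.2.2)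
  have hj : ∀ z : O, φ (j z) = J z := fun z => congrArg Subtype.val (e.apply_symm_apply ⟨J z, z.2.2⟩)
  have hp0 : (p : PadicAlgCl p) ≠ 0 := Nat.cast_ne_zero.2 hp.ne_zero
  have hroot : ∀ z, Root z → ∃ t : K0 p, t ≠ 0 ∧ φ (WittVector.teichmuller p t) = J z := by
    rintro z ⟨N, hN, hz⟩
    have : NeZero (N : ZMod p) := ⟨fun h => hN ((ZMod.natCast_eq_zero_iff _ _).1 h)⟩
    have : NeZero N := ⟨fun h => hN (h ▸ dvd_zero p)⟩
    obtain ⟨t, ht⟩ := HasEnoughRootsOfUnity.exists_primitiveRoot (K0 p) N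
    have h1 := ht.map_of_injective (f := φ.toMonoidHom.comp (WittVector.teichmuller p))
      (hφ.comp fun a b h => congrArg (fun w : WittVector p (K0 p) => w.coeff 0) h)
    obtain ⟨k, -, hk⟩ := h1.eq_pow_of_pow_eq_one (ξ := J z) (by rw [← map_pow, hz, map_one])
    exact ⟨t ^ k, pow_ne_zero _ (ht.ne_zero (NeZero.ne N)), (map_pow _ t k).trans hk⟩
  have hU : ∀ z ∈ U, ∃ x, ψ x = J z := fun z hz =>
    (Subfield.closure_le (t := ψ.fieldRange.comap J)).2 (by
      rintro _ (⟨c, rfl⟩ | h)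
      · exact hJ' c
      · obtain ⟨t, -, ht⟩ := hroot _ h
        exact ⟨_, (hφψ _).symm.trans ht⟩) hz
  have hsat : ∀ z ∈ U, ‖z‖ ≤ 1 → z ∈ O := fun z hz h => by
    obtain ⟨x, hx⟩ := hU z hz
    obtain ⟨f, hf, hf0⟩ := Bridge_int h
    have h1 : IsIntegral (WittVector p (K0 p)) (ψ x) := ⟨f.map i, hf.map i, by
      rw [eval₂_map, hx, ← J.map_zero, ← hf0, hom_eval₂]
      exact congrArg (fun g => eval₂ g (J z) f) (RingHom.ext fun c => (hJ c).symm)⟩
    obtain ⟨w, hw⟩ := IsIntegrallyClosed.isIntegral_iff.1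
      ((isIntegral_algebraMap_iff ψ.injective).1 h1)
    exact ⟨hz, w, by rw [hφψ, hw, hx]⟩
  refine ⟨O, j, fun a b h => Subtype.ext (J.injective (by rw [← hj, ← hj, h])), fun z hz => ?_,
    fun t ht => ?_, fun c => ?_, fun z hz => ?_, hsat, fun z hz => ?_, fun z hz => hz.1,
    fun z y h => ?_⟩
  · obtain ⟨t, ht, h⟩ := hroot z hz
    exact ⟨⟨IntermediateField.subset_adjoin _ _ hz, _, h⟩, t, ht, hφ ((hj _).trans h.symm)⟩
  · obtain ⟨N, hN, h⟩ := Bridge_ord ht
    have : NeZero N := ⟨fun h => hN (h ▸ dvd_zero p)⟩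
    obtain ⟨z, hz⟩ := HasEnoughRootsOfUnity.exists_primitiveRoot (PadicAlgCl p) N
    obtain ⟨k, -, hk⟩ := (hz.map_of_injective J.injective).eq_pow_of_pow_eq_one
      (ξ := φ (WittVector.teichmuller p t)) (by rw [← map_pow, ← map_pow, h, map_one, map_one])
    have h1 : Root (z ^ k) := ⟨N, hN, by rw [← pow_mul, mul_comm, pow_mul, hz.pow_eq_one, one_pow]⟩
    rw [← map_pow] at hk
    exact ⟨⟨z ^ k, IntermediateField.subset_adjoin _ _ h1, _, hk.symm⟩, h1, hφ ((hj _).trans hk)⟩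
  · have h : algebraMap ℚ_[p] (PadicAlgCl p) c ∈ O := ⟨U.algebraMap_mem _, _, (hJ c).symm⟩
    have h1 : j ⟨_, h⟩ = i c := hφ ((hj _).trans (hJ c))
    refine ⟨h, fun n => by rw [h1, hi], fun hc => ?_⟩
    rw [h1]
    exact ((hc.map i).map WittVector.constantCoeff).ne_zero
  · obtain ⟨x, hx⟩ := hU z hz
    obtain ⟨r, w, hw⟩ := Bridge_frac x
    refine ⟨r, mul_mem (pow_mem (natCast_mem U p) r) hz, w, ?_⟩
    rw [hφψ, ← hw, map_mul, map_mul, hx, map_pow, map_pow, map_natCast, map_natCast]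
  · by_contra h
    obtain ⟨n, hn⟩ := pow_unbounded_of_one_lt ‖(p : PadicAlgCl p)‖⁻¹ (not_le.1 h)
    have h0 : z ≠ 0 := fun e => h (by simp [e])
    have h1 : 0 < ‖(p : PadicAlgCl p)‖ := norm_pos_iff.2 hp0
    have h2 := hsat (z ^ n * p)⁻¹ (inv_mem (mul_mem (pow_mem hz.1 n) (natCast_mem U p))) (by
      rw [norm_inv, norm_mul, norm_pow]
      exact inv_le_one_of_one_le₀ ((inv_le_iff_one_le_mul₀ h1).1 hn.le))
    refine (WittVector.irreducible p (k := K0 p)).not_isUnit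
      (IsUnit.of_mul_eq_one_right (j ⟨_, h2⟩ * j ⟨z, hz⟩ ^ n) (hφ ?_))
    rw [map_mul, map_mul, map_pow, hj, hj, map_natCast, map_one, ← map_natCast J, ← map_pow,
      mul_assoc, ← map_mul, ← map_mul, inv_mul_cancel₀ (mul_ne_zero (pow_ne_zero n h0) hp0),
      map_one]
  · have h1 : φ y = J (z / p) := by
      rw [map_div₀, ← hj, h, map_mul, map_natCast, ← map_natCast J,
        mul_div_cancel_left₀ _ ((map_ne_zero J).2 hp0)]
    exact ⟨⟨z / p, U.div_mem z.2.1 (natCast_mem U p), y, h1⟩, hφ ((hj _).trans h1.symm)⟩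

end Pool.Agent.Work.MP_dd0d16_nt.T
end

-- merged part: Pool.Agent.Work.MP_dd0d16_nt.T.Norm
section
/-!
From relations over a finite extension to primitive relations over `ℤ_[p]`; the calculus of `Pol`.

PLAN. `exists_qp`: let `b` be a basis of `K` over `ℚ_[p]` (`Module.finBasis`), and
`A = ∑ μ ∈ P.support, (Algebra.leftMulMatrix b (coeff μ P)).map (monomial μ)`, a square matrix over
`MvPolynomial σ ℚ_[p]` with entries of degree at most `D`; `Q = det A` (`Matrix.det_apply`,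
`totalDegree_finsetSum_le`, `totalDegree_finset_prod`). There is a point `y0` with coordinates in
`ℚ_[p]` where `P` does not vanish (`MvPolynomial.funext_set`), and there `A` becomes
`leftMulMatrix b (P y0)`, whose determinant is a norm (`Algebra.norm_eq_matrix_det`): `Q ≠ 0`. At the
point `y` the nonzero vector `fun i => (b i : PadicAlgCl p)` is killed by `A`
(`Algebra.leftMulMatrix_eq_repr_mul`, `Basis.sum_repr`, `Matrix.exists_vecMul_eq_zero_iff`).
`exists_zp`: divide `Q` by a coefficient of largest norm.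
-/

set_option autoImplicit false

namespace Pool.Agent.Work.MP_dd0d16_nt.T

open MvPolynomial

theorem Norm_gen {σ F K Ω : Type} [Field F] [Field K] [Field Ω] [Algebra F K] [Algebra K Ω]
    [Algebra F Ω] [IsScalarTower F K Ω] [FiniteDimensional F K] {D : ℕ} {y : σ → Ω}
    {P : MvPolynomial σ K} (h0 : P ≠ 0) (hD : P.totalDegree ≤ D) (hy : aeval y P = 0) :
    ∃ Q : MvPolynomial σ F, Q ≠ 0 ∧ Q.totalDegree ≤ Module.finrank F K * D ∧ aeval y Q = 0 := by
  classical
  let b := Module.finBasis F K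
  let A : Matrix (Fin (Module.finrank F K)) (Fin (Module.finrank F K)) (MvPolynomial σ F) :=
    Matrix.of fun i j => ∑ μ ∈ P.support, monomial μ (b.repr (P.coeff μ * b j) i)
  have hA : ∀ i j μ, (A i j).coeff μ = b.repr (P.coeff μ * b j) i := fun i j μ => by
    simp only [A, Matrix.of_apply, coeff_sum, coeff_monomial, Finset.sum_ite_eq']
    split_ifs with h
    · rfl
    · rw [notMem_support_iff.1 h, zero_mul, map_zero, Finsupp.zero_apply]
  have key : ∀ j, ∑ i, C (b i) * map (algebraMap F K) (A i j) = P * C (b j) := fun j => by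
    ext μ
    rw [mul_comm P, coeff_C_mul, coeff_sum, mul_comm, ← b.sum_repr (P.coeff μ * b j)]
    exact Finset.sum_congr rfl fun i _ => by
      rw [coeff_C_mul, coeff_map, hA, Algebra.smul_def, mul_comm]
  refine ⟨A.det, fun hd => ?_, ?_, ?_⟩
  · obtain ⟨v, hv, h1⟩ := Matrix.exists_mulVec_eq_zero_iff.2 hd
    have h2 : P * ∑ j, C (b j) * map (algebraMap F K) (v j) = 0 := by
      have h3 : ∀ i, ∑ j, map (algebraMap F K) (A i j) * map (algebraMap F K) (v j) = 0 :=
        fun i => by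
          simpa only [Matrix.mulVec, dotProduct, map_sum, map_mul, Pi.zero_apply, map_zero] using
            congrArg (map (algebraMap F K)) (congrFun h1 i)
      simp only [Finset.mul_sum, ← mul_assoc, ← key, Finset.sum_mul]
      rw [Finset.sum_comm]
      simp only [mul_assoc, ← Finset.mul_sum, h3, mul_zero, Finset.sum_const_zero]
    refine hv (funext fun j => MvPolynomial.ext _ _ fun μ => ?_)
    have h4 := congrArg (coeff μ) ((mul_eq_zero.1 h2).resolve_left h0)
    simp only [coeff_sum, coeff_C_mul, coeff_map, coeff_zero] at h4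
    exact Fintype.linearIndependent_iff.1 b.linearIndependent (fun j => (v j).coeff μ)
      (by simpa only [Algebra.smul_def, mul_comm] using h4) j
  · rw [Matrix.det_apply]
    refine totalDegree_finsetSum_le fun s _ => ?_
    rw [Units.smul_def, ← Int.cast_smul_eq_zsmul F]
    refine (totalDegree_smul_le _ _).trans ((totalDegree_finsetProd _ _).trans ?_)
    refine (Finset.sum_le_card_nsmul _ _ D fun i _ => ?_).trans (by simp)
    exact totalDegree_finsetSum_le fun μ hμ =>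
      (totalDegree_monomial_le _ _).trans ((le_totalDegree hμ).trans hD)
  · rw [AlgHom.map_det]
    refine Matrix.exists_vecMul_eq_zero_iff.1 ⟨fun i => algebraMap K Ω (b i), fun h => ?_,
      funext fun j => ?_⟩
    · exact b.ne_zero ⟨0, Module.finrank_pos⟩ ((map_eq_zero _).1 (congrFun h _))
    · have := congrArg (aeval y) (key j)
      simpa [Matrix.vecMul, dotProduct, aeval_map_algebraMap, hy] using this

variable {p : ℕ} [Fact p.Prime] {σ : Type} {K K' : IntermediateField ℚ_[p] (PadicAlgCl p)}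

theorem exists_qp [FiniteDimensional ℚ_[p] K] {D : ℕ} {y : σ → PadicAlgCl p} (h : ¬ Ind K D y) :
    ∃ Q : MvPolynomial σ ℚ_[p], Q ≠ 0 ∧ Q.totalDegree ≤ Module.finrank ℚ_[p] K * D ∧
      aeval y Q = 0 := by
  simp only [Ind, not_forall] at h
  obtain ⟨P, h1, h2, h3⟩ := h
  exact Norm_gen h3 h1 h2

theorem exists_zp [FiniteDimensional ℚ_[p] K] {D : ℕ} {y : σ → PadicAlgCl p} (h : ¬ Ind K D y) :
    ∃ Q : MvPolynomial σ ℤ_[p], (∃ μ, IsUnit (Q.coeff μ)) ∧
      Q.totalDegree ≤ Module.finrank ℚ_[p] K * D ∧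
      eval₂ ((algebraMap ℚ_[p] (PadicAlgCl p)).comp (algebraMap ℤ_[p] ℚ_[p])) y Q = 0 := by
  obtain ⟨Q, h1, h2, h3⟩ := exists_qp h
  obtain ⟨μ, hμ, hm⟩ := Q.support.exists_max_image (fun ν => ‖Q.coeff ν‖) (support_nonempty.2 h1)
  have c0 : Q.coeff μ ≠ 0 := mem_support_iff.1 hμ
  obtain ⟨R, hR⟩ : C (Q.coeff μ)⁻¹ * Q ∈ Set.range (map (algebraMap ℤ_[p] ℚ_[p])) := by
    rw [mem_range_map_iff_coeffs_subset]
    intro c hc
    obtain ⟨ν, hν, rfl⟩ := mem_coeffs_iff.1 hc
    rw [mem_support_iff, coeff_C_mul] at hν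
    refine ⟨⟨coeff ν (C (Q.coeff μ)⁻¹ * Q), ?_⟩, rfl⟩
    rw [coeff_C_mul, norm_mul, norm_inv, inv_mul_le_one₀ (norm_pos_iff.2 c0)]
    exact hm ν (mem_support_iff.2 (right_ne_zero_of_mul hν))
  have inj : Function.Injective (algebraMap ℤ_[p] ℚ_[p]) := Subtype.val_injective
  refine ⟨R, ⟨μ, ?_⟩, ?_, ?_⟩
  · have := congrArg (coeff μ) hR
    rw [coeff_map, coeff_C_mul, inv_mul_cancel₀ c0, ← map_one (algebraMap ℤ_[p] ℚ_[p])] at this
    rw [inj this]
    exact isUnit_one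
  · rw [totalDegree, ← support_map_of_injective R inj, ← totalDegree, hR]
    exact (totalDegree_mul _ _).trans (by rwa [totalDegree_C, zero_add])
  · rw [← eval₂_map, hR, ← aeval_def, map_mul, h3, mul_zero]

variable {D D' : ℕ} {x : σ → PadicAlgCl p} {z z' : PadicAlgCl p}

theorem Pol.mono (h : Pol K D x z) (hK : K ≤ K') (hD : D ≤ D') : Pol K' D' x z := by
  obtain ⟨P, h1, rfl⟩ := h
  refine ⟨map (IntermediateField.inclusion hK).toRingHom P,
    (Finset.sup_mono (support_map_subset _ _)).trans (h1.trans hD), ?_⟩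
  rw [aeval_def, aeval_def, eval₂_map]
  rfl

theorem Pol.add (h : Pol K D x z) (h' : Pol K D x z') : Pol K D x (z + z') := by
  obtain ⟨P, h1, rfl⟩ := h
  obtain ⟨P', h2, rfl⟩ := h'
  exact ⟨P + P', (totalDegree_add _ _).trans (max_le h1 h2), map_add _ _ _⟩

theorem Pol.smul (h : Pol K D x z) {c : PadicAlgCl p} (hc : c ∈ K) : Pol K D x (c * z) := by
  obtain ⟨P, h1, rfl⟩ := h
  exact ⟨(⟨c, hc⟩ : K) • P, (totalDegree_smul_le _ _).trans h1, map_smul _ _ _⟩

theorem Pol.of_span {J : Type} {w : J → PadicAlgCl p} (hw : ∀ j, Pol K' D x (w j)) (hK : K ≤ K')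
    (u : PadicAlgCl p) {ζ : J → PadicAlgCl p} (hu : ∀ j, u * ζ j = w j)
    (hz : z ∈ Submodule.span K (Set.range ζ)) : Pol K' D x (u * z) := by
  induction hz using Submodule.span_induction with
  | mem a ha =>
    obtain ⟨j, rfl⟩ := ha
    exact hu j ▸ hw j
  | zero => exact ⟨0, by simp, by simp⟩
  | add a b _ _ ha hb => exact mul_add u a b ▸ ha.add hb
  | smul c a _ ha =>
    rw [mul_smul_comm]
    exact ha.smul (hK c.2)

/-- The determinant vanishes identically in the logarithms. -/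
theorem Ind.det {τ : Type} [Fintype τ] {w : τ → PadicAlgCl p}
    (h : Ind K (2 * (D + 1)) (Sum.elim x w)) (A : Fin 2 → Fin 2 → PadicAlgCl p)
    (B : Fin 2 → Fin 2 → τ → PadicAlgCl p) (hA : ∀ i j, Pol K D x (A i j))
    (hB : ∀ i j l, Pol K D x (B i j l))
    (h0 : (A 0 0 + ∑ l, B 0 0 l * w l) * (A 1 1 + ∑ l, B 1 1 l * w l) =
      (A 0 1 + ∑ l, B 0 1 l * w l) * (A 1 0 + ∑ l, B 1 0 l * w l)) (w' : τ → PadicAlgCl p) :
    (A 0 0 + ∑ l, B 0 0 l * w' l) * (A 1 1 + ∑ l, B 1 1 l * w' l) =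
      (A 0 1 + ∑ l, B 0 1 l * w' l) * (A 1 0 + ∑ l, B 1 0 l * w' l) := by
  choose a a1 a2 using hA
  choose b b1 b2 using hB
  let E : Fin 2 → Fin 2 → MvPolynomial (σ ⊕ τ) K := fun i j =>
    rename Sum.inl (a i j) + ∑ l, rename Sum.inl (b i j l) * X (Sum.inr l)
  have e1 : ∀ i j, (E i j).totalDegree ≤ D + 1 := fun i j =>
    (totalDegree_add _ _).trans (max_le
      ((totalDegree_rename_le _ _).trans ((a1 i j).trans D.le_succ))
      (totalDegree_finsetSum_le fun l _ => (totalDegree_mul _ _).trans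
        (add_le_add ((totalDegree_rename_le _ _).trans (b1 i j l)) (totalDegree_X _).le)))
  have e2 : ∀ (v : τ → PadicAlgCl p) i j,
      aeval (Sum.elim x v) (E i j) = A i j + ∑ l, B i j l * v l := fun v i j => by
    simp only [E, map_add, map_sum, map_mul, aeval_rename, Sum.elim_comp_inl, a2, b2, aeval_X,
      Sum.elim_inr]
  have e3 : ∀ i j i' j', (E i j * E i' j').totalDegree ≤ 2 * (D + 1) := fun i j i' j' =>
    (totalDegree_mul _ _).trans (two_mul (D + 1) ▸ add_le_add (e1 i j) (e1 i' j'))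
  have e4 := h (E 0 0 * E 1 1 - E 0 1 * E 1 0)
    ((totalDegree_sub _ _).trans (max_le (e3 _ _ _ _) (e3 _ _ _ _)))
    (by rw [map_sub, map_mul, map_mul, e2, e2, e2, e2, h0, sub_self])
  have e5 := congrArg (aeval (Sum.elim x w')) (sub_eq_zero.1 e4)
  rwa [map_mul, map_mul, e2, e2, e2, e2] at e5

end Pool.Agent.Work.MP_dd0d16_nt.T
end

-- merged part: Pool.Agent.Work.MP_dd0d16_nt.S.Disj
section
/-!
Linear disjointness.

PLAN. `disj`: induction on the size of the support of `c`. Normalise `c l0 = 1` (divide by `c l0`,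
which lies in `W`). For `σ` in the Galois group of `PadicAlgCl p` over `K` (`σ.restrictScalars`),
`fun l => σ (c l) - c l` is a relation with smaller support and values in `W`, so it vanishes; by
`InfiniteGalois.mem_bot_iff_fixed` (or `IsGalois.mem_range_algebraMap_iff_fixed`; `PadicAlgCl p` is
Galois over `K`: algebraic closure, characteristic zero) all `c l` lie in `K`.
`Unr_normal`: `IntermediateField.adjoin_induction`.
`ind_up`: let `N` be the normal closure of `K0` (finite over `ℚ_[p]`, degree `d`),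
`W = Unr p ⊔ N` (stable under all `σ`), `C = B0 * d`.
(1) `K ⊓ W` has dimension at most `C` over `ℚ_[p]`: a family in `K ⊓ W` that is independent over
`K ⊓ Unr p` is independent over `Unr p` (`disj`), and `W` is spanned over `Unr p` by a basis of `N`
(`IntermediateField.sup_toSubalgebra_of_isAlgebraic`, `IntermediateField.finrank_sup_le`, or
`adjoin_rank_le_of_isAlgebraic`), so it has at most `d` members; tower law.
(2) `Ind (K ⊓ W) D y → Ind K D y`: write the finitely many coefficients of `P` in a basis `b` of their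
span over `K ⊓ W` (or of `K` over `K ⊓ W`), `P = ∑ l, b l * P l`; `disj` gives `P l y = 0`.
(3) `exists_qp` (T/Norm) and `MvPolynomial.map` from `ℚ_[p]` to `K0`.
-/

set_option autoImplicit false

namespace Pool.Agent.Work.MP_dd0d16_nt.T

section

open IntermediateField MvPolynomial

variable {F Ω : Type} [Field F] [Field Ω] [Algebra F Ω] [IsGalois F Ω]
  {K W : IntermediateField F Ω}

theorem Disj_gen (hW : ∀ (σ : Ω ≃ₐ[F] Ω), ∀ z ∈ W, σ z ∈ W) {J : Type} [Fintype J] (b : J → Ω)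
    (hb : ∀ l, b l ∈ K) (hli : ∀ c : J → Ω, (∀ l, c l ∈ K ⊓ W) → ∑ l, c l * b l = 0 → c = 0)
    (c : J → Ω) (hc : ∀ l, c l ∈ W) (h : ∑ l, c l * b l = 0) : c = 0 := by
  classical
  suffices H : ∀ (S : Finset J) (c : J → Ω), (∀ l ∉ S, c l = 0) → (∀ l, c l ∈ W) →
      ∑ l, c l * b l = 0 → c = 0 from H Finset.univ c (by simp) hc h
  intro S
  induction S using Finset.induction_on with
  | empty => exact fun c h0 _ _ => funext fun l => h0 l (by simp)
  | insert a S _ ih =>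
    intro c h0 hc h
    by_cases ha : c a = 0
    · refine ih c (fun l hl => ?_) hc h
      by_cases e : l = a
      exacts [e ▸ ha, h0 l (by simp [e, hl])]
    have m : ∀ l, (c a)⁻¹ * c l ∈ W := fun l => mul_mem (inv_mem (hc a)) (hc l)
    have z : ∑ l, (c a)⁻¹ * c l * b l = 0 := by
      simp only [mul_assoc, ← Finset.mul_sum, h, mul_zero]
    have k : ∀ l, (c a)⁻¹ * c l ∈ K := fun l => by
      rw [← InfiniteGalois.fixedField_fixingSubgroup K, mem_fixedField_iff]
      intro σ hσ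
      rw [IntermediateField.mem_fixingSubgroup_iff] at hσ
      refine sub_eq_zero.1 (congrFun (ih (fun l => σ ((c a)⁻¹ * c l) - (c a)⁻¹ * c l)
        (fun l hl => ?_) (fun l => sub_mem (hW σ _ (m l)) (m l)) ?_) l)
      · by_cases e : l = a
        · rw [e, inv_mul_cancel₀ ha, map_one, sub_self]
        · rw [h0 l (by simp [e, hl]), mul_zero, map_zero, sub_self]
      · have := congrArg σ z
        simp only [map_sum, map_mul σ _ (b _), hσ _ (hb _), map_zero] at this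
        simp only [sub_mul, Finset.sum_sub_distrib, this, z, sub_self]
    have := congrFun (hli _ (fun l => ⟨k l, m l⟩) z) a
    rw [inv_mul_cancel₀ ha] at this
    exact absurd this one_ne_zero

theorem Disj_li (hW : ∀ (σ : Ω ≃ₐ[F] Ω), ∀ z ∈ W, σ z ∈ W) {J : Type} [Fintype J] (b : J → Ω)
    (hb : ∀ l, b l ∈ K) (hli : LinearIndependent ↥(K ⊓ W) b) (c : J → Ω) (hc : ∀ l, c l ∈ W)
    (h : ∑ l, c l * b l = 0) : c = 0 :=
  Disj_gen hW b hb (fun c hc h => funext fun l => congrArg Subtype.val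
    (Fintype.linearIndependent_iff.1 hli (fun l => ⟨c l, hc l⟩) h l)) c hc h

theorem Disj_rank (hW : ∀ (σ : Ω ≃ₐ[F] Ω), ∀ z ∈ W, σ z ∈ W) (N : IntermediateField F Ω)
    [FiniteDimensional F N] :
    Module.rank F ↥(K ⊓ (W ⊔ N)) ≤ Module.rank F ↥(K ⊓ W) * Module.finrank F N := by
  have le : K ⊓ W ≤ K ⊓ (W ⊔ N) := inf_le_inf_left _ le_sup_left
  have le2 : W ⊔ N ≤ (adjoin W (N : Set Ω)).restrictScalars F :=
    sup_le (fun z hz => (adjoin W (N : Set Ω)).algebraMap_mem ⟨z, hz⟩)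
      fun z hz => subset_adjoin W _ hz
  rw [← rank_bot_mul_relrank le, relrank_eq_rank_of_le le]
  refine mul_le_mul_right (rank_le fun s hs => ?_) _
  have h1 : LinearIndependent ↥(K ⊓ W) fun i : s => (i.1.1 : Ω) :=
    hs.map' (extendScalars le).val.toLinearMap (LinearMap.ker_eq_bot.2 Subtype.val_injective)
  have h2 : LinearIndependent W fun i : s => (⟨i.1.1, le2 i.1.2.2⟩ : adjoin W (N : Set Ω)) := by
    refine Fintype.linearIndependent_iff.2 fun g hg i => Subtype.ext ?_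
    refine congrFun (Disj_li hW _ (fun i => i.1.2.1) h1 (fun i => g i) (fun i => (g i).2) ?_) i
    have := congrArg Subtype.val hg
    rwa [AddSubmonoidClass.coe_finsetSum] at this
  have := h2.cardinal_le_rank.trans (adjoin_rank_le_of_isAlgebraic_right W N)
  rw [← Module.finrank_eq_rank F N, Cardinal.mk_fintype, Fintype.card_coe] at this
  exact_mod_cast this

theorem Disj_poly (hW : ∀ (σ : Ω ≃ₐ[F] Ω), ∀ z ∈ W, σ z ∈ W) {σ : Type} {D : ℕ} {y : σ → Ω}
    (hy : ∀ s, y s ∈ W)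
    (h : ∀ P : MvPolynomial σ ↥(K ⊓ W), P.totalDegree ≤ D → aeval y P = 0 → P = 0)
    (P : MvPolynomial σ K) (hD : P.totalDegree ≤ D) (h0 : aeval y P = 0) : P = 0 := by
  classical
  set M := Submodule.span ↥(K ⊓ W) ((fun μ => ((coeff μ P : K) : Ω)) '' P.support)
  have : FiniteDimensional ↥(K ⊓ W) M :=
    FiniteDimensional.span_of_finite _ (P.support.finite_toSet.image _)
  have hM : M ≤ (extendScalars (inf_le_left : K ⊓ W ≤ K)).toSubmodule :=
    Submodule.span_le.2 (by rintro _ ⟨μ, -, rfl⟩; exact (coeff μ P).2)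
  set b := Module.finBasis ↥(K ⊓ W) M
  let c : P.support → M := fun μ => ⟨(coeff μ.1 P : K), Submodule.subset_span ⟨μ, μ.2, rfl⟩⟩
  let Q := fun l => ∑ μ : P.support, monomial μ.1 (b.repr (c μ) l)
  have e : ∀ l, aeval y (Q l) = ∑ μ : P.support, (b.repr (c μ) l : Ω) * μ.1.prod
      fun i k => y i ^ k := fun l => by
    simp only [Q, map_sum, aeval_monomial]
    rfl
  have z := Disj_li hW (fun l => (b l : Ω)) (fun l => hM (b l).2)
    (b.linearIndependent.map' M.subtype M.ker_subtype) (fun l => aeval y (Q l))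
    (fun l => e l ▸ sum_mem fun μ _ => mul_mem (b.repr (c μ) l).2.2
      (prod_mem fun i _ => pow_mem (hy i) _)) (by
      rw [← h0, P.as_sum, map_sum,
        ← P.support.sum_coe_sort fun μ => aeval y (monomial μ (coeff μ P))]
      simp only [e, Finset.sum_mul]
      rw [Finset.sum_comm]
      refine Finset.sum_congr rfl fun μ _ => ?_
      have := congrArg Subtype.val (b.sum_repr (c μ))
      rw [AddSubmonoidClass.coe_finsetSum] at this
      rw [aeval_monomial]
      refine Eq.trans ?_ (congrArg (· * _) this)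
      rw [Finset.sum_mul]
      exact Finset.sum_congr rfl fun l _ => mul_right_comm _ _ _)
  refine by_contra fun ne => ?_
  obtain ⟨μ, hμ⟩ := support_nonempty.2 ne
  have : b.repr (c ⟨μ, hμ⟩) = 0 := Finsupp.ext fun l => by
    have := congrArg (coeff μ) (h (Q l) (totalDegree_finsetSum_le fun ν _ =>
      (totalDegree_monomial_le _ _).trans ((le_totalDegree ν.2).trans hD)) (congrFun z l))
    rwa [coeff_sum, Finset.sum_eq_single ⟨μ, hμ⟩ (fun ν _ hν => by
      rw [coeff_monomial, if_neg fun q => hν (Subtype.ext q)]) (by simp), coeff_monomial,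
      if_pos rfl] at this
  exact mem_support_iff.1 hμ
    (Subtype.ext (congrArg Subtype.val (b.repr.map_eq_zero_iff.1 this) :))

end

variable {p : ℕ} [Fact p.Prime]

theorem disj (K W : IntermediateField ℚ_[p] (PadicAlgCl p))
    (hW : ∀ (σ : PadicAlgCl p ≃ₐ[ℚ_[p]] PadicAlgCl p), ∀ z ∈ W, σ z ∈ W) {J : Type} [Fintype J]
    (b : J → PadicAlgCl p) (hb : ∀ l, b l ∈ K)
    (hli : ∀ c : J → PadicAlgCl p, (∀ l, c l ∈ K ⊓ W) → ∑ l, c l * b l = 0 → c = 0)
    (c : J → PadicAlgCl p) (hc : ∀ l, c l ∈ W) (h : ∑ l, c l * b l = 0) : c = 0 := by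
  exact Disj_gen hW b hb hli c hc h

theorem Unr_normal (σ : PadicAlgCl p ≃ₐ[ℚ_[p]] PadicAlgCl p) : ∀ z ∈ Unr p, σ z ∈ Unr p := by
  have : Unr p ≤ (Unr p).comap σ.toAlgHom := IntermediateField.adjoin_le_iff.2 <| by
    rintro z ⟨N, h1, h2⟩
    exact IntermediateField.subset_adjoin ℚ_[p] _ ⟨N, h1, by rw [← map_pow, h2, map_one]⟩
  exact this

theorem ind_up (K0 : IntermediateField ℚ_[p] (PadicAlgCl p)) [FiniteDimensional ℚ_[p] K0]
    (B0 : ℕ) : ∃ C : ℕ, ∀ K : IntermediateField ℚ_[p] (PadicAlgCl p),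
      Module.rank ℚ_[p] ↥(K ⊓ Unr p) ≤ B0 → ∀ (σ : Type) (D : ℕ) (y : σ → PadicAlgCl p),
      (∀ s, y s ∈ Unr p ⊔ K0) → Ind K0 (C * D) y → Ind K D y := by
  set N := IntermediateField.normalClosure ℚ_[p] K0 (PadicAlgCl p)
  refine ⟨B0 * Module.finrank ℚ_[p] N, fun K hK σ D y hy h => ?_⟩
  have hW : ∀ τ : PadicAlgCl p ≃ₐ[ℚ_[p]] PadicAlgCl p, ∀ z ∈ Unr p ⊔ N, τ z ∈ Unr p ⊔ N := fun τ =>
    (sup_le (fun z hz => le_sup_left (a := Unr p) (Unr_normal τ z hz)) fun z hz =>
      le_sup_right (b := N) (IntermediateField.normal_iff_forall_map_le'.1 inferInstance τ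
        ⟨z, hz, rfl⟩) : Unr p ⊔ N ≤ (Unr p ⊔ N).comap τ.toAlgHom)
  have r : Module.rank ℚ_[p] ↥(K ⊓ (Unr p ⊔ N)) ≤ (B0 * Module.finrank ℚ_[p] N : ℕ) :=
    (Disj_rank Unr_normal N).trans (by rw [Nat.cast_mul]; exact mul_le_mul_left hK _)
  have : FiniteDimensional ℚ_[p] ↥(K ⊓ (Unr p ⊔ N)) :=
    Module.rank_lt_aleph0_iff.1 (r.trans_lt Cardinal.natCast_lt_aleph0)
  refine Disj_poly hW (fun s => sup_le_sup_left K0.le_normalClosure _ (hy s)) ?_
  by_contra q
  obtain ⟨Q, q0, q1, q2⟩ := exists_qp (K := K ⊓ (Unr p ⊔ N)) q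
  have inj := (algebraMap ℚ_[p] K0).injective
  refine q0 (MvPolynomial.map_injective _ inj ((h _ ?_ ?_).trans (map_zero _).symm))
  · rw [MvPolynomial.totalDegree, MvPolynomial.support_map_of_injective _ inj]
    exact q1.trans (Nat.mul_le_mul_right _ (Module.finrank_le_of_rank_le r))
  · rw [MvPolynomial.aeval_map_algebraMap, q2]

end Pool.Agent.Work.MP_dd0d16_nt.T
end

-- merged part: Pool.Agent.Work.MP_dd0d16_nt.S.Germ
section
/-!
The ultrapower of `PadicAlgCl p`.

PLAN. `vG_le`: `ValuationSubring.valuation_le_iff` (`v x ≤ v y ↔ ∃ a : A, a * y = x`); take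
`a n = f n / g n` where `‖f n‖ ≤ ‖g n‖`.
`log_mem`: `exists_norm_pow` and `unit_pow_close` (PAdic) with `d` the degree of the minimal polynomial
give `r`, `M ≠ 0` with `‖(z ^ d! * p ^ r) ^ M - 1‖ < 1`; `BLog_mem`, `log_pow`, `IsLog.zpow`.
`lf_germ`: `Germ.inductionOn`; `nat`: `norm_int_ge` or `padicValNat`; `tail`: `log_tail norm_int_ge`
(Seq) with `ρ = ‖s n‖`, `(T + 1) * ρ ≤ (T + 1) / 2 ^ (T + 1) ≤ 1`.
`algInd_iff`: (→) otherwise `¬ Ind (K n) D (y n)` eventually; choose `P n`, let `S` be the finite set of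
exponents of degree at most `D` and assemble `∑ μ ∈ S, monomial μ (germ of coeff μ (P n))` as in
`unif_ind` (T/Ultra). (←) choose representatives in `K n` of the coefficients of `P` (`GS_rep`), put
`P n = ∑ μ ∈ P.support, monomial μ (..)`, `D = P.totalDegree`.
-/

set_option autoImplicit false

namespace Pool.Agent.Work.MP_dd0d16_nt.T

open Filter

variable {p : ℕ} [Fact p.Prime] {ι : Type} (U : Ultrafilter ι)

/-- The ultrapower. -/
abbrev GF (p : ℕ) [Fact p.Prime] {ι : Type} (U : Ultrafilter ι) : Type :=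
  Germ (U : Filter ι) (PadicAlgCl p)

/-- The class of a family. -/
noncomputable def gm : (ι → PadicAlgCl p) →+* GF p U := Germ.coeRingHom _

theorem gm_eq {f g : ι → PadicAlgCl p} : gm U f = gm U g ↔ ∀ᶠ n in U, f n = g n := Germ.coe_eq

theorem gm_surj (z : GF p U) : ∃ f, gm U f = z := Germ.inductionOn z fun f => ⟨f, rfl⟩

theorem gm_ne {f : ι → PadicAlgCl p} : gm U f ≠ 0 ↔ ∀ᶠ n in U, f n ≠ 0 := by
  rw [← map_zero (gm U), Ne, gm_eq]
  exact Ultrafilter.eventually_not.symm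

theorem gm_inv (f : ι → PadicAlgCl p) : gm U f⁻¹ = (gm U f)⁻¹ := rfl

instance : CharZero (GF p U) :=
  (RingHom.charZero_iff ((gm U).comp (Pi.constRingHom ι (PadicAlgCl p))).injective).1 inferInstance

/-- The integers of the ultrapower. -/
noncomputable def OS : ValuationSubring (GF p U) where
  carrier := {z | ∃ f, (∀ᶠ n in U, ‖f n‖ ≤ 1) ∧ gm U f = z}
  mul_mem' := by
    rintro _ _ ⟨f, hf, rfl⟩ ⟨g, hg, rfl⟩
    refine ⟨f * g, (hf.and hg).mono fun n h => ?_, map_mul _ _ _⟩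
    rw [Pi.mul_apply, norm_mul]
    exact mul_le_one₀ h.1 (norm_nonneg _) h.2
  one_mem' := ⟨1, Eventually.of_forall fun n => by simp, map_one _⟩
  add_mem' := by
    rintro _ _ ⟨f, hf, rfl⟩ ⟨g, hg, rfl⟩
    exact ⟨f + g, (hf.and hg).mono fun n h =>
      (IsUltrametricDist.norm_add_le_max _ _).trans (max_le h.1 h.2), map_add _ _ _⟩
  zero_mem' := ⟨0, Eventually.of_forall fun n => by simp, map_zero _⟩
  neg_mem' := by
    rintro _ ⟨f, hf, rfl⟩
    exact ⟨-f, hf.mono fun n h => by rwa [Pi.neg_apply, norm_neg], map_neg _ _⟩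
  mem_or_inv_mem' := by
    intro z
    obtain ⟨f, rfl⟩ := gm_surj U z
    by_cases h : ∀ᶠ n in U, ‖f n‖ ≤ 1
    · exact Or.inl ⟨f, h, rfl⟩
    · refine Or.inr ⟨f⁻¹, (Ultrafilter.eventually_not.2 h).mono fun n hn => ?_, gm_inv U f⟩
      rw [Pi.inv_apply, norm_inv]
      exact inv_le_one_of_one_le₀ (not_le.1 hn).le

/-- The valuation of the ultrapower. -/
noncomputable def vG : Valuation (GF p U) (OS (p := p) U).ValueGroup := (OS U).valuation

theorem vG_le (f g : ι → PadicAlgCl p) :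
    vG U (gm U f) ≤ vG U (gm U g) ↔ ∀ᶠ n in U, ‖f n‖ ≤ ‖g n‖ := by
  rw [vG, ValuationSubring.valuation_le_iff]
  constructor
  · rintro ⟨⟨_, a, ha, rfl⟩, h⟩
    have h1 : gm U (a * g) = gm U f := (map_mul _ _ _).trans h
    refine (ha.and ((gm_eq U).1 h1)).mono fun n hn => ?_
    rw [← hn.2, Pi.mul_apply, norm_mul]
    exact mul_le_of_le_one_left (norm_nonneg _) hn.1
  · intro h
    refine ⟨⟨gm U (f / g), f / g, h.mono fun n hn => ?_, rfl⟩, ?_⟩
    · rw [Pi.div_apply, norm_div]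
      exact div_le_one_of_le₀ hn (norm_nonneg _)
    · refine (map_mul (gm U) (f / g) g).symm.trans ((gm_eq U).2 (h.mono fun n hn => ?_))
      rw [Pi.mul_apply, Pi.div_apply]
      by_cases h0 : g n = 0
      · rw [h0, norm_zero, norm_le_zero_iff] at hn
        rw [h0, hn, mul_zero]
      · exact div_mul_cancel₀ _ h0

theorem vG_le_one (f : ι → PadicAlgCl p) : vG U (gm U f) ≤ 1 ↔ ∀ᶠ n in U, ‖f n‖ ≤ 1 := by
  have h := vG_le U f 1
  rw [map_one, map_one] at h
  simpa using h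

theorem Germ_pow (c : ℕ) : vG U (p : GF p U) ^ c = vG U (gm U ((p : ι → PadicAlgCl p) ^ c)) := by
  rw [map_pow (gm U), map_natCast (gm U), map_pow]

theorem Germ_norm (c : ℕ) (n : ι) : ‖((p : ι → PadicAlgCl p) ^ c) n‖ = (p : ℝ)⁻¹ ^ c := by
  rw [Pi.pow_apply, Pi.natCast_apply, norm_pow, norm_p_eq]

theorem vG_le_pow (f : ι → PadicAlgCl p) (c : ℕ) :
    vG U (gm U f) ≤ vG U (p : GF p U) ^ c ↔ ∀ᶠ n in U, ‖f n‖ ≤ (p : ℝ)⁻¹ ^ c := by
  rw [Germ_pow, vG_le]
  simp only [Germ_norm]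

/-- The classes of families with values in `K n`. -/
noncomputable def GS (K : ι → IntermediateField ℚ_[p] (PadicAlgCl p)) : Subfield (GF p U) where
  carrier := {z | ∃ f, (∀ n, f n ∈ K n) ∧ gm U f = z}
  mul_mem' := by
    rintro _ _ ⟨f, hf, rfl⟩ ⟨g, hg, rfl⟩
    exact ⟨f * g, fun n => mul_mem (hf n) (hg n), map_mul _ _ _⟩
  one_mem' := ⟨1, fun n => one_mem _, map_one _⟩
  add_mem' := by
    rintro _ _ ⟨f, hf, rfl⟩ ⟨g, hg, rfl⟩
    exact ⟨f + g, fun n => add_mem (hf n) (hg n), map_add _ _ _⟩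
  zero_mem' := ⟨0, fun n => zero_mem _, map_zero _⟩
  neg_mem' := by
    rintro _ ⟨f, hf, rfl⟩
    exact ⟨-f, fun n => neg_mem (hf n), map_neg _ _⟩
  inv_mem' := by
    rintro _ ⟨f, hf, rfl⟩
    exact ⟨f⁻¹, fun n => inv_mem (hf n), gm_inv U f⟩

theorem GS_rep {K : ι → IntermediateField ℚ_[p] (PadicAlgCl p)} {z : GF p U} (h : z ∈ GS U K) :
    ∃ f, (∀ n, f n ∈ K n) ∧ gm U f = z := h

theorem gm_mem {K : ι → IntermediateField ℚ_[p] (PadicAlgCl p)} {f : ι → PadicAlgCl p} :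
    gm U f ∈ GS U K ↔ ∀ᶠ n in U, f n ∈ K n := by
  classical
  constructor
  · rintro ⟨g, hg, e⟩
    exact ((gm_eq U).1 e).mono fun n hn => hn ▸ hg n
  · intro h
    refine ⟨fun n => if f n ∈ K n then f n else 0, fun n => ?_,
      (gm_eq U).2 (h.mono fun n hn => if_pos hn)⟩
    beta_reduce
    split_ifs with hn
    · exact hn
    · exact zero_mem _

/-- The logarithm of the ultrapower. -/
noncomputable def LG (L : PadicAlgCl p → PadicAlgCl p) : GF p U → GF p U := Germ.map L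

theorem LG_gm (L : PadicAlgCl p → PadicAlgCl p) (f : ι → PadicAlgCl p) :
    LG U L (gm U f) = gm U fun n => L (f n) := rfl

theorem log_mem {L : PadicAlgCl p → PadicAlgCl p} (hL : IsLog L)
    (K : IntermediateField ℚ_[p] (PadicAlgCl p)) {z : PadicAlgCl p} (hz : z ∈ K) (h0 : z ≠ 0) :
    L z ∈ K := by
  obtain ⟨r, hr⟩ := exists_norm_pow h0 le_rfl
  set d := (minpoly ℚ_[p] z).natDegree
  have hp : (p : PadicAlgCl p) ≠ 0 := Nat.cast_ne_zero.2 (Fact.out : p.Prime).ne_zero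
  have hp0 : (0 : ℝ) < p := by exact_mod_cast (Fact.out : p.Prime).pos
  let u := z ^ d.factorial * (p : PadicAlgCl p) ^ r
  have hu : ‖u‖ = 1 := by
    simp only [u, norm_mul, norm_pow, norm_zpow, hr, norm_p_eq, inv_zpow]
    exact mul_inv_cancel₀ (zpow_ne_zero _ hp0.ne')
  have hm : u ∈ K := mul_mem (pow_mem hz _) (zpow_mem (natCast_mem _ p) r)
  have h1 := unit_pow_close hu le_rfl
  set M := (p ^ (2 * (minpoly ℚ_[p] u).natDegree)).factorial
  have hu0 : u ≠ 0 := by
    rintro h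
    simp [h] at hu
  have hL1 : L (u ^ M) = ((d.factorial * M : ℕ) : PadicAlgCl p) * L z := by
    rw [log_pow hL hu0, hL.1 _ _ (pow_ne_zero _ h0) (zpow_ne_zero _ hp), hL.zpow, log_pow hL h0]
    push_cast
    ring
  have h2 := BLog_mem hL K (z := u ^ M - 1) (sub_mem (pow_mem hm _) (one_mem _)) (by linarith)
  rw [add_sub_cancel, hL1] at h2
  have h3 : ((d.factorial * M : ℕ) : PadicAlgCl p) ≠ 0 :=
    Nat.cast_ne_zero.2 (mul_ne_zero (Nat.factorial_ne_zero _) (Nat.factorial_ne_zero _))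
  have h4 := mul_mem (inv_mem (natCast_mem K (d.factorial * M))) h2
  rwa [inv_mul_cancel_left₀ h3] at h4

theorem Germ_tail {L : PadicAlgCl p → PadicAlgCl p} (hL : IsLog L) (T : ℕ) {s : PadicAlgCl p}
    (hs : ‖s‖ ≤ (p : ℝ)⁻¹ ^ (T + 1)) :
    ‖L (1 + s) - ∑ n ∈ Finset.range T, (-1 : PadicAlgCl p) ^ n * s ^ (n + 1) /
      ((n : PadicAlgCl p) + 1)‖ ≤ ‖s‖ ^ T := by
  have hp : (2 : ℝ) ≤ p := by exact_mod_cast (Fact.out : p.Prime).two_le
  have h1 : (p : ℝ)⁻¹ ≤ 1 / 2 := by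
    rw [one_div]
    exact inv_anti₀ two_pos hp
  have h2 : ‖s‖ ≤ (1 / 2) ^ (T + 1) := hs.trans (pow_le_pow_left₀ (by positivity) h1 _)
  have h3 : (1 / 2 : ℝ) ^ (T + 1) ≤ 1 / 2 := pow_le_of_le_one (by norm_num) (by norm_num) (by omega)
  refine (log_tail norm_int_ge le_rfl (h2.trans h3) (hL.2.2 s (by linarith)) T).trans ?_
  have h4 : ((T + 1 : ℕ) : ℝ) ≤ ((2 ^ (T + 1) : ℕ) : ℝ) := by
    exact_mod_cast Nat.lt_two_pow_self.le
  push_cast at h4
  have h5 : ((T : ℝ) + 1) * ‖s‖ ≤ 1 := by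
    calc ((T : ℝ) + 1) * ‖s‖ ≤ 2 ^ (T + 1) * (1 / 2) ^ (T + 1) :=
          mul_le_mul h4 h2 (norm_nonneg _) (by positivity)
      _ = 1 := by rw [← mul_pow]; norm_num
  rw [pow_succ', ← mul_assoc]
  exact mul_le_of_le_one_left (by positivity) h5

theorem lf_germ {L : PadicAlgCl p → PadicAlgCl p} (hL : IsLog L)
    (K : ι → IntermediateField ℚ_[p] (PadicAlgCl p)) : LF p (vG U) (LG U L) (GS U K) := by
  have hp : (2 : ℝ) ≤ p := by exact_mod_cast (Fact.out : p.Prime).two_le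
  refine ⟨(Valuation.ne_zero_iff _).2 (Nat.cast_ne_zero.2 (Fact.out : p.Prime).ne_zero), ?_,
    fun n hn => ⟨n, ?_⟩, fun a b ha hb => ?_, fun a ha h0 => ?_, fun T s hs => ?_⟩
  · refine lt_of_not_ge fun h => ?_
    have h1 := vG_le U (1 : ι → PadicAlgCl p) ((p : ι → PadicAlgCl p) ^ 1)
    rw [← Germ_pow, map_one, map_one, pow_one] at h1
    obtain ⟨n, hn⟩ := (h1.1 h).exists
    rw [Germ_norm, Pi.one_apply, norm_one, pow_one] at hn
    exact absurd (inv_lt_one_of_one_lt₀ (by linarith)) (not_lt.2 hn)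
  · rw [Germ_pow, ← map_natCast (gm (p := p) U) n, vG_le]
    refine Eventually.of_forall fun i => ?_
    rw [Germ_norm, Pi.natCast_apply]
    have h1 := norm_int_ge (p := p) (n : ℤ) (by exact_mod_cast hn)
    rw [Int.cast_natCast, Int.cast_natCast, Nat.abs_cast] at h1
    have h2 : (n : ℝ) ≤ (p : ℝ) ^ n := by
      have h3 : (n : ℝ) ≤ ((2 ^ n : ℕ) : ℝ) := by exact_mod_cast Nat.lt_two_pow_self.le
      push_cast at h3
      exact h3.trans (pow_le_pow_left₀ (by norm_num) hp n)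
    rw [inv_pow, inv_le_iff_one_le_mul₀' (by positivity)]
    exact h1.trans (mul_le_mul_of_nonneg_right h2 (norm_nonneg _))
  · obtain ⟨f, rfl⟩ := gm_surj U a
    obtain ⟨g, rfl⟩ := gm_surj U b
    rw [← map_mul, LG_gm, LG_gm, LG_gm, ← map_add, gm_eq]
    exact (((gm_ne U).1 ha).and ((gm_ne U).1 hb)).mono fun n h => hL.1 _ _ h.1 h.2
  · obtain ⟨f, hf, rfl⟩ := ha
    rw [LG_gm, gm_mem]
    exact ((gm_ne U).1 h0).mono fun n h => log_mem hL _ (hf n) h
  · obtain ⟨f, rfl⟩ := gm_surj U s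
    have e : LG U L (1 + gm U f) - ∑ n ∈ Finset.range T,
        (-1 : GF p U) ^ n * gm U f ^ (n + 1) / ((n : GF p U) + 1) =
        gm U ((fun i => L ((1 + f) i)) - ∑ n ∈ Finset.range T,
          (-1) ^ n * f ^ (n + 1) * ((n : ι → PadicAlgCl p) + 1)⁻¹) := by
      rw [map_sub, map_sum, ← LG_gm, map_add, map_one]
      refine congrArg _ (Finset.sum_congr rfl fun n _ => ?_)
      rw [map_mul, gm_inv, map_mul, map_pow, map_pow, map_neg, map_one, map_add, map_one,
        map_natCast, div_eq_mul_inv]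
    rw [e, ← map_pow, ← map_pow, vG_le]
    refine ((vG_le_pow U f _).1 hs).mono fun i hi => ?_
    have h1 := Germ_tail hL T hi
    simp only [Pi.sub_apply, Finset.sum_apply, Pi.mul_apply, Pi.pow_apply, Pi.neg_apply,
      Pi.one_apply, Pi.inv_apply, Pi.add_apply, Pi.natCast_apply, norm_pow]
    simpa only [div_eq_mul_inv] using h1

theorem Germ_aeval {σ : Type} [Fintype σ] (K : ι → IntermediateField ℚ_[p] (PadicAlgCl p))
    (y : ι → σ → PadicAlgCl p) (S : Finset (σ →₀ ℕ)) (c : (σ →₀ ℕ) → ι → PadicAlgCl p)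
    (hc : ∀ μ n, c μ n ∈ K n) :
    MvPolynomial.aeval (fun s => gm U fun n => y n s)
      (∑ μ ∈ S, MvPolynomial.monomial μ (⟨gm U (c μ), c μ, hc μ, rfl⟩ : GS U K)) =
      gm U fun n => MvPolynomial.aeval (y n)
        (∑ μ ∈ S, MvPolynomial.monomial μ (⟨c μ n, hc μ n⟩ : K n)) := by
  have e : (fun n => MvPolynomial.aeval (y n)
      (∑ μ ∈ S, MvPolynomial.monomial μ (⟨c μ n, hc μ n⟩ : K n))) =
      ∑ μ ∈ S, c μ * ∏ s, (fun n => y n s) ^ μ s := by
    funext n
    simp only [map_sum, MvPolynomial.aeval_monomial, Finsupp.prod_pow, Finset.sum_apply,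
      Pi.mul_apply, Finset.prod_apply, Pi.pow_apply]
    rfl
  rw [e]
  simp only [map_sum, MvPolynomial.aeval_monomial, Finsupp.prod_pow, map_mul, map_prod, map_pow]
  rfl

theorem Germ_coeff {σ R : Type} [CommRing R] {S : Finset (σ →₀ ℕ)} {c : (σ →₀ ℕ) → R}
    (h : ∑ μ ∈ S, MvPolynomial.monomial μ (c μ) = 0) {μ : σ →₀ ℕ} (hμ : μ ∈ S) : c μ = 0 := by
  classical
  have h7 := congrArg (MvPolynomial.coeff μ) h
  rw [MvPolynomial.coeff_sum] at h7
  simp only [MvPolynomial.coeff_monomial, Finset.sum_ite_eq', MvPolynomial.coeff_zero] at h7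
  rwa [if_pos hμ] at h7

theorem algInd_iff {σ : Type} [Fintype σ] (K : ι → IntermediateField ℚ_[p] (PadicAlgCl p))
    (y : ι → σ → PadicAlgCl p) :
    AlgebraicIndependent (GS U K) (fun s => gm U fun n => y n s) ↔
      ∀ D, ∀ᶠ n in U, Ind (K n) D (y n) := by
  classical
  rw [algebraicIndependent_iff]
  constructor
  · intro h D
    by_contra hc
    have h0 : ∀ᶠ n in U, ¬ Ind (K n) D (y n) := Ultrafilter.eventually_not.2 hc
    have h1 : ∀ n, ∃ Q : MvPolynomial σ (K n), ¬ Ind (K n) D (y n) →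
        Q.totalDegree ≤ D ∧ MvPolynomial.aeval (y n) Q = 0 ∧ Q ≠ 0 := fun n => by
      by_cases hn : Ind (K n) D (y n)
      · exact ⟨0, fun h' => absurd hn h'⟩
      · have hn' := hn
        simp only [Ind, not_forall] at hn'
        obtain ⟨Q, h1, h2, h3⟩ := hn'
        exact ⟨Q, fun _ => ⟨h1, h2, h3⟩⟩
    choose Q hQ using h1
    let S := (Finsupp.finite_of_degree_le (σ := σ) D).toFinset
    have h2 : ∀ᶠ n in U, ∑ μ ∈ S, MvPolynomial.monomial μ ((Q n).coeff μ) = Q n :=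
      h0.mono fun n hn => by
        conv_rhs => rw [← MvPolynomial.support_sum_monomial_coeff (Q n)]
        refine (Finset.sum_subset (fun μ hμ => (Set.Finite.mem_toFinset _).2
          ((MvPolynomial.le_totalDegree hμ).trans (hQ n hn).1)) fun μ _ hμ => ?_).symm
        rw [MvPolynomial.notMem_support_iff.1 hμ, map_zero]
    have h3 := h _ ((Germ_aeval U K y S (fun μ n => ((Q n).coeff μ : K n))
      fun μ n => ((Q n).coeff μ).2).trans (by
        rw [← map_zero (gm U), gm_eq]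
        refine (h0.and h2).mono fun n hn => ?_
        exact (congrArg (MvPolynomial.aeval (y n)) hn.2).trans (hQ n hn.1).2.1))
    have h4 : ∀ᶠ n in U, ∀ μ ∈ S, (Q n).coeff μ = 0 := by
      refine (eventually_all_finset S).2 fun μ hμ => ?_
      have h5 := congrArg Subtype.val (Germ_coeff h3 hμ)
      refine ((gm_eq U).1 (h5.trans (map_zero (gm U)).symm)).mono fun n hn => ?_
      exact Subtype.ext hn
    obtain ⟨n, ⟨h5, h6⟩, h7⟩ := ((h0.and h2).and h4).exists
    refine (hQ n h5).2.2 ?_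
    rw [← h6]
    exact Finset.sum_eq_zero fun μ hμ => by rw [h7 μ hμ, map_zero]
  · intro h P hP
    choose c hc e using fun μ => GS_rep U (P.coeff μ).2
    have h1 : ∑ μ ∈ P.support, MvPolynomial.monomial μ (⟨gm U (c μ), c μ, hc μ, rfl⟩ : GS U K) =
        P := by
      conv_rhs => rw [← MvPolynomial.support_sum_monomial_coeff P]
      exact Finset.sum_congr rfl fun μ _ => congrArg _ (Subtype.ext (e μ))
    have h2 := Germ_aeval U K y P.support c hc
    rw [h1, hP, ← map_zero (gm U), gm_eq] at h2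
    ext1 μ
    by_contra hμ
    have h3 : μ ∈ P.support := MvPolynomial.mem_support_iff.2 hμ
    refine hμ (Subtype.ext ((e μ).symm.trans ?_))
    refine ((gm_eq U).2 ((h2.and (h P.totalDegree)).mono fun n hn => ?_)).trans (map_zero (gm U))
    have h4 := hn.2 _ (MvPolynomial.totalDegree_finsetSum_le fun ν hν =>
      (MvPolynomial.totalDegree_monomial_le _ _).trans (MvPolynomial.le_totalDegree hν)) hn.1.symm
    exact congrArg Subtype.val (Germ_coeff h4 h3)

end Pool.Agent.Work.MP_dd0d16_nt.T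
end
end

-- merged part: Pool.Agent.Work.MP_dd0d16_nt.T.Mat
section
/-!
A pencil of singular two by two matrices.

PLAN. If all `B i j l` vanish we are in the second case. Otherwise fix `l` and `B i0 j0 l ≠ 0`, write
`N i j = B i j l` and `M` for the matrix at `w`. Use `h` at `w + t • Pi.single l 1` for `t = 0, 1, -1`:
`det M = 0`, `det N = 0` and `M 0 0 * N 1 1 + M 1 1 * N 0 0 = M 0 1 * N 1 0 + M 1 0 * N 0 1`. Put
`u i = N i j0`, `v j = N i0 j`, so `u i * v j = N i0 j0 * N i j`; with `r j = u 1 * M 0 j - u 0 * M 1 j`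
and `s i = M i 0 * v 1 - M i 1 * v 0` we get `r j * s i = 0` for all `i j`, so `r = 0` (rows) or `s = 0`
(columns).
-/

set_option autoImplicit false

namespace Pool.Agent.Work.MP_dd0d16_nt.T

theorem Mat_dep {F : Type} [Field F] [CharZero F] (M N : Fin 2 → Fin 2 → F)
    (hN : ∀ i j, IsAlgebraic ℚ (N i j)) (dM : M 0 0 * M 1 1 = M 0 1 * M 1 0)
    (dN : N 0 0 * N 1 1 = N 0 1 * N 1 0)
    (mx : M 0 0 * N 1 1 + M 1 1 * N 0 0 = M 0 1 * N 1 0 + M 1 0 * N 0 1) {i0 j0 : Fin 2}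
    (h0 : N i0 j0 ≠ 0) : Dep M := by
  have huv : ∀ i j, N i j0 * N i0 j = N i0 j0 * N i j := by
    intro i j
    fin_cases i0 <;> fin_cases j0 <;> fin_cases i <;> fin_cases j <;>
      simp only [Fin.zero_eta, Fin.mk_one, Fin.isValue] <;>
      first
        | ring1
        | linear_combination dN
        | linear_combination -dN
  have hE : ∀ i j, N 1 1 * (M 0 j * M i 0) - N 1 0 * (M 0 j * M i 1) - N 0 1 * (M 1 j * M i 0) +
      N 0 0 * (M 1 j * M i 1) = 0 := by
    intro i j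
    fin_cases i <;> fin_cases j <;> simp only [Fin.zero_eta, Fin.mk_one, Fin.isValue]
    · linear_combination M 0 0 * mx - N 0 0 * dM
    · linear_combination M 0 1 * mx - N 0 1 * dM
    · linear_combination M 1 0 * mx - N 1 0 * dM
    · linear_combination M 1 1 * mx - N 1 1 * dM
  have hrs : ∀ i j, (N 1 j0 * M 0 j + -N 0 j0 * M 1 j) * (N i0 1 * M i 0 + -N i0 0 * M i 1) = 0 :=
    fun i j => by
      linear_combination N i0 j0 * hE i j + M 0 j * M i 0 * huv 1 1 - M 0 j * M i 1 * huv 1 0 -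
        M 1 j * M i 0 * huv 0 1 + M 1 j * M i 1 * huv 0 0
  by_cases hr : ∀ j, N 1 j0 * M 0 j + -N 0 j0 * M 1 j = 0
  · refine Or.inl ⟨_, _, hN 1 j0, (hN 0 j0).neg, hr, fun k => h0 ?_⟩
    fin_cases i0
    exacts [neg_eq_zero.1 k.2, k.1]
  · obtain ⟨j, hj⟩ := not_forall.1 hr
    refine Or.inr ⟨_, _, hN i0 1, (hN i0 0).neg, fun i => (mul_eq_zero.1 (hrs i j)).resolve_left hj,
      fun k => h0 ?_⟩
    fin_cases j0
    exacts [neg_eq_zero.1 k.2, k.1]

theorem dep_or_zero {F O : Type} [Field F] [CharZero F] [Fintype O] (A : Fin 2 → Fin 2 → F)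
    (B : Fin 2 → Fin 2 → O → F) (hB : ∀ i j l, IsAlgebraic ℚ (B i j l))
    (h : ∀ x : O → F, (A 0 0 + ∑ l, B 0 0 l * x l) * (A 1 1 + ∑ l, B 1 1 l * x l) =
      (A 0 1 + ∑ l, B 0 1 l * x l) * (A 1 0 + ∑ l, B 1 0 l * x l)) (w : O → F) :
    Dep (fun i j => A i j + ∑ l, B i j l * w l) ∨ ∀ i j l, B i j l = 0 := by
  classical
  by_cases hz : ∀ i j l, B i j l = 0
  · exact Or.inr hz
  simp only [not_forall] at hz
  obtain ⟨i0, j0, l0, h0⟩ := hz
  have e : ∀ (t : F) i j, ∑ l, B i j l * (w + Pi.single l0 t : O → F) l =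
      ∑ l, B i j l * w l + B i j l0 * t := fun t i j => by
    simp only [Pi.add_apply, mul_add, Finset.sum_add_distrib, Pi.single_apply, mul_ite, mul_zero,
      Finset.sum_ite_eq', Finset.mem_univ, if_true]
  have h1 := h (w + Pi.single l0 1)
  have h2 := h (w + Pi.single l0 (-1))
  have h3 := h w
  simp only [e] at h1 h2
  refine Or.inl (Mat_dep _ (fun i j => B i j l0) (fun i j => hB i j l0) h3 ?_ ?_ h0)
  · linear_combination (1 / 2 : F) * h1 + (1 / 2 : F) * h2 - h3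
  · linear_combination (1 / 2 : F) * h1 - (1 / 2 : F) * h2

end Pool.Agent.Work.MP_dd0d16_nt.T
end
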