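import Pool.Agent.Work.MP_dd0d16_nt.T.Mat
import Pool.Agent.Work.MP_dd0d16_nt.PAdic
import Mathlib

-- merged part: Pool.Agent.Work.MP_dd0d16_nt.G.Alg1
section
-- merged part: Pool.Agent.Work.MP_dd0d16_nt.T.Grad
section
/-!
Calculus of gradients.

PLAN. `add`, `neg`, `mul`, `const`: take the sum, product of the witnesses (`TrivSqZeroExt.snd_mul`).
`unique`: the witness has `fst = 0`, so `Ψ x = 0` by `Test.ker`.
`Test.dlog`: `b ↦ (Ψ [b]).snd * (Ψ [b⁻¹]).fst` is a homomorphism from `Fˣ` to the additive group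
(`(Ψ [b]).fst * (Ψ [b⁻¹]).fst = 1`), it kills `κ η` (`WittVector.map_teichmuller`, `Test.const`) and
sends `a i` to `δ i`; use `map_prod`, `map_zpow`.
`Gd.log`: in a test of level `N` let `M = N + 1` and `Z : Polynomial ℤ` with
`(1 + p X) ^ p ^ M = 1 + p ^ M * Z` (`dvd_sub_pow_of_dvd_sub`); the derivative gives
`Z' = p * (1 + p X) ^ (p ^ M - 1)`. From `WLog` and cancellation in `WittVector p k`,
`p ^ M ∣ Z (map τ x) - l`, so `l0 = aeval x Z` has `(Ψ l0).fst = rho N l`. With `u = 1 + p x` and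
`μ = (Ψ l0).snd` (`Polynomial.aeval_add_of_sq_eq_zero`) we get `(Ψ u).fst * μ = (Ψ u).snd`, because
`(Ψ u).fst ^ p ^ M = 1` in `Q p k N`. The element `α0 = p ^ v * [b] * u` has the same `fst` as the
witness of `hG`, so the same image (`Test.ker`). The witness is `α0 * l0`.
`shift`: `map τ β` has vanishing coefficients below `v`, so `β = verschiebung^[v] (β.shift v)`
(`WittVector.eq_iterate_verschiebung`); `WittVector.frobenius_eq_map_frobenius`,
`iterate_verschiebung_iterate_frobenius` or `frobenius_verschiebung`, `verschiebung_frobenius_comm`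
give `map (iterateFrobenius (v + 1)) β = p ^ v * ([b0 ^ p] + p * y)` where
`β.shift v = [b0] + verschiebung y`; cancel `p ^ v` in `WittVector p k` and compare modulo `p`.
-/

set_option autoImplicit false

namespace Pool.Agent.Work.MP_dd0d16_nt.T

open WittVector

theorem Grad_hom {R S : Type} [CommRing R] [CommRing S] (f : R →+* S) (Z : Polynomial ℤ) (x : R) :
    f (Z.eval₂ (Int.castRingHom R) x) = Z.eval₂ (Int.castRingHom S) (f x) := by
  rw [Polynomial.hom_eval₂, RingHom.ext_int (f.comp _) (Int.castRingHom S)]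

theorem Grad_snd {R : Type} [CommRing R] (Z : Polynomial ℤ) (z : DualNumber R) :
    (Z.eval₂ (Int.castRingHom _) z).snd =
      Z.derivative.eval₂ (Int.castRingHom R) z.fst * z.snd := by
  induction Z using Polynomial.induction_on' with
  | add P P' h h' =>
    rw [Polynomial.eval₂_add, TrivSqZeroExt.snd_add, h, h', map_add, Polynomial.eval₂_add, add_mul]
  | monomial n c =>
    rw [Polynomial.eval₂_monomial, Polynomial.derivative_monomial, Polynomial.eval₂_monomial,
      DualNumber.snd_mul, TrivSqZeroExt.snd_pow]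
    simp only [eq_intCast, TrivSqZeroExt.fst_intCast, TrivSqZeroExt.snd_intCast, zero_mul, add_zero,
      smul_eq_mul, nsmul_eq_mul, Int.cast_mul, Int.cast_natCast, Nat.pred_eq_sub_one]
    ring

theorem Grad_Z {q : ℕ} (hq : q ≠ 0) (M : ℕ) : ∃ Z : Polynomial ℤ, ∀ (R : Type) [CommRing R] (x : R),
    (1 + q * x) ^ q ^ M = 1 + q ^ M * Z.eval₂ (Int.castRingHom R) x ∧
      Z.derivative.eval₂ (Int.castRingHom R) x = q * (1 + q * x) ^ (q ^ M - 1) := by
  have h1 : ((q : Polynomial ℤ)) ∣ (1 + (q : Polynomial ℤ) * Polynomial.X) - 1 :=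
    ⟨Polynomial.X, by ring⟩
  obtain ⟨Z, hZ⟩ := (pow_dvd_pow _ (Nat.le_succ M)).trans (dvd_sub_pow_of_dvd_sub h1 M)
  rw [one_pow, sub_eq_iff_eq_add'] at hZ
  have h2 : Z.derivative =
      (q : Polynomial ℤ) * (1 + (q : Polynomial ℤ) * Polynomial.X) ^ (q ^ M - 1) := by
    have h3 := congrArg Polynomial.derivative hZ
    rw [← Nat.cast_pow, Polynomial.derivative_pow] at h3
    simp only [map_add, Polynomial.derivative_one, Polynomial.derivative_natCast_mul,
      Polynomial.derivative_X, zero_add, mul_one, map_natCast] at h3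
    refine mul_left_cancel₀ (a := ((q ^ M : ℕ) : Polynomial ℤ))
      (Nat.cast_ne_zero.2 (pow_ne_zero M hq)) ?_
    rw [← h3]
    ring
  refine ⟨Z, fun R _ x => ⟨?_, ?_⟩⟩
  · have h3 := congrArg (Polynomial.eval₂RingHom (Int.castRingHom R) x) hZ
    simpa only [map_pow, map_add, map_one, map_mul, map_natCast, Polynomial.coe_eval₂RingHom,
      Polynomial.eval₂_X] using h3
  · have h3 := congrArg (Polynomial.eval₂RingHom (Int.castRingHom R) x) h2
    simpa only [map_pow, map_add, map_one, map_mul, map_natCast, Polynomial.coe_eval₂RingHom,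
      Polynomial.eval₂_X] using h3

theorem Grad_dl {G R : Type} [CommGroupWithZero G] [CommRing R] (f : G →* DualNumber R) {b : G}
    (hb : b ≠ 0) {s : R} (h : (f b).snd = (f b).fst * s) (n : ℤ) :
    (f (b ^ n)).snd = (f (b ^ n)).fst * (n * s) := by
  have h1 : f b⁻¹ * f b = 1 := by rw [← map_mul, inv_mul_cancel₀ hb, map_one]
  have h2 : (f b⁻¹).fst * (f b).fst = 1 := congrArg TrivSqZeroExt.fst h1
  have h3 : (f b⁻¹).fst * (f b).snd + (f b⁻¹).snd * (f b).fst = 0 := congrArg TrivSqZeroExt.snd h1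
  have h4 : (f b⁻¹).snd = -((f b⁻¹).fst * s) := by
    rw [h] at h3
    linear_combination (f b⁻¹).fst * h3 - ((f b⁻¹).snd + (f b⁻¹).fst * s) * h2
  induction n using Int.induction_on with
  | zero => simp
  | succ n ih =>
    rw [zpow_add_one₀ hb, map_mul, DualNumber.snd_mul, TrivSqZeroExt.fst_mul, ih, h]
    push_cast
    ring
  | pred n ih =>
    rw [zpow_sub_one₀ hb, map_mul, DualNumber.snd_mul, TrivSqZeroExt.fst_mul, ih, h4]
    push_cast
    ring

variable {p : ℕ} [Fact p.Prime] {k0 F k : Type} [Field k0] [Field F] [Field k] [CharP k p] {m : ℕ}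
  {τ : F →+* k} {κ : k0 →+* F} {a : Fin m → F}

theorem Gd.add {y y' : WittVector p k} {g g' : Fin m → WittVector p k} (h : Gd τ κ a y g)
    (h' : Gd τ κ a y' g') : Gd τ κ a (y + y') (g + g') := by
  intro N Ψ δ hT
  obtain ⟨x, h1, h2⟩ := h N Ψ δ hT
  obtain ⟨x', h1', h2'⟩ := h' N Ψ δ hT
  refine ⟨x + x', ?_, ?_⟩
  · rw [map_add, TrivSqZeroExt.fst_add, h1, h1', map_add]
  · rw [map_add, TrivSqZeroExt.snd_add, h2, h2', ← Finset.sum_add_distrib]
    exact Finset.sum_congr rfl fun i _ => by rw [Pi.add_apply, map_add, add_mul]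

theorem Gd.neg {y : WittVector p k} {g : Fin m → WittVector p k} (h : Gd τ κ a y g) :
    Gd τ κ a (-y) (-g) := by
  intro N Ψ δ hT
  obtain ⟨x, h1, h2⟩ := h N Ψ δ hT
  refine ⟨-x, ?_, ?_⟩
  · rw [map_neg, TrivSqZeroExt.fst_neg, h1, map_neg]
  · rw [map_neg, TrivSqZeroExt.snd_neg, h2, ← Finset.sum_neg_distrib]
    exact Finset.sum_congr rfl fun i _ => by rw [Pi.neg_apply, map_neg, neg_mul]

theorem Gd.mul {y y' : WittVector p k} {g g' : Fin m → WittVector p k} (h : Gd τ κ a y g)
    (h' : Gd τ κ a y' g') : Gd τ κ a (y * y') (fun i => y * g' i + y' * g i) := by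
  intro N Ψ δ hT
  obtain ⟨x, h1, h2⟩ := h N Ψ δ hT
  obtain ⟨x', h1', h2'⟩ := h' N Ψ δ hT
  refine ⟨x * x', ?_, ?_⟩
  · rw [map_mul, TrivSqZeroExt.fst_mul, h1, h1', map_mul]
  · rw [map_mul, DualNumber.snd_mul, h1, h1', h2, h2', Finset.mul_sum, Finset.sum_mul,
      ← Finset.sum_add_distrib]
    refine Finset.sum_congr rfl fun i _ => ?_
    rw [map_add, map_mul, map_mul]
    ring

theorem Gd.const (c : WittVector p k0) : Gd τ κ a (map τ (map κ c)) 0 := by
  intro N Ψ δ hT
  refine ⟨map κ c, hT.fst _, ?_⟩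
  rw [hT.const]
  exact (Finset.sum_eq_zero fun i _ => by rw [Pi.zero_apply, map_zero, zero_mul]).symm

theorem Gd.unique (hs : Sep p τ κ a) {g : Fin m → WittVector p k} (h : Gd τ κ a 0 g) : g = 0 := by
  refine hs g fun N Ψ δ hT => ?_
  obtain ⟨x, h1, h2⟩ := h N Ψ δ hT
  rw [map_zero] at h1
  rw [← h2, hT.ker x h1, TrivSqZeroExt.snd_zero]

theorem Test.dlog {N : ℕ} {Ψ : WittVector p F →+* DualNumber (Q p k N)} {δ : Fin m → Q p k N}
    (h : Test τ κ a N Ψ δ) (ha : ∀ i, a i ≠ 0) {b : F} {η : k0} {e : Fin m → ℤ} (hb : b ≠ 0)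
    (he : b = κ η * ∏ i, a i ^ e i) :
    (Ψ (teichmuller p b)).snd = (Ψ (teichmuller p b)).fst * ∑ i, (e i : Q p k N) * δ i := by
  have key : ∀ S : Finset (Fin m), (Ψ (teichmuller p (κ η * ∏ i ∈ S, a i ^ e i))).snd =
      (Ψ (teichmuller p (κ η * ∏ i ∈ S, a i ^ e i))).fst * ∑ i ∈ S, (e i : Q p k N) * δ i := by
    intro S
    induction S using Finset.induction_on with
    | empty =>
      rw [Finset.prod_empty, Finset.sum_empty, mul_one, mul_zero, ← map_teichmuller, h.const]
    | insert j S hj ih =>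
      have h1 : (Ψ (teichmuller p (a j ^ e j))).snd =
          (Ψ (teichmuller p (a j ^ e j))).fst * (e j * δ j) :=
        Grad_dl (Ψ.toMonoidHom.comp (teichmuller p)) (ha j) (h.teich j) (e j)
      rw [Finset.prod_insert hj, Finset.sum_insert hj, mul_left_comm, map_mul, map_mul,
        DualNumber.snd_mul, TrivSqZeroExt.fst_mul, ih, h1]
      ring
  rw [he]
  exact key _

theorem Gd.teich (ha : ∀ i, a i ≠ 0) {b : F} {η : k0} {e : Fin m → ℤ} (hb : b ≠ 0)
    (he : b = κ η * ∏ i, a i ^ e i) :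
    Gd τ κ a (teichmuller p (τ b)) (fun i => e i * teichmuller p (τ b)) := by
  intro N Ψ δ hT
  have h1 : (Ψ (teichmuller p b)).fst = rho N (teichmuller p (τ b)) := by
    rw [hT.fst, map_teichmuller]
  refine ⟨teichmuller p b, h1, ?_⟩
  rw [hT.dlog ha hb he, h1, Finset.mul_sum]
  refine Finset.sum_congr rfl fun i _ => ?_
  rw [map_mul, map_intCast]
  ring

theorem Gd.log [PerfectRing k p] (ha : ∀ i, a i ≠ 0) {b : F} {η : k0} {e : Fin m → ℤ} (hb : b ≠ 0)
    (he : b = κ η * ∏ i, a i ^ e i) {v : ℕ} {x : WittVector p F} {α l : WittVector p k}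
    {γ : Fin m → WittVector p k} (hα : α = p ^ v * teichmuller p (τ b) * (1 + p * map τ x))
    (hl : WLog p (map τ x) l) (hG : Gd τ κ a α γ) :
    Gd τ κ a (α * l) (fun i => γ i - e i * α + l * γ i) := by
  intro N Ψ δ hT
  have hp : p ≠ 0 := (Fact.out : p.Prime).ne_zero
  have hq : (p : Q p k N) ^ (N + 1) = 0 := by
    rw [← map_natCast (Ideal.Quotient.mk _), ← map_pow, Ideal.Quotient.eq_zero_iff_mem]
    exact Ideal.mem_span_singleton_self _
  obtain ⟨Z, hZ⟩ := Grad_Z hp (N + 1)
  obtain ⟨l0, hl0⟩ : ∃ l0, l0 = Z.eval₂ (Int.castRingHom _) x := ⟨_, rfl⟩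
  have h1 : (Ψ l0).fst = rho N l := by
    obtain ⟨w, hw⟩ := hl (N + 1)
    have h2 : Z.eval₂ (Int.castRingHom _) (map τ x) = l + p ^ (N + 1) * w := by
      refine mul_left_cancel₀ (pow_ne_zero (N + 1) (p_nonzero p k)) ?_
      rw [(hZ _ (map τ x)).1] at hw
      linear_combination hw
    rw [hT.fst, hl0, Grad_hom, h2, map_add, map_mul, map_pow, map_natCast, hq, zero_mul, add_zero]
  have h2 : (1 + p * (Ψ x).fst) * (Ψ l0).snd = p * (Ψ x).snd := by
    have h3 := (hZ _ (Ψ x).fst).1
    rw [hq, zero_mul, add_zero, ← Nat.sub_add_cancel (Nat.one_le_iff_ne_zero.2 (pow_ne_zero (N + 1) hp)),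
      pow_succ] at h3
    rw [hl0, Grad_hom, Grad_snd, (hZ _ _).2]
    linear_combination (p * (Ψ x).snd) * h3
  obtain ⟨y, h3, h4⟩ := hG N Ψ δ hT
  have h5 : (Ψ (p ^ v * teichmuller p b * (1 + p * x))).fst = rho N α := by
    rw [hT.fst, hα]
    simp only [map_mul, map_pow, map_natCast, map_add, map_one, map_teichmuller]
  have h6 : Ψ y = Ψ (p ^ v * teichmuller p b * (1 + p * x)) := by
    rw [← sub_eq_zero, ← map_sub]
    refine hT.ker _ ?_
    rw [map_sub, TrivSqZeroExt.fst_sub, h3, h5, sub_self]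
  refine ⟨y * l0, by rw [map_mul, TrivSqZeroExt.fst_mul, h3, h1, map_mul], ?_⟩
  have h7 := hT.dlog ha hb he
  have h8 : ∑ i, rho N (γ i - (e i : WittVector p k) * α + l * γ i) * δ i =
      (Ψ y).snd - rho N α * ∑ i, (e i : Q p k N) * δ i + (Ψ y).snd * rho N l := by
    rw [h4, Finset.mul_sum, Finset.sum_mul, ← Finset.sum_sub_distrib, ← Finset.sum_add_distrib]
    refine Finset.sum_congr rfl fun i _ => ?_
    rw [map_add, map_sub, map_mul, map_mul, map_intCast]
    ring
  rw [h8, map_mul, DualNumber.snd_mul, h1, ← h3, add_left_inj, h6, ← Nat.cast_pow (α := WittVector p F) p v]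
  simp only [map_mul, map_natCast, map_add, map_one, DualNumber.snd_mul, TrivSqZeroExt.fst_mul,
    TrivSqZeroExt.fst_add, TrivSqZeroExt.snd_add, TrivSqZeroExt.fst_natCast,
    TrivSqZeroExt.snd_natCast, TrivSqZeroExt.fst_one, TrivSqZeroExt.snd_one, h7]
  linear_combination ((p ^ v : ℕ) : Q p k N) * (Ψ (teichmuller p b)).fst * h2

theorem shift [CharP F p] [PerfectRing k p] (β : WittVector p F) {v : ℕ} {g : k}
    {x : WittVector p k} (hg : g ≠ 0)
    (h : map (iterateFrobenius k p (v + 1)) (map τ β) = p ^ v * teichmuller p g * (1 + p * x)) :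
    ∃ (b : F) (x0 : WittVector p F), g = τ b ∧ x = map τ x0 := by
  have h1 : teichmuller p g * (1 + p * x) = frobenius (map τ (β.shift v)) := by
    ext i
    have h2 := congrArg (fun w : WittVector p k => w.coeff (i + v)) h
    simp only [mul_assoc] at h2
    rw [mul_comm, mul_pow_charP_coeff_succ, map_coeff, map_coeff, iterateFrobenius_def, pow_succ',
      pow_mul] at h2
    rw [coeff_frobenius_charP, map_coeff, shift_coeff, add_comm v i]
    exact (iterateFrobenius_inj k p v h2).symm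
  generalize β.shift v = w at h1
  have h2 : w - teichmuller p (w.coeff 0) = verschiebung ((w - teichmuller p (w.coeff 0)).shift 1) := by
    refine eq_iterate_verschiebung (n := 1) fun i hi => ?_
    rw [Nat.lt_one_iff.1 hi]
    change constantCoeff (w - teichmuller p (w.coeff 0)) = 0
    rw [map_sub]
    exact sub_self (w.coeff 0)
  generalize (w - teichmuller p (w.coeff 0)).shift 1 = y at h2
  generalize w.coeff 0 = c at h2
  rw [sub_eq_iff_eq_add'.1 h2, map_add, map_add, map_verschiebung, frobenius_verschiebung,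
    map_teichmuller, frobenius_eq_map_frobenius, map_teichmuller, frobenius_def, ← map_pow τ] at h1
  have h3 : g = τ (c ^ p) := by
    have h4 := congrArg constantCoeff h1
    simp only [map_mul, map_add, map_one, map_natCast, CharP.cast_eq_zero, zero_mul, mul_zero,
      add_zero, mul_one] at h4
    exact h4
  refine ⟨c ^ p, teichmuller p (c ^ p)⁻¹ * y, h3, ?_⟩
  rw [← h3] at h1
  have h4 : teichmuller p g * x = map τ y :=
    mul_left_cancel₀ (p_nonzero p k) (by linear_combination h1)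
  rw [map_mul, map_teichmuller, map_inv₀, ← h3, ← h4, ← mul_assoc, ← map_mul, inv_mul_cancel₀ hg,
    map_one, one_mul]

end Pool.Agent.Work.MP_dd0d16_nt.T
end

-- merged part: Pool.Agent.Work.MP_dd0d16_nt.T.Ext
section
/-!
From gradients to derivations of a subfield.

PLAN. First `Gf.add`, `Gf.neg`, `Gf.mul`, `Gf.inv` (witnesses `y y2' + y2 y'` over `y' y2'`, and so
on; `linear_combination`), `Gf G 1 0`, `Gf G 0 0`, and uniqueness (`Gf G 0 h → h = 0`, the map
`algebraMap R Ω` is injective). By `Subfield.closure_induction` every `z` of the closure has a gradient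
with entries in the closure; choose it; additivity and the product rule follow from uniqueness; use
`AddMonoidHom.toRatLinearMap` and `Derivation.mk'`.
-/

set_option autoImplicit false

namespace Pool.Agent.Work.MP_dd0d16_nt.T

variable {R Ω : Type} [CommRing R] [Field Ω] [Algebra R Ω] {m : ℕ}

theorem Gf.of {G : R → (Fin m → R) → Prop} (h1 : G 1 0) {y : R} {g : Fin m → R} (h : G y g) :
    Gf G (algebraMap R Ω y) (fun i => algebraMap R Ω (g i)) :=
  ⟨y, g, 1, 0, h, h1, by simp, by simp, by simp⟩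

theorem Ext_add {G : R → (Fin m → R) → Prop}
    (hadd : ∀ y g y' g', G y g → G y' g' → G (y + y') (g + g'))
    (hmul : ∀ y g y' g', G y g → G y' g' → G (y * y') (fun i => y * g' i + y' * g i))
    {z w : Ω} {h k : Fin m → Ω} (hz : Gf G z h) (hw : Gf G w k) :
    Gf G (z + w) (fun i => h i + k i) := by
  obtain ⟨y1, g1, u1, f1, a1, b1, c1, d1, e1⟩ := hz
  obtain ⟨y2, g2, u2, f2, a2, b2, c2, d2, e2⟩ := hw
  refine ⟨_, _, _, _, hadd _ _ _ _ (hmul _ _ _ _ a1 b2) (hmul _ _ _ _ a2 b1), hmul _ _ _ _ b1 b2,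
    by rw [map_mul]; exact mul_ne_zero c1 c2, ?_, fun i => ?_⟩
  · simp only [map_add, map_mul, ← d1, ← d2]
    ring
  · simp only [Pi.add_apply, map_add, map_mul, ← d1, ← d2, ← e1 i, ← e2 i]
    ring

theorem Ext_mul {G : R → (Fin m → R) → Prop}
    (hmul : ∀ y g y' g', G y g → G y' g' → G (y * y') (fun i => y * g' i + y' * g i))
    {z w : Ω} {h k : Fin m → Ω} (hz : Gf G z h) (hw : Gf G w k) :
    Gf G (z * w) (fun i => z * k i + w * h i) := by
  obtain ⟨y1, g1, u1, f1, a1, b1, c1, d1, e1⟩ := hz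
  obtain ⟨y2, g2, u2, f2, a2, b2, c2, d2, e2⟩ := hw
  refine ⟨_, _, _, _, hmul _ _ _ _ a1 a2, hmul _ _ _ _ b1 b2,
    by rw [map_mul]; exact mul_ne_zero c1 c2, ?_, fun i => ?_⟩
  · simp only [map_mul, ← d1, ← d2]
    ring
  · simp only [map_add, map_mul, ← d1, ← d2, ← e1 i, ← e2 i]
    ring

theorem Ext_neg {G : R → (Fin m → R) → Prop} (hneg : ∀ y g, G y g → G (-y) (-g))
    {z : Ω} {h : Fin m → Ω} (hz : Gf G z h) : Gf G (-z) (fun i => -h i) := by
  obtain ⟨y1, g1, u1, f1, a1, b1, c1, d1, e1⟩ := hz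
  refine ⟨_, _, _, _, hneg _ _ a1, b1, c1, ?_, fun i => ?_⟩
  · simp only [map_neg, ← d1]
    ring
  · simp only [Pi.neg_apply, map_neg, ← e1 i]
    ring

theorem Ext_inv {G : R → (Fin m → R) → Prop} {z : Ω} {h : Fin m → Ω} (hz : Gf G z h)
    (h0 : z ≠ 0) : Gf G z⁻¹ (fun i => -(h i * (z⁻¹ * z⁻¹))) := by
  obtain ⟨y1, g1, u1, f1, a1, b1, c1, d1, e1⟩ := hz
  refine ⟨_, _, _, _, b1, a1, by rw [← d1]; exact mul_ne_zero h0 c1, ?_, fun i => ?_⟩
  · rw [← d1, inv_mul_cancel_left₀ h0]
  · rw [← d1, ← e1 i]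
    field_simp
    ring

theorem Ext_zero (hinj : Function.Injective (algebraMap R Ω)) {G : R → (Fin m → R) → Prop}
    (huniq : ∀ g, G 0 g → g = 0) {h : Fin m → Ω} (hz : Gf G 0 h) (i : Fin m) : h i = 0 := by
  obtain ⟨y1, g1, u1, f1, a1, -, c1, d1, e1⟩ := hz
  obtain rfl : y1 = 0 := hinj (by rw [← d1, zero_mul, map_zero])
  obtain rfl := huniq _ a1
  have := e1 i
  rw [zero_mul, add_zero, Pi.zero_apply, map_zero] at this
  exact (mul_eq_zero.1 this).resolve_right c1

theorem exists_theta [CharZero Ω] (hinj : Function.Injective (algebraMap R Ω))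
    (G : R → (Fin m → R) → Prop)
    (hadd : ∀ y g y' g', G y g → G y' g' → G (y + y') (g + g'))
    (hneg : ∀ y g, G y g → G (-y) (-g))
    (hmul : ∀ y g y' g', G y g → G y' g' → G (y * y') (fun i => y * g' i + y' * g i))
    (hone : G 1 0) (huniq : ∀ g, G 0 g → g = 0) (S : Set Ω)
    (hS : ∀ s ∈ S, ∃ h, Gf G s h ∧ ∀ i, h i ∈ Subfield.closure S) :
    ∃ θ : Fin m → Derivation ℚ (Subfield.closure S) (Subfield.closure S),
      ∀ (z : Subfield.closure S) (h : Fin m → Ω), Gf G (z : Ω) h → ∀ i, (θ i z : Ω) = h i := by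
  have uq : ∀ (z : Ω) (h k : Fin m → Ω), Gf G z h → Gf G z k → ∀ i, h i = k i := by
    intro z h k hz hw i
    have := Ext_add hadd hmul hz (Ext_neg hneg hw)
    rw [add_neg_cancel] at this
    exact add_neg_eq_zero.1 (Ext_zero hinj huniq this i)
  have g1 : Gf G (1 : Ω) fun _ => 0 := by simpa using Gf.of (Ω := Ω) hone hone
  have g0 : Gf G (0 : Ω) fun _ => 0 := by simpa using Ext_add hadd hmul g1 (Ext_neg hneg g1)
  have ex : ∀ z ∈ Subfield.closure S, ∃ h, Gf G z h ∧ ∀ i, h i ∈ Subfield.closure S := by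
    intro z hz
    induction hz using Subfield.closure_induction with
    | mem x hx => exact hS x hx
    | one => exact ⟨_, g1, fun _ => zero_mem _⟩
    | add x y _ _ hx hy =>
      obtain ⟨h, h1, h2⟩ := hx
      obtain ⟨k, k1, k2⟩ := hy
      exact ⟨_, Ext_add hadd hmul h1 k1, fun i => add_mem (h2 i) (k2 i)⟩
    | neg x _ hx =>
      obtain ⟨h, h1, h2⟩ := hx
      exact ⟨_, Ext_neg hneg h1, fun i => neg_mem (h2 i)⟩
    | inv x m1 hx =>
      obtain ⟨h, h1, h2⟩ := hx
      by_cases h0 : x = 0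
      · rw [h0, inv_zero]
        exact ⟨_, g0, fun _ => zero_mem _⟩
      · exact ⟨_, Ext_inv h1 h0, fun i =>
          neg_mem (mul_mem (h2 i) (mul_mem (inv_mem m1) (inv_mem m1)))⟩
    | mul x y m1 m2 hx hy =>
      obtain ⟨h, h1, h2⟩ := hx
      obtain ⟨k, k1, k2⟩ := hy
      exact ⟨_, Ext_mul hmul h1 k1, fun i => add_mem (mul_mem m1 (k2 i)) (mul_mem m2 (h2 i))⟩
  choose H H1 H2 using fun z : Subfield.closure S => ex z z.2
  let A : Fin m → Subfield.closure S →+ Subfield.closure S := fun i =>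
    AddMonoidHom.mk' (fun z => ⟨H z i, H2 z i⟩) fun z w =>
      Subtype.ext (uq _ _ _ (H1 (z + w)) (Ext_add hadd hmul (H1 z) (H1 w)) i)
  exact ⟨fun i => Derivation.mk' (A i).toRatLinearMap fun z w =>
    Subtype.ext (uq _ _ _ (H1 (z * w)) (Ext_mul hmul (H1 z) (H1 w)) i),
    fun z h hz i => uq _ _ _ (H1 z) hz i⟩

end Pool.Agent.Work.MP_dd0d16_nt.T
end

-- merged part: Pool.Agent.Work.MP_dd0d16_nt.T.Ostr
section
/-!
The Kolchin-Ostrowski argument over a field of constants `M`.

PLAN. Copy the proofs of `res` (Fields), `ostrowski` and `exists_alg_monomial` (Ostrowski) and carry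
along the condition that the derivations kill `M`. In `res'` use `exists_mid (M := M)`; the derivation
of `exists_der` kills the intermediate field, which contains `M`
(`IsScalarTower.algebraMap_apply`); replace `algebraicClosure ℚ Ω` by `algebraicClosure M Ω`.
-/

set_option autoImplicit false

namespace Pool.Agent.Work.MP_dd0d16_nt.T

open MvPolynomial

open IntermediateField in
theorem res' {M Ω : Type} [Field M] [CharZero M] [Field Ω] [CharZero Ω] [IsAlgClosed Ω]
    [Algebra M Ω] {ι : Type} [Fintype ι] (c y : ι → Ω) (r : Ω) (hy : ∀ i, y i ≠ 0) (hc : c ≠ 0)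
    (h : ∀ D : Derivation ℚ Ω Ω, (∀ x : M, D (algebraMap M Ω x) = 0) →
      (∀ i, D (c i) = 0) ∧ ∑ i, c i * (D (y i) / y i) = D r) :
    ∃ a : ι → ℤ, a ≠ 0 ∧ IsAlgebraic M (∏ i, y i ^ a i) := by
  have hca : ∀ i, IsAlgebraic M (c i) := by
    intro i
    by_contra hi
    obtain ⟨k, hk, hk'⟩ := exists_mid (M := M) hi
    obtain ⟨D, hD0, hD⟩ := exists_der hk hk'
    rw [(h D fun x => hD0 (algebraMap M k x)).1 i] at hD
    exact zero_ne_one hD
  obtain ⟨a, ha, hab⟩ := exists_int_orth hc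
  refine ⟨a, ha, ?_⟩
  by_contra ht0
  set t := ∏ i, y i ^ a i with htdef
  obtain ⟨k, ht, halg⟩ := exists_mid (Transcendental.algebraicClosure ht0)
  obtain ⟨D, hD, hDt⟩ := exists_der ht halg
  have hDM := h D fun x =>
    hD (algebraMap (algebraicClosure M Ω) k (algebraMap M (algebraicClosure M Ω) x))
  have hck : ∀ i, ∃ c' : k, algebraMap k Ω c' = c i := fun i =>
    ⟨algebraMap (algebraicClosure M Ω) k ⟨c i, mem_algebraicClosure_iff.2 (hca i)⟩, rfl⟩
  choose c' hc' using hck
  obtain ⟨G, _, _, σ, hσ⟩ := galois_sum (M := k⟮t⟯) (Set.range y ∪ {r})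
    ((Set.finite_range y).union (Set.finite_singleton r))
  have hfix : ∀ g, ∀ x ∈ k⟮t⟯, σ g x = x := fun g x hx => (σ g).commutes ⟨x, hx⟩
  have hcomm : ∀ g x, D (σ g x) = σ g (D x) := by
    intro g x
    have := der_eq_zero (M := k⟮t⟯) (fun x => (σ g).symm (D (σ g x)) - D x)
      (fun a b => by simp only [map_add]; ring)
      (fun a b => by
        simp only [map_mul, Derivation.leibniz, smul_eq_mul, map_add, AlgEquiv.symm_apply_apply]
        ring)
      (fun m => by
        have h1 := der_mem_adjoin D hD hDt m.2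
        change (σ g).symm (D (σ g m)) - D m = 0
        rw [hfix g m m.2, sub_eq_zero, AlgEquiv.symm_apply_eq, hfix g _ h1])
      (Algebra.IsAlgebraic.isAlgebraic x)
    rw [sub_eq_zero, AlgEquiv.symm_apply_eq] at this
    exact this
  have hmem : ∀ x : Ω, x ∈ Set.range (algebraMap k⟮t⟯ Ω) → x ∈ k⟮t⟯ := by
    rintro _ ⟨m, rfl⟩; exact m.2
  let N : ι → Ω := fun i => ∏ g, σ g (y i)
  have hσy : ∀ g i, σ g (y i) ≠ 0 := fun g i => by simpa using hy i
  have hN0 : ∀ i, N i ≠ 0 := fun i => Finset.prod_ne_zero_iff.2 fun g _ => hσy g i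
  have hN : ∀ i, N i ∈ k⟮t⟯ := fun i => hmem _ (hσ _ (Or.inl ⟨i, rfl⟩)).2
  have hR : (∑ g, σ g r) ∈ k⟮t⟯ := hmem _ (hσ _ (Or.inr rfl)).1
  choose b u ω _ _ _ hω _ hb using fun i => split_mem ht D hD hDt (hN i) (hN0 i)
  have hlog : ∀ i, D (N i) / N i = ∑ g, σ g (D (y i) / y i) := by
    intro i
    rw [logd_prod D _ _ fun g => hσy g i]
    simp only [hcomm, map_div₀]
  have hcm : ∀ i, c i ∈ k⟮t⟯ := fun i => hc' i ▸ (k⟮t⟯).algebraMap_mem (c' i)
  have h1 : ∑ i, c i * (D (N i) / N i) = D (∑ g, σ g r) := by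
    simp only [hlog, map_sum, hcomm, ← hDM.2, Finset.mul_sum, map_mul]
    rw [Finset.sum_comm]
    exact Finset.sum_congr rfl fun g _ => Finset.sum_congr rfl fun i _ => by
      rw [hfix g _ (hcm i)]
  have h2 : ∑ i, c' i * b i = 0 := by
    refine residue_zero ht D hD hDt hR (ω := ∑ i, c i * ω i)
      (Subalgebra.sum_mem _ fun i _ => mul_mem (hc' i ▸ Subalgebra.algebraMap_mem _ _) (hω i)) ?_
    rw [← h1, map_sum, Finset.mul_sum, Finset.mul_sum, ← Finset.sum_add_distrib]
    refine Finset.sum_congr rfl fun i _ => ?_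
    rw [map_mul, hc', map_intCast]
    linear_combination (-c i) * hb i
  have h3 : ∑ i, a i * b i = 0 := by
    refine hab b ?_
    have := congrArg (algebraMap k Ω) h2
    simpa only [map_sum, map_mul, hc', map_intCast, map_zero] using this
  have ht0' : t ≠ 0 := fun h => ht (h ▸ isAlgebraic_zero)
  have h4 : ∑ i, (a i : Ω) * (D (N i) / N i) = Fintype.card G * t⁻¹ := by
    have e : ∑ i, (a i : Ω) * (D (y i) / y i) = t⁻¹ := by
      have := logd_prod D Finset.univ (fun i => y i ^ a i) fun i => zpow_ne_zero _ (hy i)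
      simp only [logd_zpow D (hy _)] at this
      rw [← this, ← htdef, hDt, one_div]
    simp only [hlog, Finset.mul_sum]
    rw [Finset.sum_comm]
    have : ∀ g, ∑ i, (a i : Ω) * σ g (D (y i) / y i) = t⁻¹ := by
      intro g
      have := congrArg (σ g) e
      rw [hfix g _ (inv_mem (mem_adjoin_simple_self k t))] at this
      simpa using this
    simp only [this]
    simp
  have h5 : ((Fintype.card G : ℕ) : k) = 0 := by
    refine eq_zero_of_small ht (ω := ∑ i, (a i : Ω) * ω i)
      (Subalgebra.sum_mem _ fun i _ => mul_mem (intCast_mem _ _) (hω i)) ?_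
    have e1 : t * ∑ i, (a i : Ω) * (D (N i) / N i) = ∑ i, (a i : Ω) * (b i + t * ω i) := by
      rw [Finset.mul_sum]
      exact Finset.sum_congr rfl fun i _ => by rw [← hb i]; ring
    have e2 : ∑ i, (a i : Ω) * (b i : Ω) = 0 := by exact_mod_cast congrArg (Int.cast (R := Ω)) h3
    rw [h4] at e1
    simp only [mul_add, Finset.sum_add_distrib, e2, zero_add] at e1
    rw [map_natCast, Finset.mul_sum]
    have e3 : t * ((Fintype.card G : Ω) * t⁻¹) = Fintype.card G := by field_simp
    rw [← e3, e1]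
    exact Finset.sum_congr rfl fun i _ => by ring
  exact Fintype.card_ne_zero (Nat.cast_eq_zero.1 h5)

variable {M L B I : Type} [Field M] [CharZero M] [Field L] [CharZero L] [Algebra M L] [Field B]
  [Algebra L B] [Fintype I]

theorem Ostr_min (S : Derivation ℚ L L → Prop) (y : I → L) (w : I → B)
    (hext : ∀ δ : Derivation ℚ L L, S δ → ∃ d : B → B, (∀ a b, d (a + b) = d a + d b) ∧
      (∀ a b, d (a * b) = a * d b + b * d a) ∧
      (∀ x, d (algebraMap L B x) = algebraMap L B (δ x)) ∧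
      ∀ i, d (w i) = algebraMap L B (δ (y i) / y i))
    (F0 : MvPolynomial I L) (hF0 : F0 ≠ 0) (hw0 : aeval w F0 = 0) :
    ∃ (c : I → L) (r : L), c ≠ 0 ∧ ∀ δ : Derivation ℚ L L, S δ →
      (∀ i, δ (c i) = 0) ∧ ∑ i, c i * (δ (y i) / y i) = δ r := by
  classical
  have hex : ∃ n, ∃ F : MvPolynomial I L, F ≠ 0 ∧ aeval w F = 0 ∧ F.totalDegree = n :=
    ⟨_, F0, hF0, hw0, rfl⟩
  set n := Nat.find hex with hn
  have hmin : ∀ F : MvPolynomial I L, F ≠ 0 → aeval w F = 0 → n ≤ F.totalDegree :=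
    fun F h1 h2 => Nat.find_min' hex ⟨F, h1, h2, rfl⟩
  let top : MvPolynomial I L → Finset (I →₀ ℕ) := fun F => F.support.filter fun μ => μ.degree = n
  have hex2 : ∃ m, ∃ F : MvPolynomial I L, F ≠ 0 ∧ aeval w F = 0 ∧ F.totalDegree = n ∧
      (top F).card = m := by
    obtain ⟨F, h1, h2, h3⟩ := Nat.find_spec hex
    exact ⟨_, F, h1, h2, h3, rfl⟩
  obtain ⟨F1, hF1, hw1, hd1, hc1⟩ := Nat.find_spec hex2
  have hmin2 : ∀ F : MvPolynomial I L, F ≠ 0 → aeval w F = 0 → F.totalDegree = n →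
      (top F1).card ≤ (top F).card := fun F h1 h2 h3 =>
    hc1 ▸ Nat.find_min' hex2 ⟨F, h1, h2, h3, rfl⟩
  obtain ⟨μ0, hμ0, hμ0d⟩ : ∃ μ0 ∈ F1.support, μ0.degree = n := by
    obtain ⟨μ, hμ, e⟩ := Finset.exists_mem_eq_sup F1.support (support_nonempty.2 hF1)
      fun s => s.sum fun _ e => e
    exact ⟨μ, hμ, by rw [← hd1, totalDegree, e]; rfl⟩
  have ha : F1.coeff μ0 ≠ 0 := mem_support_iff.1 hμ0
  let F : MvPolynomial I L := C (F1.coeff μ0)⁻¹ * F1
  have hFc : ∀ μ, F.coeff μ = (F1.coeff μ0)⁻¹ * F1.coeff μ := fun μ => coeff_C_mul _ _ _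
  have hF1' : F.coeff μ0 = 1 := by rw [hFc, inv_mul_cancel₀ ha]
  have hwF : aeval w F = 0 := by simp [F, hw1]
  have hFhi : ∀ μ : I →₀ ℕ, n < μ.degree → F.coeff μ = 0 := by
    intro μ hμ
    rw [hFc, coeff_eq_zero_of_totalDegree_lt (d := μ) (by rw [hd1]; exact hμ), mul_zero]
  have hn0 : n ≠ 0 := by
    intro h0
    rw [h0] at hd1
    have e := totalDegree_eq_zero_iff_eq_C.1 hd1
    rw [e, aeval_C, map_eq_zero] at hw1
    exact hF1 (by rw [e, hw1, map_zero])
  have hG : ∀ δ : Derivation ℚ L L, S δ → ∀ μ : I →₀ ℕ,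
      δ (F.coeff μ) + ∑ i, δ (y i) / y i * (F.coeff (μ + Finsupp.single i 1) * (μ i + 1)) = 0 := by
    intro δ hδ
    obtain ⟨d, hadd, hmul, hL, hw⟩ := hext δ hδ
    have h := chain δ (fun i => δ (y i) / y i) w d hadd hmul hL hw F
    have h0 : d 0 = 0 := by simpa using hL 0
    rw [hwF, h0] at h
    set G := cder δ F + ∑ i, C (δ (y i) / y i) * pderiv i F with hGdef
    have hGc : ∀ μ, G.coeff μ = δ (F.coeff μ) +
        ∑ i, δ (y i) / y i * (F.coeff (μ + Finsupp.single i 1) * (μ i + 1)) := by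
      intro μ
      simp only [hGdef, coeff_add, coeff_cder, coeff_sum, coeff_C_mul, coeff_pderiv]
    have hGtop : ∀ μ : I →₀ ℕ, n ≤ μ.degree → G.coeff μ = δ (F.coeff μ) := by
      intro μ hμ
      rw [hGc, Finset.sum_eq_zero, add_zero]
      intro i _
      rw [hFhi _ (by simp; omega)]
      simp
    suffices G = 0 by
      intro μ
      rw [← hGc, this, coeff_zero]
    by_contra hG0
    have h1 := hmin G hG0 h.symm
    have h2 : G.totalDegree ≤ n := by
      rw [totalDegree, Finset.sup_le_iff]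
      intro μ hμ
      by_contra hlt
      have hlt' : n < μ.degree := not_le.1 hlt
      exact mem_support_iff.1 hμ (by rw [hGtop μ hlt'.le, hFhi μ hlt', map_zero])
    have h3 := hmin2 G hG0 h.symm (le_antisymm h2 h1)
    have h4 : top G ⊂ top F1 := by
      rw [Finset.ssubset_iff_of_subset]
      · refine ⟨μ0, Finset.mem_filter.2 ⟨hμ0, hμ0d⟩, fun hh => ?_⟩
        refine mem_support_iff.1 (Finset.mem_filter.1 hh).1 ?_
        rw [hGtop _ hμ0d.ge, hF1', Derivation.map_one_eq_zero]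
      · intro μ hμ
        obtain ⟨h5, h6⟩ := Finset.mem_filter.1 hμ
        refine Finset.mem_filter.2 ⟨mem_support_iff.2 fun h7 => mem_support_iff.1 h5 ?_, h6⟩
        rw [hGtop _ h6.ge, hFc, h7, mul_zero, map_zero]
    exact absurd (Finset.card_lt_card h4) (not_lt.2 h3)
  obtain ⟨i0, hi0⟩ : ∃ i, μ0 i ≠ 0 := by
    by_contra hh
    push Not at hh
    have : μ0 = 0 := Finsupp.ext hh
    rw [this] at hμ0d
    exact hn0 (by simpa using hμ0d.symm)
  let ν := μ0 - Finsupp.single i0 1
  have hν : ν + Finsupp.single i0 1 = μ0 :=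
    tsub_add_cancel_of_le (Finsupp.single_le_iff.2 (Nat.one_le_iff_ne_zero.2 hi0))
  have hνd : ν.degree + 1 = n := by
    rw [← hμ0d, ← hν]; simp
  refine ⟨fun i => F.coeff (ν + Finsupp.single i 1) * (ν i + 1), -F.coeff ν, fun h => ?_,
    fun δ hδ => ⟨fun i => ?_, ?_⟩⟩
  · have := congrFun h i0
    simp only [hν, hF1', one_mul, Pi.zero_apply] at this
    exact Nat.cast_add_one_ne_zero _ this
  · have h1 := hG δ hδ (ν + Finsupp.single i 1)
    rw [Finset.sum_eq_zero, add_zero] at h1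
    · have h2 : δ ((ν i : L) + 1) = 0 := by simp
      rw [Derivation.leibniz, h1, h2]
      simp
    · intro j _
      rw [hFhi _ (by simp; omega)]
      simp
  · have h1 := hG δ hδ ν
    rw [map_neg, eq_neg_iff_add_eq_zero, add_comm, ← h1]
    congr 1
    exact Finset.sum_congr rfl fun i _ => mul_comm _ _

theorem ostrowski' (y : I → L) (hy : ∀ i, y i ≠ 0) (w : I → B)
    (hext : ∀ δ : Derivation ℚ L L, (∀ x : M, δ (algebraMap M L x) = 0) →
      ∃ d : B → B, (∀ a b, d (a + b) = d a + d b) ∧ (∀ a b, d (a * b) = a * d b + b * d a) ∧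
      (∀ x, d (algebraMap L B x) = algebraMap L B (δ x)) ∧
      ∀ i, d (w i) = algebraMap L B (δ (y i) / y i))
    (F0 : MvPolynomial I L) (hF0 : F0 ≠ 0) (hw0 : aeval w F0 = 0) :
    ∃ a : I → ℤ, a ≠ 0 ∧ IsAlgebraic M (∏ i, y i ^ a i) := by
  obtain ⟨c, r, hc, h⟩ := Ostr_min _ y w hext F0 hF0 hw0
  let Ω := AlgebraicClosure L
  let j := algebraMap L Ω
  have hinj : Function.Injective j := j.injective
  obtain ⟨a, ha, hal⟩ := res' (M := M) (Ω := Ω) (fun i => j (c i)) (fun i => j (y i)) (j r)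
    (fun i => by simpa [j] using hy i)
    (fun h0 => hc (funext fun i => hinj (by simpa using congrFun h0 i))) (fun D hD => by
      have key : ∀ l : Module.Dual L Ω, ∃ δ : Derivation ℚ L L,
          (∀ x : M, δ (algebraMap M L x) = 0) ∧ ∀ x, δ x = l (D (j x)) :=
        fun l => ⟨LinearMap.compDer l (D.compAlgebraMap L),
          fun x => (congrArg l (hD x)).trans (map_zero l), fun x => rfl⟩
      constructor
      · intro i
        rw [← Module.forall_dual_apply_eq_zero_iff L]
        intro l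
        obtain ⟨δ, hδ0, hδ⟩ := key l
        rw [← hδ, (h δ hδ0).1 i]
      · rw [← sub_eq_zero, ← Module.forall_dual_apply_eq_zero_iff L]
        intro l
        obtain ⟨δ, hδ0, hδ⟩ := key l
        rw [map_sub, map_sum, ← hδ, ← (h δ hδ0).2, sub_eq_zero]
        refine Finset.sum_congr rfl fun i _ => ?_
        have e : j (c i) * (D (j (y i)) / j (y i)) = (c i / y i) • D (j (y i)) := by
          rw [Algebra.smul_def, map_div₀]; ring
        rw [e, map_smul, ← hδ, smul_eq_mul]; ring)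
  refine ⟨a, ha, ?_⟩
  rw [← isAlgebraic_algebraMap_iff (A := Ω) (R := M) hinj]
  simpa [j] using hal

end Pool.Agent.Work.MP_dd0d16_nt.T
end

-- merged part: Pool.Agent.Work.MP_dd0d16_nt.T.Abs
section
/-!
Independence of monomials and logarithms in a field with derivations.

PLAN. `mono_indep`: induction on the size of the support. For `μ0` in the support and each `a`, the
polynomial `∑ μ, monomial μ ((μ a - μ0 a) * coeff μ P)` has constant coefficients, smaller support and
value `θ a (eval A P) - μ0 a * eval A P = 0` (`θ a (∏ A i ^ μ i) = μ a * ∏ A i ^ μ i`), so it vanishes: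
the support is `{μ0}`, and a monomial has a nonzero value.
`prop_of_const`: apply `mono_indep` to `P - C t * P'`.
`log_indep`: let `M` be the subfield of constants, `L = IntermediateField.adjoin M (range A)`. View `P` as
`F0 : MvPolynomial I L` (for instance `F0 = ∑ ν in support, monomial (ν on I) (coeff ν * ∏ A ^ (ν on Fin m))`,
or `MvPolynomial.sumAlgEquiv` after lifting the coefficients to `M`); `F0 ≠ 0` by `mono_indep`. For a
derivation `δ` of `L` that kills `M` take `d = ∑ a, (δ (A a) / A a) • θ a`; it agrees with `δ` on `L`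
(`IntermediateField.adjoin_induction`). `ostrowski'` gives `r`, and `der_eq_zero` (Fields) shows that an
element algebraic over `M` is constant.
-/

set_option autoImplicit false

namespace Pool.Agent.Work.MP_dd0d16_nt.T

open MvPolynomial

variable {B : Type} [Field B] [CharZero B] {m : ℕ} (θ : Fin m → Derivation ℚ B B) (A : Fin m → B)
  (hA : ∀ i, A i ≠ 0) (hθ : ∀ a b, θ a (A b) = if a = b then A b else 0)

/-- The constants of a family of derivations. -/
def Abs_const : Subfield B where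
  carrier := {z | ∀ a, θ a z = 0}
  mul_mem' := fun {x y} hx hy a => by simp [Derivation.leibniz, hx a, hy a]
  one_mem' := fun a => by simp
  add_mem' := fun {x y} hx hy a => by simp [hx a, hy a]
  zero_mem' := fun a => by simp
  neg_mem' := fun {x} hx a => by simp [hx a]
  inv_mem' := fun x hx a => by simp [Derivation.leibniz_inv, hx a]

theorem Abs_lift {σ : Type} (P : MvPolynomial σ B) (hP : ∀ μ a, θ a (P.coeff μ) = 0) :
    ∃ P' : MvPolynomial σ (Abs_const θ), map (algebraMap (Abs_const θ) B) P' = P := by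
  classical
  refine ⟨∑ μ ∈ P.support, monomial μ ⟨P.coeff μ, hP μ⟩, ?_⟩
  rw [map_sum]
  conv_rhs => rw [P.as_sum]
  refine Finset.sum_congr rfl fun μ _ => ?_
  rw [map_monomial]
  rfl

omit [CharZero B] in
theorem Abs_eval {M L I : Type} [Field M] [Field L] [Algebra M L] [Algebra L B] [Algebra M B]
    [IsScalarTower M L B] (A' : Fin m → L) (l : I → B) (P' : MvPolynomial (Fin m ⊕ I) M) :
    aeval l (map (aeval A' : MvPolynomial (Fin m) M →ₐ[M] L).toRingHom
      (sumRingEquiv M I (Fin m) (rename Sum.swap P'))) =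
      eval (Sum.elim (fun a => algebraMap L B (A' a)) l) (map (algebraMap M B) P') := by
  induction P' using MvPolynomial.induction_on with
  | C c => simp [sumRingEquiv_C, ← IsScalarTower.algebraMap_apply]
  | add p q hp hq => simp only [map_add, hp, hq]
  | mul_X p i hp =>
    simp only [map_mul, hp]
    congr 1
    rcases i with i | i
    · simp [sumRingEquiv_X_inr]
    · simp [sumRingEquiv_X_inl]

include hA hθ

theorem Abs_mono (μ : Fin m →₀ ℕ) (a : Fin m) :
    θ a (∏ i, A i ^ μ i) = μ a * ∏ i, A i ^ μ i := by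
  have h0 : (∏ i, A i ^ μ i) ≠ 0 := Finset.prod_ne_zero_iff.2 fun i _ => pow_ne_zero _ (hA i)
  have h := logd_prod (θ a) Finset.univ (fun i => A i ^ μ i) fun i => pow_ne_zero _ (hA i)
  have h1 : ∀ i, θ a (A i ^ μ i) / A i ^ μ i = if a = i then (μ i : B) else 0 := fun i => by
    have h2 := logd_zpow (θ a) (hA i) (μ i : ℤ)
    rw [zpow_natCast] at h2
    rw [h2, hθ]
    split_ifs
    · simp [hA i]
    · simp
  simp only [h1, Finset.sum_ite_eq, Finset.mem_univ, if_true] at h
  rwa [div_eq_iff h0] at h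

theorem Abs_fin (s : Finset (Fin m →₀ ℕ)) : ∀ c : (Fin m →₀ ℕ) → B, (∀ μ a, θ a (c μ) = 0) →
    ∑ μ ∈ s, c μ * ∏ i, A i ^ μ i = 0 → ∀ μ ∈ s, c μ = 0 := by
  classical
  induction s using Finset.induction_on with
  | empty => simp
  | insert ν s hν ih =>
    intro c hc h
    have hs : ∀ μ ∈ s, c μ = 0 := fun μ hμ => by
      have hne : μ ≠ ν := fun e => hν (e ▸ hμ)
      obtain ⟨a, ha⟩ := Finsupp.ne_iff.1 hne
      have h1 := congrArg (θ a) h
      rw [map_sum, map_zero] at h1
      have h2 : ∑ μ ∈ insert ν s, c μ * ((μ a : B) - ν a) * ∏ i, A i ^ μ i = 0 := by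
        have : ∀ μ : Fin m →₀ ℕ, c μ * ((μ a : B) - ν a) * ∏ i, A i ^ μ i =
            θ a (c μ * ∏ i, A i ^ μ i) - ν a * (c μ * ∏ i, A i ^ μ i) := fun μ => by
          rw [Derivation.leibniz, Abs_mono θ A hA hθ, hc]
          simp only [smul_eq_mul]
          ring
        simp only [this]
        rw [Finset.sum_sub_distrib, h1, ← Finset.mul_sum, h]
        simp
      rw [Finset.sum_insert hν, sub_self, mul_zero, zero_mul, zero_add] at h2
      have h3 := ih (fun μ => c μ * ((μ a : B) - ν a)) (fun μ b => by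
        simp [Derivation.leibniz, hc]) h2 μ hμ
      refine (mul_eq_zero.1 h3).resolve_right (sub_ne_zero.2 ?_)
      exact_mod_cast ha
    intro μ hμ
    rcases Finset.mem_insert.1 hμ with rfl | hμ
    · rw [Finset.sum_insert hν, Finset.sum_eq_zero fun μ hμ => by rw [hs μ hμ, zero_mul],
        add_zero] at h
      exact (mul_eq_zero.1 h).resolve_right
        (Finset.prod_ne_zero_iff.2 fun i _ => pow_ne_zero _ (hA i))
    · exact hs μ hμ

theorem mono_indep (P : MvPolynomial (Fin m) B) (hP : ∀ μ a, θ a (P.coeff μ) = 0)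
    (h0 : eval A P = 0) : P = 0 := by
  rw [eval_eq'] at h0
  ext μ
  by_contra h
  exact h (Abs_fin θ A hA hθ _ _ hP h0 μ (mem_support_iff.2 h))

theorem prop_of_const (P P' : MvPolynomial (Fin m) B) (hP : ∀ μ a, θ a (P.coeff μ) = 0)
    (hP' : ∀ μ a, θ a (P'.coeff μ) = 0) {t : B} (ht : ∀ a, θ a t = 0)
    (h : eval A P = t * eval A P') : Prop2 P P' := by
  have h1 : P - C t * P' = 0 := mono_indep θ A hA hθ _
    (fun μ a => by simp [coeff_C_mul, Derivation.leibniz, hP, hP', ht]) (by simp [h])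
  rw [sub_eq_zero] at h1
  intro μ ν
  rw [h1, coeff_C_mul, coeff_C_mul]
  ring

theorem log_indep {I : Type} [Fintype I] (y l : I → B) (hy : ∀ i, y i ≠ 0)
    (hy' : ∀ i, y i ∈ Subfield.closure ({z | ∀ a, θ a z = 0} ∪ Set.range A))
    (hl : ∀ a i, θ a (l i) = θ a (y i) / y i) (P : MvPolynomial (Fin m ⊕ I) B)
    (hP : ∀ μ a, θ a (P.coeff μ) = 0) (hP0 : P ≠ 0) (h0 : eval (Sum.elim A l) P = 0) :
    ∃ r : I → ℤ, r ≠ 0 ∧ ∀ a, θ a (∏ i, y i ^ r i) = 0 := by
  let M := Abs_const θ
  let L : IntermediateField M B := IntermediateField.adjoin M (Set.range A)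
  have hM : ∀ (x : M) a, θ a (algebraMap M B x) = 0 := fun x => x.2
  have hAL : ∀ a, A a ∈ L := fun a => IntermediateField.subset_adjoin _ _ ⟨a, rfl⟩
  have hyL : ∀ i, y i ∈ L := fun i => by
    refine (Subfield.closure_le (t := L.toSubfield)).2 ?_ (hy' i)
    rintro z (hz | ⟨a, rfl⟩)
    · exact L.algebraMap_mem (⟨z, hz⟩ : M)
    · exact hAL a
  let A' : Fin m → L := fun a => ⟨A a, hAL a⟩
  let y' : I → L := fun i => ⟨y i, hyL i⟩
  obtain ⟨P', rfl⟩ := Abs_lift θ P hP
  have hφ : Function.Injective (aeval A' : MvPolynomial (Fin m) M →ₐ[M] L).toRingHom := by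
    refine (injective_iff_map_eq_zero _).2 fun Q hQ => ?_
    have h1 : eval A (map (algebraMap M B) Q) = 0 := by
      have h2 : algebraMap L B (aeval A' Q) = 0 := by
        rw [show aeval A' Q = 0 from hQ, map_zero]
      rw [← aeval_algebraMap_apply] at h2
      rw [eval_map, ← aeval_def]
      exact h2
    have h3 := mono_indep θ A hA hθ _ (fun μ a => by rw [coeff_map]; exact hM _ a) h1
    exact map_injective _ (algebraMap M B).injective (by rw [h3, map_zero])
  obtain ⟨r, hr, hal⟩ := ostrowski' (M := M) (L := L) (B := B) y'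
    (fun i h => hy i (congrArg Subtype.val h)) l (fun δ hδ => by
      let d : B → B := fun x => ∑ a, ((δ (A' a) : B) / A a) * θ a x
      have hadd : ∀ a b, d (a + b) = d a + d b := fun a b => by
        simp only [d, map_add, mul_add, Finset.sum_add_distrib]
      have hmul : ∀ a b, d (a * b) = a * d b + b * d a := fun a b => by
        simp only [d, Derivation.leibniz, smul_eq_mul, Finset.mul_sum, ← Finset.sum_add_distrib]
        exact Finset.sum_congr rfl fun _ _ => by ring
      have hL : ∀ x (hx : x ∈ L), d x = (δ ⟨x, hx⟩ : B) := fun x hx => by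
        induction hx using IntermediateField.adjoin_induction with
        | mem x hx =>
          obtain ⟨b, rfl⟩ := hx
          simp only [d, hθ, mul_ite, mul_zero, Finset.sum_ite_eq', Finset.mem_univ, if_true]
          exact div_mul_cancel₀ _ (hA b)
        | algebraMap x =>
          have := hδ x
          simp only [d, hM, mul_zero, Finset.sum_const_zero]
          exact (congrArg Subtype.val this).symm
        | add x y hx hy ihx ihy =>
          rw [hadd, ihx, ihy]
          exact (congrArg Subtype.val (δ.map_add ⟨x, hx⟩ ⟨y, hy⟩)).symm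
        | inv x hx ihx =>
          have h1 : d x⁻¹ = -x⁻¹ ^ 2 * d x := by
            simp only [d, Derivation.leibniz_inv, smul_eq_mul, Finset.mul_sum]
            exact Finset.sum_congr rfl fun _ _ => by ring
          rw [h1, ihx]
          exact (congrArg Subtype.val (δ.leibniz_inv ⟨x, hx⟩)).symm
        | mul x y hx hy ihx ihy =>
          rw [hmul, ihx, ihy]
          exact (congrArg Subtype.val (δ.leibniz ⟨x, hx⟩ ⟨y, hy⟩)).symm
      refine ⟨d, hadd, hmul, fun x => hL x.1 x.2, fun i => ?_⟩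
      have h1 : d (l i) = d (y i) / y i := by
        simp only [d, hl, Finset.sum_div]
        exact Finset.sum_congr rfl fun _ _ => by ring
      rw [h1, hL _ (hyL i), map_div₀]
      rfl)
    (map (aeval A' : MvPolynomial (Fin m) M →ₐ[M] L).toRingHom
      (sumRingEquiv M I (Fin m) (rename Sum.swap P')))
    (fun h => hP0 (by
      have h1 := map_injective _ hφ (h.trans (map_zero _).symm)
      have h2 := (sumRingEquiv M I (Fin m)).injective (h1.trans (map_zero _).symm)
      have h3 := rename_injective _ Sum.swap_leftInverse.injective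
        (h2.trans (map_zero _).symm)
      rw [h3, map_zero]))
    (by rw [Abs_eval]; exact h0)
  refine ⟨r, hr, fun a => ?_⟩
  have h1 : IsAlgebraic M (algebraMap L B (∏ i, y' i ^ r i)) :=
    hal.algebraMap
  rw [map_prod] at h1
  simp only [map_zpow₀] at h1
  exact der_eq_zero (M := M) (θ a) (fun x y => map_add _ x y)
    (fun x y => by simp [Derivation.leibniz]) (fun x => hM x a) h1

end Pool.Agent.Work.MP_dd0d16_nt.T
end

-- merged part: Pool.Agent.Work.MP_dd0d16_nt.T.Core
section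
/-!
Derivations on the field generated by constants, Teichmueller lifts and logarithms.
-/

set_option autoImplicit false

namespace Pool.Agent.Work.MP_dd0d16_nt.T

open WittVector MvPolynomial

variable {p : ℕ} [Fact p.Prime]

theorem teich_ne {k : Type} [Field k] {b : k} (hb : b ≠ 0) : teichmuller p b ≠ 0 := fun h =>
  hb (by simpa using congrArg (fun x => x.coeff 0) h)

theorem map_teich_zpow {k Ω : Type} [Field k] [Field Ω] (f : WittVector p k →+* Ω) {b : k}
    (hb : b ≠ 0) (e : ℤ) : f (teichmuller p (b ^ e)) = f (teichmuller p b) ^ e := by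
  have h := map_zpow (Units.map ((f : WittVector p k →* Ω).comp (teichmuller p))) (Units.mk0 b hb) e
  have h2 := congrArg Units.val h
  rw [Units.val_zpow_eq_zpow_val, Units.coe_map, Units.coe_map, Units.val_zpow_eq_zpow_val] at h2
  exact h2

theorem witt_charZero (k : Type) [Field k] [CharP k p] : CharZero (WittVector p k) := by
  rcases CharP.char_is_prime_or_zero (WittVector p k) (ringChar (WittVector p k)) with h | h
  · exfalso
    have h1 : ((ringChar (WittVector p k) : ℕ) : WittVector p k) = 0 := ringChar.Nat.cast_ringChar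
    have h2 := congrArg (WittVector.constantCoeff (p := p) (R := k)) h1
    rw [map_natCast, map_zero, CharP.cast_eq_zero_iff k p,
      Nat.prime_dvd_prime_iff_eq Fact.out h] at h2
    rw [← h2] at h1
    exact WittVector.p_nonzero p k h1
  · exact (CharP.ringChar_zero_iff_CharZero _).1 h

/-- The polynomial attached to a sum of Teichmueller lifts. -/
noncomputable def fp {R σ J : Type} [CommRing R] [Fintype J] (e : J → σ →₀ ℕ) (c : J → R) :
    MvPolynomial σ R := ∑ j, monomial (e j) (c j)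

theorem map_fp {R S σ J : Type} [CommRing R] [CommRing S] [Fintype J] (f : R →+* S)
    (e : J → σ →₀ ℕ) (c : J → R) : MvPolynomial.map f (fp e c) = fp e fun j => f (c j) := by
  simp [fp, map_monomial]

theorem Prop2.of_map {σ R S : Type} [CommRing R] [CommRing S] {f : R →+* S}
    (hf : Function.Injective f) {P P' : MvPolynomial σ R}
    (h : Prop2 (MvPolynomial.map f P) (MvPolynomial.map f P')) : Prop2 P P' := fun μ ν =>
  hf (by simpa [coeff_map] using h μ ν)

theorem prod_zpow_split {B I : Type} [Field B] [Fintype I] (y : I → B) (hy : ∀ i, y i ≠ 0)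
    (r : I → ℤ) :
    (∏ i, y i ^ r i) * ∏ i, y i ^ (-r i).toNat = ∏ i, y i ^ (r i).toNat := by
  rw [← Finset.prod_mul_distrib]
  refine Finset.prod_congr rfl fun i _ => ?_
  rw [← zpow_natCast, ← zpow_natCast, ← zpow_add₀ (hy i)]
  congr 1
  omega

theorem prod_zpow_sum {B I : Type} [Field B] [Fintype I] {y : B} (hy : y ≠ 0) (r : I → ℤ) :
    y ^ (∑ i, r i) = ∏ i, y ^ r i := by
  classical
  induction (Finset.univ : Finset I) using Finset.induction_on with
  | empty => simp
  | insert i s hi ih => rw [Finset.sum_insert hi, Finset.prod_insert hi, zpow_add₀ hy, ih]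

theorem abs_core {R B I : Type} [CommRing R] [Field B] [CharZero B] [Fintype I] {m : ℕ}
    (θ : Fin m → Derivation ℚ B B) (A : Fin m → B) (hA : ∀ i, A i ≠ 0)
    (hθ : ∀ a b, θ a (A b) = if a = b then A b else 0) (c : R →+* B) (hc : Function.Injective c)
    (hc0 : ∀ a x, θ a (c x) = 0) (f : I → MvPolynomial (Fin m) R) (y l : I → B) (d : I → R)
    (ε : I → Fin m → ℤ) (hy : ∀ i, y i ≠ 0) (hd : ∀ i, c (d i) ≠ 0)
    (hf : ∀ i, eval₂ c A (f i) = y i * c (d i) * ∏ a, A a ^ ε i a)
    (hl : ∀ a i, θ a (l i) = θ a (y i) / y i) :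
    (∀ P : MvPolynomial (Fin m ⊕ I) R, eval₂ c (Sum.elim A l) P = 0 → P = 0) ∨
      ∃ (r r' : I → ℕ) (w w' : Fin m →₀ ℕ), r ≠ r' ∧
        Prop2 (monomial w 1 * ∏ i, f i ^ r i) (monomial w' 1 * ∏ i, f i ^ r' i) := by
  classical
  rw [or_iff_not_imp_left]
  intro h
  push Not at h
  obtain ⟨P, hP, hP0⟩ := h
  have hM : ∀ i, (∏ a, A a ^ ε i a) ≠ 0 := fun i =>
    Finset.prod_ne_zero_iff.2 fun a _ => zpow_ne_zero _ (hA a)
  have hy' : ∀ i, y i ∈ Subfield.closure ({z | ∀ a, θ a z = 0} ∪ Set.range A) := by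
    intro i
    have h1 : ∀ x, c x ∈ Subfield.closure ({z | ∀ a, θ a z = 0} ∪ Set.range A) := fun x =>
      Subfield.subset_closure (Or.inl fun a => hc0 a x)
    have h2 : ∀ a, A a ∈ Subfield.closure ({z | ∀ a, θ a z = 0} ∪ Set.range A) := fun a =>
      Subfield.subset_closure (Or.inr ⟨a, rfl⟩)
    have h3 : y i = eval₂ c A (f i) / (c (d i) * ∏ a, A a ^ ε i a) := by
      rw [hf, mul_assoc, mul_div_cancel_right₀ _ (mul_ne_zero (hd i) (hM i))]
    rw [h3]
    refine div_mem ?_ (mul_mem (h1 _) (prod_mem fun a _ => zpow_mem (h2 a) _))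
    rw [eval₂_eq]
    exact sum_mem fun μ _ => mul_mem (h1 _) (prod_mem fun a _ => pow_mem (h2 a) _)
  obtain ⟨r, hr, hr0⟩ := log_indep θ A hA hθ y l hy hy' hl (MvPolynomial.map c P)
    (fun μ a => by rw [coeff_map, hc0]) (fun h => hP0 (map_injective c hc (by rw [h, map_zero])))
    (by rw [eval_map, hP])
  let z : Fin m → ℤ := fun a => ∑ i, ε i a * r i
  refine ⟨fun i => (r i).toNat, fun i => (-r i).toNat,
    Finsupp.equivFunOnFinite.symm fun a => (-z a).toNat,
    Finsupp.equivFunOnFinite.symm fun a => (z a).toNat, fun h => hr ?_, ?_⟩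
  · funext i
    have := congrFun h i
    simp only [Pi.zero_apply] at this ⊢
    omega
  refine Prop2.of_map hc (prop_of_const θ A hA hθ _ _ (fun μ a => by rw [coeff_map, hc0])
    (fun μ a => by rw [coeff_map, hc0]) (t := (∏ i, y i ^ r i) * ∏ i, c (d i) ^ r i) ?_ ?_)
  · intro a
    have h1 : θ a (∏ i, c (d i) ^ r i) = 0 := by
      have h2 := logd_prod (θ a) Finset.univ (fun i => c (d i) ^ r i)
        fun i => zpow_ne_zero _ (hd i)
      simp only [logd_zpow (θ a) (hd _), hc0, zero_div, mul_zero, Finset.sum_const_zero] at h2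
      exact (div_eq_zero_iff.1 h2).resolve_right
        (Finset.prod_ne_zero_iff.2 fun i _ => zpow_ne_zero _ (hd i))
    rw [Derivation.leibniz, hr0, h1]
    simp
  · have hf0 : ∀ i, eval₂ c A (f i) ≠ 0 := fun i => by
      rw [hf]
      exact mul_ne_zero (mul_ne_zero (hy i) (hd i)) (hM i)
    have e1 := prod_zpow_split (fun i => eval₂ c A (f i)) hf0 r
    have e2 := prod_zpow_split A hA z
    have e3 : ∏ i, eval₂ c A (f i) ^ r i =
        (∏ i, y i ^ r i) * (∏ i, c (d i) ^ r i) * ∏ a, A a ^ z a := by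
      simp only [hf, mul_zpow, Finset.prod_mul_distrib, z, prod_zpow_sum (hA _), zpow_mul,
        ← Finset.prod_zpow]
      rw [Finset.prod_comm]
    simp only [eval_map, eval₂_mul, eval₂_monomial, map_one, one_mul, eval₂_prod, eval₂_pow,
      Finsupp.prod_pow, Finsupp.equivFunOnFinite_symm_apply_apply]
    rw [← e1, ← e2, e3]
    ring

variable {k0 F k : Type} [Field k0] [Field F] [Field k] [CharP k p] {m : ℕ}
  {τ : F →+* k} {κ : k0 →+* F} {a : Fin m → F}

theorem Gd.sum {J : Type} (s : Finset J) {y : J → WittVector p k}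
    {g : J → Fin m → WittVector p k} (h : ∀ j, Gd τ κ a (y j) (g j)) :
    Gd τ κ a (∑ j ∈ s, y j) (∑ j ∈ s, g j) := by
  classical
  induction s using Finset.induction_on with
  | empty => simpa using Gd.const (τ := τ) (κ := κ) (a := a) (0 : WittVector p k0)
  | insert i s hi ih =>
    rw [Finset.sum_insert hi, Finset.sum_insert hi]
    exact (h i).add ih

theorem core [PerfectRing k p] (ha : ∀ i, a i ≠ 0) (hs : Sep p τ κ a) {J I : Type} [Fintype J]
    (t : J → F) (ht : ∀ j, t j ≠ 0) (η : J → k0) (e : J → Fin m → ℤ)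
    (he : ∀ j, t j = κ (η j) * ∏ i, a i ^ e j i) (g : I → F) (hg : ∀ i, g i ≠ 0) (η' : I → k0)
    (ε : I → Fin m → ℤ) (hε : ∀ i, g i = κ (η' i) * ∏ b, a b ^ ε i b)
    (b : I → J → WittVector p k0) (v : I → ℕ) (x : I → WittVector p F) (l : I → WittVector p k)
    (hα : ∀ i, ∑ j, WittVector.map τ (WittVector.map κ (b i j)) * teichmuller p (τ (t j)) =
      p ^ v i * teichmuller p (τ (g i)) * (1 + p * WittVector.map τ (x i)))
    (hl : ∀ i, WLog p (WittVector.map τ (x i)) (l i)) (N0 : ℕ) (e' : J → Fin m →₀ ℕ)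
    (he' : ∀ j i, (e' j i : ℤ) = e j i + N0) {I' : Type} [Fintype I'] (s : I' → I) :
    (∀ P : MvPolynomial (Fin m ⊕ I') (WittVector p k0), eval₂ (WittVector.map (τ.comp κ))
      (Sum.elim (fun i => teichmuller p (τ (a i))) fun i => l (s i)) P = 0 → P = 0) ∨
      ∃ (r r' : I' → ℕ) (w w' : Fin m →₀ ℕ), r ≠ r' ∧
        Prop2 (monomial w 1 * ∏ i, fp e' (fun j => b (s i) j * teichmuller p (η j)) ^ r i)
          (monomial w' 1 * ∏ i, fp e' (fun j => b (s i) j * teichmuller p (η j)) ^ r' i) := by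
  classical
  have := witt_charZero (p := p) k
  let Ω := FractionRing (WittVector p k)
  let φ := algebraMap (WittVector p k) Ω
  have hφ : Function.Injective φ := IsFractionRing.injective _ _
  have : CharZero Ω := algebraRat.charZero Ω
  let c0 : WittVector p k0 →+* Ω := φ.comp (WittVector.map (τ.comp κ))
  have hc0 : ∀ z, c0 z = φ (WittVector.map τ (WittVector.map κ z)) := fun z => rfl
  let A0 : Fin m → Ω := fun i => φ (teichmuller p (τ (a i)))
  have hT : ∀ {u : F}, u ≠ 0 → φ (teichmuller p (τ u)) ≠ 0 := fun hu =>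
    (map_ne_zero_iff φ hφ).2 (teich_ne ((map_ne_zero τ).2 hu))
  have hmon : ∀ (u : F) (n : k0) (d : Fin m → ℤ), u = κ n * ∏ i, a i ^ d i →
      φ (teichmuller p (τ u)) = c0 (teichmuller p n) * ∏ i, A0 i ^ d i := by
    rintro u n d rfl
    rw [hc0, map_teichmuller, map_teichmuller, map_mul, map_mul, map_mul, map_prod, map_prod,
      map_prod]
    congr 1
    refine Finset.prod_congr rfl fun i _ => ?_
    rw [map_zpow₀, map_teich_zpow φ ((map_ne_zero τ).2 (ha i))]
  let S : Set Ω := Set.range c0 ∪ Set.range A0 ∪ Set.range fun i => φ (l i)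
  have m1 : ∀ z, c0 z ∈ Subfield.closure S := fun z =>
    Subfield.subset_closure (Or.inl (Or.inl ⟨z, rfl⟩))
  have m2 : ∀ i, A0 i ∈ Subfield.closure S := fun i =>
    Subfield.subset_closure (Or.inl (Or.inr ⟨i, rfl⟩))
  have m3 : ∀ i, φ (l i) ∈ Subfield.closure S := fun i =>
    Subfield.subset_closure (Or.inr ⟨i, rfl⟩)
  have m4 : ∀ (u : F) (n : k0) (d : Fin m → ℤ), u = κ n * ∏ i, a i ^ d i →
      φ (teichmuller p (τ u)) ∈ Subfield.closure S := fun u n d h => by
    rw [hmon u n d h]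
    exact mul_mem (m1 _) (prod_mem fun i _ => zpow_mem (m2 i) _)
  let α : I → WittVector p k := fun i =>
    ∑ j, WittVector.map τ (WittVector.map κ (b i j)) * teichmuller p (τ (t j))
  let γ : I → Fin m → WittVector p k := fun i => ∑ j, fun d =>
    WittVector.map τ (WittVector.map κ (b i j)) * (e j d * teichmuller p (τ (t j)))
  have hG : ∀ i, Gd τ κ a (α i) (γ i) := fun i => Gd.sum _ fun j => by
    simpa using (Gd.const (b i j)).mul (Gd.teich (τ := τ) ha (ht j) (he j))
  have hα0 : ∀ i, φ (α i) ≠ 0 := fun i => by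
    refine (map_ne_zero_iff φ hφ).2 ?_
    change ∑ j, _ ≠ 0
    rw [hα]
    refine mul_ne_zero (mul_ne_zero (pow_ne_zero _ (WittVector.p_nonzero p k))
      (teich_ne ((map_ne_zero τ).2 (hg i)))) fun h => ?_
    have := congrArg (WittVector.constantCoeff (p := p) (R := k)) h
    simp [-constantCoeff_apply] at this
  have m5 : ∀ i, φ (α i) ∈ Subfield.closure S := fun i => by
    simp only [α, map_sum, map_mul]
    exact sum_mem fun j _ => mul_mem (m1 _) (m4 _ _ _ (he j))
  have m6 : ∀ i d, φ (γ i d) ∈ Subfield.closure S := fun i d => by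
    simp only [γ, Finset.sum_apply, map_sum, map_mul, map_intCast]
    exact sum_mem fun j _ => mul_mem (m1 _) (mul_mem (intCast_mem _ _) (m4 _ _ _ (he j)))
  have hone : Gd τ κ a (1 : WittVector p k) 0 := by
    simpa using Gd.const (τ := τ) (κ := κ) (a := a) (1 : WittVector p k0)
  have g1 : ∀ z, Gf (Gd τ κ a) (c0 z) fun _ => 0 := fun z => by
    rw [hc0]
    simpa using Gf.of (Ω := Ω) hone (Gd.const z)
  have g2 : ∀ i, Gf (Gd τ κ a) (A0 i) fun d => if d = i then A0 i else 0 := fun i => by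
    have h1 := Gf.of (Ω := Ω) hone (Gd.teich (τ := τ) (κ := κ) (η := 1) (e := Pi.single i 1) ha
      (ha i) (by
        rw [map_one, one_mul, Finset.prod_eq_single i]
        · simp
        · intro d _ hd
          simp [hd]
        · simp))
    convert h1 using 2 with d
    split_ifs with h
    · simp [h, A0, φ]
    · simp [h]
  have g3 : ∀ i, Gf (Gd τ κ a) (φ (l i)) fun d => φ (γ i d) / φ (α i) - ε i d := fun i =>
    ⟨_, _, _, _, Gd.log ha (hg i) (hε i) (hα i) (hl i) (hG i), hG i, hα0 i,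
      by rw [map_mul, mul_comm], fun d => by
        have := hα0 i
        simp only [map_add, map_sub, map_mul, map_intCast]
        change _ * φ (α i) + _ = _ - _ * φ (α i) + _
        rw [sub_mul, div_mul_cancel₀ _ this]⟩
  obtain ⟨θ, hθ⟩ := exists_theta hφ (Gd τ κ a) (fun _ _ _ _ => Gd.add) (fun _ _ => Gd.neg)
    (fun _ _ _ _ => Gd.mul) hone (fun _ => Gd.unique hs) S (by
      rintro _ ((⟨z, rfl⟩ | ⟨i, rfl⟩) | ⟨i, rfl⟩)
      · exact ⟨_, g1 z, fun _ => zero_mem _⟩
      · refine ⟨_, g2 i, fun d => ?_⟩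
        split_ifs
        exacts [m2 i, zero_mem _]
      · exact ⟨_, g3 i, fun d => sub_mem (div_mem (m6 i d) (m5 i)) (intCast_mem _ _)⟩)
  let B := Subfield.closure S
  let c : WittVector p k0 →+* B := c0.codRestrict B m1
  let A : Fin m → B := fun i => ⟨A0 i, m2 i⟩
  let αB : I → B := fun i => ⟨φ (α i), m5 i⟩
  let gB : I → B := fun i => ⟨_, m4 _ _ _ (hε i)⟩
  have hαB : ∀ i, αB i ≠ 0 := fun i h => hα0 i (congrArg Subtype.val h)
  have hgB : ∀ i, gB i ≠ 0 := fun i h => hT (hg i) (congrArg Subtype.val h)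
  have hA : ∀ i, A i ≠ 0 := fun i h => hT (ha i) (congrArg Subtype.val h)
  have hcinj : Function.Injective c := fun z z' h =>
    WittVector.map_injective _ (τ.comp κ).injective (hφ (congrArg Subtype.val h))
  refine Or.imp_left (fun h P hP => h P (Subtype.ext ?_)) (abs_core θ A hA (fun d i => Subtype.ext (by
      rw [hθ (A i) _ (g2 i)]
      split_ifs <;> rfl)) c hcinj (fun d z => Subtype.ext (hθ (c z) _ (g1 z) d))
    (fun i => fp e' fun j => b (s i) j * teichmuller p (η j)) (fun i => αB (s i) / gB (s i))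
    (fun i => ⟨φ (l (s i)), m3 _⟩) (fun i => teichmuller p (η' (s i))) (fun i d => ε (s i) d + N0)
    (fun i => div_ne_zero (hαB _) (hgB _))
    (fun i => (map_ne_zero_iff c hcinj).2 (teich_ne fun h => hg (s i) (by rw [hε, h]; simp)))
    (fun i => ?_) (fun d i => ?_))
  · have h1 := congrArg φ hP
    rw [eval₂_comp_left, map_zero] at h1
    have h2 := eval₂_comp_left B.subtype c (Sum.elim A fun i => (⟨φ (l (s i)), m3 _⟩ : B)) P
    refine h2.trans (Eq.trans ?_ h1)
    congr 1
    funext u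
    cases u <;> rfl
  · generalize s i = i
    have h1 : ∀ j, c (teichmuller p (η j)) * ∏ d, A d ^ e' j d =
        ⟨_, m4 _ _ _ (he j)⟩ * ∏ d, A d ^ (N0 : ℤ) := by
      intro j
      have h2 : (⟨_, m4 _ _ _ (he j)⟩ : B) = c (teichmuller p (η j)) * ∏ d, A d ^ e j d :=
        B.subtype.injective (by
          simp only [map_mul B.subtype, map_prod B.subtype, map_zpow₀ B.subtype]
          exact hmon _ _ _ (he j))
      rw [h2, mul_assoc, ← Finset.prod_mul_distrib]
      congr 1
      refine Finset.prod_congr rfl fun d _ => ?_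
      rw [← zpow_add₀ (hA d), ← he', zpow_natCast]
    have h3 : gB i = c (teichmuller p (η' i)) * ∏ d, A d ^ ε i d :=
      B.subtype.injective (by
        simp only [map_mul B.subtype, map_prod B.subtype, map_zpow₀ B.subtype]
        exact hmon _ _ _ (hε i))
    have h4 : αB i = ∑ j, c (b i j) * ⟨_, m4 _ _ _ (he j)⟩ :=
      Subtype.ext (by
        rw [AddSubmonoidClass.coe_finsetSum]
        simp only [αB, α, map_sum, map_mul]
        rfl)
    simp only [fp, eval₂_sum, eval₂_monomial, Finsupp.prod_pow, map_mul, mul_assoc, h1,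
      zpow_add₀ (hA _), Finset.prod_mul_distrib]
    rw [← mul_assoc (c _), ← h3, ← mul_assoc, div_mul_cancel₀ _ (hgB i), h4, Finset.sum_mul]
    simp only [mul_assoc]
  · generalize s i = i
    have h1 := hθ (αB i) _ (Gf.of hone (hG i)) d
    have h2 := hθ (gB i) _ (Gf.of hone (Gd.teich ha (hg i) (hε i))) d
    have h3 := hθ ⟨φ (l i), m3 i⟩ _ (g3 i) d
    have h4 : θ d (gB i) = ε i d * gB i := Subtype.ext (by
      rw [h2, map_mul, map_intCast]
      rfl)
    have h5 : θ d ⟨φ (l i), m3 i⟩ = θ d (αB i) / αB i - ε i d := Subtype.ext (by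
      rw [h3, Subfield.coe_sub, Subfield.coe_div, h1]
      rfl)
    have := hαB i
    have := hgB i
    rw [h5, Derivation.leibniz_div, h4]
    simp only [smul_eq_mul]
    field_simp

end Pool.Agent.Work.MP_dd0d16_nt.T
end

-- merged part: Pool.Agent.Work.MP_dd0d16_nt.S.Res
section
/-!
The residue field at a scale and derivations on it.

PLAN. `exists_res`: `A` is a `ValuationSubring`; its nonunits are the infinitesimal elements; take the
residue field; natural numbers are not infinitesimal (`charZero_of_inj_zero`). (One may also take the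
quotient of the subring by the ideal of infinitesimal elements and show that it is a field.)
`res_theta`: `exists_theta` (T/Ext) with `R = k` and
`G z g := ∃ (z' : A) (g' : Fin m → A), res z' = z ∧ (∀ a, res (g' a) = g a) ∧ App v γ Θ z' g'`.
Sums are clear. Products: if `v z * γ ^ c ≤ 1` holds for all four elements then it holds for `e`,
`Θ a e` as well (`γ ^ M ≤ 1`), use approximations of order `M + c` and
`z z' - e e' = z (z' - e') + e' (z - e)`,
`z g' + z' g - e Θ e' - e' Θ e = z (g' - Θ e') + (z - e) Θ e' + z' (g - Θ e) + (z' - e') Θ e`.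
Uniqueness: if `z'` is infinitesimal then `v e ≤ γ ^ (M + 1)`, so `v (Θ a e) ≤ γ ^ M`, so `g' a` is
infinitesimal. Finish with `Gf.of`.
-/

set_option autoImplicit false

namespace Pool.Agent.Work.MP_dd0d16_nt.T

variable {Ω Γ : Type} [Field Ω] [CharZero Ω] [LinearOrderedCommGroupWithZero Γ]
  {v : Valuation Ω Γ} {γ : Γ} {m : ℕ}

theorem Res_ev (h1 : γ < 1) {x : Γ} (h : ∃ c : ℕ, x * γ ^ c ≤ 1) :
    ∀ᶠ c : ℕ in Filter.atTop, x * γ ^ c ≤ 1 := by
  obtain ⟨c, hc⟩ := h
  filter_upwards [Filter.eventually_ge_atTop c] with d hd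
  exact (mul_le_mul_right (pow_le_pow_right_of_le_one' h1.le hd) _).trans hc

theorem Res_mul {x y : Γ} {c M : ℕ} (hx : x * γ ^ c ≤ 1) (hy : y ≤ γ ^ (c + M)) :
    x * y ≤ γ ^ M := by
  refine (mul_le_mul_right hy _).trans ?_
  rw [pow_add, ← mul_assoc]
  exact mul_le_of_le_one_left' hx

omit [CharZero Ω] in
theorem Res_near (h1 : γ < 1) {z e : Ω} {c n : ℕ} (hz : v z * γ ^ c ≤ 1)
    (h : v (z - e) ≤ γ ^ n) : v e * γ ^ c ≤ 1 := by
  have k := v.map_sub z (z - e)
  rw [sub_sub_cancel] at k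
  rcases le_max_iff.1 k with k | k
  · exact (mul_le_mul_left k _).trans hz
  · exact mul_le_one' (k.trans (h.trans (pow_le_one' h1.le _))) (pow_le_one' h1.le _)

section

variable {E1 : Subfield Ω} {Θ : Fin m → Derivation ℚ E1 E1} {z z' : Ω} {g g' : Fin m → Ω}

theorem Res_add (h : App v γ Θ z g) (h' : App v γ Θ z' g') :
    App v γ Θ (z + z') fun a => g a + g' a := fun M => by
  obtain ⟨e, e1, e2⟩ := h M
  obtain ⟨f, f1, f2⟩ := h' M
  refine ⟨e + f, ?_, fun a => ?_⟩
  · rw [Subfield.coe_add, add_sub_add_comm]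
    exact v.map_add_le e1 f1
  · rw [map_add, Subfield.coe_add, add_sub_add_comm]
    exact v.map_add_le (e2 a) (f2 a)

theorem Res_neg (h : App v γ Θ z g) : App v γ Θ (-z) fun a => -g a := fun M => by
  obtain ⟨e, e1, e2⟩ := h M
  refine ⟨-e, ?_, fun a => ?_⟩
  · rwa [Subfield.coe_neg, neg_sub_neg, Valuation.map_sub_swap]
  · rw [map_neg, Subfield.coe_neg, neg_sub_neg, Valuation.map_sub_swap]
    exact e2 a

theorem Res_one : App v γ Θ 1 fun _ => 0 := fun M => ⟨1, by simp, fun a => by simp⟩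

theorem Res_prod (h1 : γ < 1) (h : App v γ Θ z g) (h' : App v γ Θ z' g')
    (b1 : ∃ c : ℕ, v z * γ ^ c ≤ 1) (b2 : ∃ c : ℕ, v z' * γ ^ c ≤ 1)
    (b3 : ∀ a, ∃ c : ℕ, v (g a) * γ ^ c ≤ 1) (b4 : ∀ a, ∃ c : ℕ, v (g' a) * γ ^ c ≤ 1) :
    App v γ Θ (z * z') fun a => z * g' a + z' * g a := fun M => by
  obtain ⟨c, ⟨c1, c2⟩, c3, c4⟩ := (((Res_ev h1 b1).and (Res_ev h1 b2)).and
    ((Filter.eventually_all.2 fun a => Res_ev h1 (b3 a)).and
      (Filter.eventually_all.2 fun a => Res_ev h1 (b4 a)))).exists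
  obtain ⟨e, e1, e2⟩ := h (c + M)
  obtain ⟨f, f1, f2⟩ := h' (c + M)
  have k : ∀ {x y : Ω}, v x * γ ^ c ≤ 1 → v y ≤ γ ^ (c + M) → v (x * y) ≤ γ ^ M := fun hx hy => by
    rw [map_mul]
    exact Res_mul hx hy
  refine ⟨e * f, ?_, fun a => ?_⟩
  · have q : z * z' - ((e * f : E1) : Ω) = z * (z' - f) + f * (z - e) := by
      rw [Subfield.coe_mul]
      ring
    rw [q]
    exact v.map_add_le (k c1 f1) (k (Res_near h1 c2 f1) e1)
  · have q : z * g' a + z' * g a - ((Θ a (e * f) : E1) : Ω) =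
        (z * (g' a - Θ a f) + Θ a f * (z - e)) + (z' * (g a - Θ a e) + Θ a e * (z' - f)) := by
      rw [Derivation.leibniz, smul_eq_mul, smul_eq_mul, Subfield.coe_add, Subfield.coe_mul,
        Subfield.coe_mul]
      ring
    rw [q]
    exact v.map_add_le (v.map_add_le (k c1 (f2 a)) (k (Res_near h1 (c4 a) (f2 a)) e1))
      (v.map_add_le (k c2 (e2 a)) (k (Res_near h1 (c3 a) (e2 a)) f1))

theorem Res_uniq (h0 : γ ≠ 0) (h1 : γ < 1) (hΘ : ∀ a e, v (Θ a e) * γ ≤ v e)
    (h : App v γ Θ z g) (hz : Inf v γ z) (a : Fin m) : Inf v γ (g a) := fun M => by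
  obtain ⟨e, e1, e2⟩ := h (M + 1)
  have k1 : v e ≤ γ ^ (M + 1) := by
    have k := v.map_sub_le (hz (M + 1)) e1
    rwa [sub_sub_cancel] at k
  have k2 : v (Θ a e) ≤ γ ^ M := by
    have k := (hΘ a e).trans k1
    rw [pow_succ] at k
    exact le_of_mul_le_mul_right k (zero_lt_iff.2 h0)
  have k3 := v.map_add_le ((e2 a).trans (pow_le_pow_right_of_le_one' h1.le M.le_succ)) k2
  rwa [sub_add_cancel] at k3

end

theorem exists_res (v : Valuation Ω Γ) (h0 : γ ≠ 0) (h1 : γ < 1)
    (hn : ∀ n : ℕ, n ≠ 0 → ¬ Inf v γ (n : Ω)) :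
    ∃ (k : Type) (_ : Field k) (_ : CharZero k) (A : Subring Ω) (res : A →+* k),
      (∀ z, z ∈ A ↔ ∃ c : ℕ, v z * γ ^ c ≤ 1) ∧ ∀ z : A, res z = 0 ↔ Inf v γ (z : Ω) := by
  let A : Subring Ω :=
    { carrier := {z | ∃ c : ℕ, v z * γ ^ c ≤ 1}
      mul_mem' := by
        rintro a b ⟨c, hc⟩ ⟨d, hd⟩
        refine ⟨c + d, ?_⟩
        rw [map_mul, pow_add, mul_mul_mul_comm]
        exact mul_le_one' hc hd
      one_mem' := ⟨0, by simp⟩
      add_mem' := fun {a b} ha hb => by
        obtain ⟨c, hc, hd⟩ := ((Res_ev h1 ha).and (Res_ev h1 hb)).exists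
        refine ⟨c, ?_⟩
        rcases le_max_iff.1 (v.map_add a b) with k | k
        · exact (mul_le_mul_left k _).trans hc
        · exact (mul_le_mul_left k _).trans hd
      zero_mem' := ⟨0, by simp⟩
      neg_mem' := fun {a} ha => by simpa only [Set.mem_ofPred_eq, Valuation.map_neg] using ha }
  let I : Ideal A :=
    { carrier := {z | Inf v γ (z : Ω)}
      add_mem' := fun {a b} ha hb c => v.map_add_le (ha c) (hb c)
      zero_mem' := fun c => by simp
      smul_mem' := fun a b hb M => by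
        obtain ⟨c, hc⟩ := a.2
        show v ((a : Ω) * b) ≤ _
        rw [map_mul]
        exact Res_mul hc (hb _) }
  have hI : I.IsMaximal := by
    refine Ideal.isMaximal_iff.2 ⟨fun k => hn 1 one_ne_zero (by rw [Nat.cast_one]; exact k), ?_⟩
    intro J x _ hx hJ
    obtain ⟨c, hc⟩ := not_forall.1 (show ¬ ∀ c : ℕ, v (x : Ω) ≤ γ ^ c from hx)
    have hc' := not_le.1 hc
    have hv : 0 < v (x : Ω) := lt_of_le_of_lt zero_le hc'
    have hx0 : (x : Ω) ≠ 0 := fun k => by simp [k] at hv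
    have hi : (x : Ω)⁻¹ ∈ A := ⟨c, by
      rw [map_inv₀, inv_mul_le_iff₀ hv, mul_one]
      exact hc'.le⟩
    have e : (⟨_, hi⟩ : A) * x = 1 := Subtype.ext (inv_mul_cancel₀ hx0)
    exact e ▸ J.mul_mem_left _ hJ
  let _ : Field (A ⧸ I) := Ideal.Quotient.field I
  have : CharZero (A ⧸ I) := charZero_of_inj_zero fun n h => by
    by_contra k
    refine hn n k ?_
    rw [← map_natCast (Ideal.Quotient.mk I), Ideal.Quotient.eq_zero_iff_mem] at h
    simpa using (show Inf v γ ((n : A) : Ω) from h)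
  exact ⟨A ⧸ I, inferInstance, inferInstance, A, Ideal.Quotient.mk I, fun _ => Iff.rfl,
    fun z => Ideal.Quotient.eq_zero_iff_mem⟩

theorem res_theta {k : Type} [Field k] [CharZero k] {A : Subring Ω} {res : A →+* k} (h0 : γ ≠ 0)
    (h1 : γ < 1) (hA : ∀ z, z ∈ A ↔ ∃ c : ℕ, v z * γ ^ c ≤ 1)
    (hres : ∀ z : A, res z = 0 ↔ Inf v γ (z : Ω)) {E1 : Subfield Ω}
    (Θ : Fin m → Derivation ℚ E1 E1) (hΘ : ∀ a e, v (Θ a e) * γ ≤ v e) (S : Set A)
    (hS : ∀ s ∈ S, ∃ g : Fin m → A, App v γ Θ s (fun a => g a) ∧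
      ∀ a, res (g a) ∈ Subfield.closure (res '' S)) :
    ∃ θ : Fin m → Derivation ℚ (Subfield.closure (res '' S)) (Subfield.closure (res '' S)),
      ∀ (z : A) (g : Fin m → A) (w : Subfield.closure (res '' S)), (w : k) = res z →
        App v γ Θ z (fun a => g a) → ∀ a, (θ a w : k) = res (g a) := by
  let G : k → (Fin m → k) → Prop := fun z g => ∃ (z' : A) (g' : Fin m → A), res z' = z ∧
    (∀ a, res (g' a) = g a) ∧ App v γ Θ z' fun a => g' a
  have hone : G 1 0 := ⟨1, 0, map_one _, fun _ => map_zero _, Res_one⟩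
  obtain ⟨θ, hθ⟩ := exists_theta (R := k) (Ω := k) (algebraMap k k).injective G
    (by
      rintro _ g _ g' ⟨z, f, rfl, a2, a3⟩ ⟨z', f', rfl, b2, b3⟩
      exact ⟨z + z', f + f', map_add _ _ _, fun a => by
        rw [Pi.add_apply, Pi.add_apply, map_add, a2, b2], Res_add a3 b3⟩)
    (by
      rintro _ g ⟨z, f, rfl, a2, a3⟩
      exact ⟨-z, -f, map_neg _ _, fun a => by rw [Pi.neg_apply, Pi.neg_apply, map_neg, a2],
        Res_neg a3⟩)
    (by
      rintro _ g _ g' ⟨z, f, rfl, a2, a3⟩ ⟨z', f', rfl, b2, b3⟩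
      exact ⟨z * z', fun a => z * f' a + z' * f a, map_mul _ _ _, fun a => by
        rw [map_add, map_mul, map_mul, a2, b2], Res_prod h1 a3 b3 ((hA _).1 z.2) ((hA _).1 z'.2)
          (fun a => (hA _).1 (f a).2) fun a => (hA _).1 (f' a).2⟩)
    hone
    (by
      rintro g ⟨z, f, a1, a2, a3⟩
      funext a
      rw [← a2]
      exact (hres _).2 (Res_uniq h0 h1 hΘ a3 ((hres _).1 a1) a))
    (res '' S)
    (by
      rintro _ ⟨s, hs, rfl⟩
      obtain ⟨g, g1, g2⟩ := hS s hs
      exact ⟨fun a => res (g a), Gf.of (Ω := k) hone ⟨s, g, rfl, fun _ => rfl, g1⟩, g2⟩)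
  refine ⟨θ, fun z g w hw hz => hθ w (fun a => res (g a)) ?_⟩
  rw [hw]
  exact Gf.of (Ω := k) hone ⟨z, g, rfl, fun _ => rfl, hz⟩

end Pool.Agent.Work.MP_dd0d16_nt.T
end

-- merged part: Pool.Agent.Work.MP_dd0d16_nt.G.Alg1
section
/-!
Algebra in characteristic `p`.

PLAN. `moore`: induction on the size of the support of `ρ`. Divide by `ρ i0 ≠ 0`, so `ρ i0 = 1`.
Subtract the equations for `n` and `n + 1`: `ρ' = ρ ^ p - ρ` satisfies the same equations
(`sub_pow_char_pow`) and has smaller support. If `ρ' = 0` then all `ρ i` lie in the prime field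
(`prime_field`: the polynomial `X ^ p - X` has at most `p` roots and the `p` elements `(c : k)`, `c < p`,
are roots; or `Subfield.mem_bot_iff_pow_eq_self`), and `ρ i ^ p ^ n0 = ρ i`.
`exists_Phi`: the image in `MvPolynomial S (ZMod p)` vanishes (`sum_pow_char`,
`MvPolynomial.C_dvd_iff_zmod`), or induction with `exists_add_pow_prime_eq`.
`der_zero`: `R = R %ₘ (X ^ p - C c) + (X ^ p - C c) * S`; the remainder has degree `< p` and vanishes
at `ζ`, so it is zero; the derivative of `X ^ p - C c` is zero.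
-/

set_option autoImplicit false

namespace Pool.Agent.Work.MP_dd0d16_nt.T

variable {k : Type} [Field k] {p : ℕ} [Fact p.Prime] [CharP k p]

theorem prime_field {y : k} (h : y ^ p = y) : ∃ c < p, y = (c : ℕ) := by
  have hp : p.Prime := Fact.out
  obtain ⟨n, rfl⟩ := (mem_bot_iff_intCast p k).1 ((Subfield.mem_bot_iff_pow_eq_self k p).2 h)
  have h0 : (0 : ℤ) < p := by exact_mod_cast hp.pos
  obtain ⟨c, hc⟩ := Int.eq_ofNat_of_zero_le (Int.emod_nonneg n h0.ne')
  refine ⟨c, by exact_mod_cast hc ▸ Int.emod_lt_of_pos n h0, ?_⟩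
  rw [← Int.cast_natCast, ← hc]
  exact (CharP.intCast_eq_intCast_mod k p)

omit [Fact p.Prime] [CharP k p] in
theorem Alg1_pow {y : k} (h : y ^ p = y) (n : ℕ) : y = y ^ p ^ n := by
  induction n with
  | zero => simp
  | succ n ih => rw [pow_succ, pow_mul, ← ih, h]

theorem moore {Q : Type} [Fintype Q] (ρ H : Q → k) (hρ : ρ ≠ 0) (n0 : ℕ)
    (h : ∀ n, n0 ≤ n → ∑ i, ρ i ^ p ^ n * H i = 0) :
    ∃ c : Q → ℕ, (∀ i, c i < p) ∧ c ≠ 0 ∧ ∑ i, (c i : k) * H i = 0 := by
  classical
  induction hN : (Finset.univ.filter fun i => ρ i ≠ 0).card using Nat.strong_induction_on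
    generalizing ρ with
  | _ N ih =>
    obtain ⟨i0, h0⟩ := Function.ne_iff.1 hρ
    have h0 : ρ i0 ≠ 0 := h0
    have h1 : ∀ n, n0 ≤ n → ∑ i, (ρ i / ρ i0) ^ p ^ n * H i = 0 := fun n hn => by
      simp only [div_pow, div_mul_eq_mul_div, ← Finset.sum_div, h n hn, zero_div]
    by_cases h2 : (fun i => (ρ i / ρ i0) ^ p - ρ i / ρ i0) = 0
    · have h3 : ∀ i, (ρ i / ρ i0) ^ p = ρ i / ρ i0 := fun i => sub_eq_zero.1 (congrFun h2 i)
      choose c h4 h5 using fun i => prime_field (h3 i)
      refine ⟨c, h4, fun h6 => ?_, ?_⟩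
      · have := h5 i0
        rw [h6, div_self h0] at this
        simp at this
      · rw [← h1 n0 le_rfl]
        refine Finset.sum_congr rfl fun i _ => ?_
        rw [← h5 i, ← Alg1_pow (h3 i)]
    · refine ih _ ?_ _ h2 (fun n hn => ?_) rfl
      · rw [← hN]
        refine Finset.card_lt_card ⟨fun i hi => ?_, fun hs => ?_⟩
        · simp only [Finset.mem_filter, Finset.mem_univ, true_and] at hi ⊢
          exact fun h3 => hi (by simp [h3, (Fact.out : p.Prime).ne_zero])
        · have := hs (Finset.mem_filter.2 ⟨Finset.mem_univ i0, h0⟩)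
          simp [div_self h0] at this
      · simp only [sub_pow_char_pow, sub_mul, Finset.sum_sub_distrib, ← pow_mul, ← pow_succ',
          h1 n hn, h1 (n + 1) (hn.trans n.le_succ), sub_zero]

theorem exists_Phi (p : ℕ) [Fact p.Prime] (S : Type) [Fintype S] : ∃ Φ : MvPolynomial S ℤ,
    (p : MvPolynomial S ℤ) * Φ = (∑ s, MvPolynomial.X s) ^ p - ∑ s, MvPolynomial.X s ^ p := by
  have h : MvPolynomial.C (p : ℤ) ∣
      (∑ s, MvPolynomial.X s : MvPolynomial S ℤ) ^ p - ∑ s, MvPolynomial.X s ^ p := by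
    rw [MvPolynomial.C_dvd_iff_zmod]
    simp only [map_sub, map_pow, map_sum, MvPolynomial.map_X, sum_pow_char, sub_self]
  obtain ⟨Φ, h⟩ := h
  exact ⟨Φ, by rw [h]; simp⟩

theorem der_zero (K : Subfield k) {ζ : k} (hζ : ζ ^ p ∈ K)
    (hli : ∀ c : Fin p → k, (∀ j, c j ∈ K) → ∑ j, c j * ζ ^ (j : ℕ) = 0 → c = 0)
    (R : Polynomial K) (hR : Polynomial.aeval ζ R = 0) :
    Polynomial.aeval ζ (Polynomial.derivative R) = 0 := by
  have hp : p.Prime := Fact.out
  obtain ⟨q, hq⟩ : ∃ q : Polynomial K, q = Polynomial.X ^ p - Polynomial.C ⟨ζ ^ p, hζ⟩ := ⟨_, rfl⟩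
  have h1 : q.Monic := hq ▸ Polynomial.monic_X_pow_sub_C _ hp.ne_zero
  have h2 : Polynomial.aeval ζ q = 0 := by
    rw [hq, map_sub, map_pow, Polynomial.aeval_X, Polynomial.aeval_C]
    exact sub_self _
  have h3 : Polynomial.derivative q = 0 := by
    rw [hq, Polynomial.derivative_sub, Polynomial.derivative_C, Polynomial.derivative_X_pow,
      CharP.cast_eq_zero K p]
    simp
  have h4 := Polynomial.modByMonic_add_div R q
  have h5 : (R %ₘ q).natDegree < p := by
    have := Polynomial.natDegree_modByMonic_lt R h1 fun h => by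
      have := congrArg Polynomial.natDegree (hq ▸ h)
      rw [Polynomial.natDegree_X_pow_sub_C, Polynomial.natDegree_one] at this
      exact hp.ne_zero this
    rwa [hq, Polynomial.natDegree_X_pow_sub_C, ← hq] at this
  have h6 : Polynomial.aeval ζ (R %ₘ q) = 0 := by
    rw [← hR]
    conv_rhs => rw [← h4]
    rw [map_add, map_mul, h2, zero_mul, add_zero]
  have h7 : R %ₘ q = 0 := by
    rw [Polynomial.aeval_eq_sum_range' h5, ← Fin.sum_univ_eq_sum_range
      (fun i => (R %ₘ q).coeff i • ζ ^ i)] at h6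
    have h8 := hli (fun j => ((R %ₘ q).coeff j : k)) (fun j => ((R %ₘ q).coeff j).2) h6
    ext n
    by_cases hn : n < p
    · simpa using congrFun h8 ⟨n, hn⟩
    · rw [Polynomial.coeff_eq_zero_of_natDegree_lt (by omega), Polynomial.coeff_zero]
  rw [← h4, h7, zero_add, Polynomial.derivative_mul, h3, zero_mul, zero_add, map_mul, h2, zero_mul]

end Pool.Agent.Work.MP_dd0d16_nt.T
end
end

-- merged part: Pool.Agent.Work.MP_dd0d16_nt.T.ThmD
section
-- merged part: Pool.Agent.Work.MP_dd0d16_nt.T.Sat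
section
/-!
Saturated bases of finitely generated multiplicative groups in a function field.

PLAN. `Sat_chi`: `g` is transcendental over `k0` (`k0` is algebraically closed). `exists_mid`
(Fields) gives `E` with `g` transcendental over `E` and `F` algebraic over `E⟮g⟯`, hence finite
(`Algebra.EssFiniteType.of_comp`, `Algebra.finite_of_essFiniteType_of_isAlgebraic`). Take
`χ x = intDegree` of the norm of `x` in `E⟮g⟯ ≃ RatFunc E` (`RatFunc.algEquivOfTranscendental`,
`RatFunc.intDegree_mul`, `Algebra.norm_algebraMap`, `Algebra.norm_ne_zero_iff`).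
`exists_sat`: the rows `fun j => χ (g j)` for all `χ` span a finitely generated submodule of `J → ℤ`,
so finitely many `χ ∈ H0` span it (`Submodule.fg_span_iff_fg_span_finset_subset` or
`Submodule.mem_span_finite_of_mem_span`). Let `Γ` be the submodule of `Additive Fˣ` of all `x` with
`n • x` in the span of the `g j` for some `n ≠ 0`, and `Φ x = fun χ : H0 => χ x`. An element of `Γ`
killed by `Φ` is killed by all `χ`, so it is a constant. Take a basis of `Γ.map Φ`
(`Submodule.basisOfPid` or `Module.Free.chooseBasis`), and preimages `a i ∈ Γ`. If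
`∏ a i ^ c i = h ^ q` then `h ∈ Γ` and `c = q • repr (Φ h)`.
-/

set_option autoImplicit false

namespace Pool.Agent.Work.MP_dd0d16_nt.T

/-- Finitely many characters see everything that all characters see on a finitely generated
subgroup. -/
theorem Sat_fin {A J : Type} [AddCommGroup A] [Fintype J] (g : J → A) :
    ∃ (n : ℕ) (Φ : A →ₗ[ℤ] (Fin n → ℤ)), ∀ x ∈ Submodule.span ℤ (Set.range g), Φ x = 0 →
      ∀ χ : A →+ ℤ, χ x = 0 := by
  obtain ⟨s, hs, hs'⟩ := (Submodule.fg_span_iff_fg_span_finset_subset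
    (Set.range fun (χ : A →+ ℤ) (j : J) => χ (g j))).1 (IsNoetherian.noetherian (R := ℤ) _)
  choose ψ hψ using fun r : s => hs r.2
  refine ⟨s.card, LinearMap.pi fun i => (ψ (s.equivFin.symm i)).toIntLinearMap,
    fun x hx h0 χ => ?_⟩
  obtain ⟨c, rfl⟩ := (Submodule.mem_span_range_iff_exists_fun ℤ).1 hx
  have key : ∀ v ∈ Submodule.span ℤ (s : Set (J → ℤ)), ∑ j, c j * v j = 0 := fun v hv => by
    induction hv using Submodule.span_induction with
    | mem r hr =>
      have h1 := congrFun h0 (s.equivFin ⟨r, hr⟩)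
      have h2 : ∀ j, r j = ψ ⟨r, hr⟩ (g j) := fun j => (congrFun (hψ ⟨r, hr⟩) j).symm
      simpa [h2] using h1
    | zero => simp
    | add u v _ _ hu hv => simp [mul_add, Finset.sum_add_distrib, hu, hv]
    | smul a u _ hu =>
      simp only [Pi.smul_apply, smul_eq_mul, mul_left_comm _ a, ← Finset.mul_sum, hu, mul_zero]
  simpa using key _ (hs' ▸ Submodule.subset_span ⟨χ, rfl⟩)

/-- The saturated basis in an abstract abelian group, modulo the elements killed by all
characters. -/
theorem Sat_abs {A J : Type} [AddCommGroup A] [Fintype J] (g : J → A) :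
    ∃ (m : ℕ) (a : Fin m → A) (e : J → Fin m → ℤ),
      (∀ j, ∀ χ : A →+ ℤ, χ (g j - ∑ i, e j i • a i) = 0) ∧
      ∀ (q : ℤ) (c : Fin m → ℤ) (h : A), q ≠ 0 → ∑ i, c i • a i = q • h → ∀ i, q ∣ c i := by
  obtain ⟨n, Φ, hΦ⟩ := Sat_fin g
  obtain ⟨Γ, hΓ⟩ : ∃ Γ : Submodule ℤ A, ∀ x, x ∈ Γ ↔
      ∃ k : ℤ, k ≠ 0 ∧ k • x ∈ Submodule.span ℤ (Set.range g) := by
    refine ⟨⟨⟨⟨{x | ∃ k : ℤ, k ≠ 0 ∧ k • x ∈ Submodule.span ℤ (Set.range g)}, ?_⟩, ?_⟩, ?_⟩,
      fun x => Iff.rfl⟩
    · rintro x y ⟨k, hk, hx⟩ ⟨l, hl, hy⟩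
      refine ⟨k * l, mul_ne_zero hk hl, ?_⟩
      rw [smul_add, mul_comm k l, mul_smul, mul_comm l k, mul_smul]
      exact add_mem (Submodule.smul_mem _ _ hx) (Submodule.smul_mem _ _ hy)
    · exact ⟨1, one_ne_zero, by simp⟩
    · rintro c x ⟨k, hk, hx⟩
      exact ⟨k, hk, smul_comm c k x ▸ Submodule.smul_mem _ _ hx⟩
  obtain ⟨m, ⟨b⟩⟩ := Submodule.nonempty_basis_of_pid (Pi.basisFun ℤ (Fin n)) (Γ.map Φ)
  choose a ha ha' using fun i => (b i).2
  have hs : ∀ c : Fin m → ℤ, Φ (∑ i, c i • a i) = (∑ i, c i • b i : Γ.map Φ) := fun c => by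
    simp [ha']
  have hg : ∀ j, g j ∈ Γ := fun j =>
    (hΓ _).2 ⟨1, one_ne_zero, (one_smul ℤ (g j)).symm ▸ Submodule.subset_span ⟨j, rfl⟩⟩
  have hm : ∀ c : Fin m → ℤ, ∑ i, c i • a i ∈ Γ := fun c =>
    Submodule.sum_mem _ fun i _ => Submodule.smul_mem _ _ (ha i)
  refine ⟨m, a, fun j => b.repr ⟨Φ (g j), Submodule.mem_map_of_mem (hg j)⟩, fun j χ => ?_,
    fun q c h hq hc i => ?_⟩
  · obtain ⟨k, hk, hx⟩ := (hΓ _).1 (sub_mem (hg j)
      (hm (b.repr ⟨Φ (g j), Submodule.mem_map_of_mem (hg j)⟩)))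
    have h1 := hΦ _ hx (by rw [map_smul, map_sub, hs, b.sum_repr, sub_self, smul_zero]) χ
    rw [map_zsmul, smul_eq_mul] at h1
    exact (mul_eq_zero.1 h1).resolve_left hk
  · obtain ⟨k, hk, hx⟩ := (hΓ _).1 (hm c)
    have hh : h ∈ Γ := (hΓ _).2 ⟨k * q, mul_ne_zero hk hq, by rwa [mul_smul, ← hc]⟩
    have h1 : (∑ i, c i • b i : Γ.map Φ) = q • ⟨Φ h, Submodule.mem_map_of_mem hh⟩ :=
      Subtype.ext (by rw [← hs, hc, map_smul]; rfl)
    have h2 := congrArg (fun y => b.repr y i) h1
    simp only [b.repr_sum_self, map_smul, Finsupp.smul_apply, smul_eq_mul] at h2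
    exact ⟨_, h2⟩

variable {k0 F : Type} [Field k0] [IsAlgClosed k0] [Field F] [Algebra k0 F]
  [Algebra.EssFiniteType k0 F]

theorem Sat_chi {g : Fˣ} (hg : (g : F) ∉ Set.range (algebraMap k0 F)) :
    ∃ χ : Additive Fˣ →+ ℤ, χ (Additive.ofMul g) ≠ 0 := by
  have ht : Transcendental k0 (g : F) := fun h => hg (by
    have h1 := h.isIntegral
    exact minpoly.mem_range_of_degree_eq_one k0 _
      (IsAlgClosed.degree_eq_one_of_irreducible k0 (minpoly.irreducible h1)))
  obtain ⟨E, h1, h2⟩ := exists_mid ht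
  set L := IntermediateField.adjoin E {(g : F)}
  have : Algebra.EssFiniteType L F := by
    have : Algebra.EssFiniteType E F := Algebra.EssFiniteType.of_comp k0 E F
    exact Algebra.EssFiniteType.of_comp E L F
  have : Module.Finite L F := Algebra.finite_of_essFiniteType_of_isAlgebraic
  let N : F →* RatFunc E :=
    (RatFunc.algEquivOfTranscendental (g : F) h1).symm.toMulEquiv.toMonoidHom.comp (Algebra.norm L)
  have hN : ∀ x : Fˣ, N x ≠ 0 := fun x => (x.isUnit.map N).ne_zero
  have hX : N g = RatFunc.X ^ Module.finrank L F := by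
    have h3 := Algebra.norm_algebraMap (S := F) (IntermediateField.AdjoinSimple.gen E (g : F))
    rw [IntermediateField.AdjoinSimple.algebraMap_gen] at h3
    change (RatFunc.algEquivOfTranscendental (g : F) h1).symm (Algebra.norm L (g : F)) = _
    rw [h3, map_pow, RatFunc.algEquivOfTranscendental_symm_gen]
  refine ⟨AddMonoidHom.mk' (fun x => (N (x.toMul : Fˣ)).intDegree) fun x y => ?_, ?_⟩
  · rw [toMul_add, Units.val_mul, map_mul, RatFunc.intDegree_mul (hN _) (hN _)]
  · change (N g).intDegree ≠ 0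
    rw [hX, ← RatFunc.algebraMap_X, ← map_pow, RatFunc.intDegree_polynomial,
      Polynomial.natDegree_X_pow]
    exact Int.natCast_ne_zero.2 Module.finrank_pos.ne'

theorem exists_sat {J : Type} [Fintype J] (g : J → F) (hg : ∀ j, g j ≠ 0) :
    ∃ (m : ℕ) (a : Fin m → F) (η : J → k0) (e : J → Fin m → ℤ), (∀ i, a i ≠ 0) ∧
      (∀ j, g j = algebraMap k0 F (η j) * ∏ i, a i ^ e j i) ∧
      ∀ (q : ℕ) (c : Fin m → ℤ) (h : F), q ≠ 0 → ∏ i, a i ^ c i = h ^ q → ∀ i, (q : ℤ) ∣ c i := by
  obtain ⟨m, a, e, h1, h2⟩ := Sat_abs fun j => Additive.ofMul (Units.mk0 (g j) (hg j))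
  have hs : ∀ c : Fin m → ℤ, (((∑ i, c i • a i).toMul : Fˣ) : F) =
      ∏ i, (((a i).toMul : Fˣ) : F) ^ c i := fun c => by
    simp [toMul_sum]
  have h3 : ∀ j, ∃ η : k0, algebraMap k0 F η =
      ((Additive.ofMul (Units.mk0 (g j) (hg j)) - ∑ i, e j i • a i).toMul : Fˣ) := fun j => by
    by_contra h
    obtain ⟨χ, hχ⟩ := Sat_chi (k0 := k0) h
    exact hχ (h1 j χ)
  choose η hη using h3
  refine ⟨m, fun i => ((a i).toMul : Fˣ), η, e, fun i => Units.ne_zero _, fun j => ?_,
    fun q c h hq hc => ?_⟩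
  · rw [hη, ← hs, ← Units.val_mul, ← toMul_add, sub_add_cancel]
    rfl
  · have h0 : h ≠ 0 := by
      rintro rfl
      rw [← hs, zero_pow hq] at hc
      exact Units.ne_zero _ hc
    refine h2 q c (Additive.ofMul (Units.mk0 h h0)) (Int.natCast_ne_zero.2 hq) ?_
    refine Additive.toMul.injective (Units.ext ?_)
    rw [hs, hc]
    simp

end Pool.Agent.Work.MP_dd0d16_nt.T
end

-- merged part: Pool.Agent.Work.MP_dd0d16_nt.T.Psi
section
/-!
A derivation of Witt vectors along a power of Frobenius.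

PLAN. `N = n + c`, `R = PowerSeries (WittVector p k)`, `π : R →+* PowerSeries k` is
`PowerSeries.map WittVector.constantCoeff`; it is onto with kernel `span {p}`
(`WittVector.mem_span_p_iff_coeff_zero_eq_zero`). `Psi_theta`: compose `WittVector.map` of
`F → PowerSeries k ≃ R ⧸ span {p}` with `WittVector.ghostComponentModPPow N` and with the map
`R ⧸ (span {p}) ^ (N + 1) → PowerSeries (Q p k N)` induced by `PowerSeries.map mk`
(`ghostComponentModPPow_map_mk`, `ghostComponent_apply`, `aeval_wittPolynomial`).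
Put `Ψ x = inl (coeff 0 (Θ x)) + inr (coeff (p ^ c) (Θ x))`.
`Psi_dvd`: the derivative of `H = ∑ i ≤ N, p ^ i * r i ^ p ^ (N - i)` is divisible by `p ^ N`, so
`j * coeff j H` is divisible by `p ^ N`; write `j = p ^ v * u` with `u` prime to `p` (a unit of
`WittVector p k`) and cancel `p ^ v`. For `0 < j < p ^ c` we have `v < c`, so `p ^ (n + 1)` divides
`coeff j H`, and the middle terms of `coeff_mul` are divisible by `p ^ (2 n + 2)`, hence by
`p ^ (N + 1)`: `Ψ` is multiplicative.
`fst`: apply `constantCoeff` to `H`; for `y : WittVector p k` and lifts `s i` of `y.coeff i` we have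
`mk (∑ i ≤ N, p ^ i * s i ^ p ^ (N - i)) = rho N y` (`Psi_ghost`: both sides come from ring maps
`WittVector p k → Q p k N`, compare with `WittVector.eq_of_apply_teichmuller_eq` and
`dvd_sub_pow_of_dvd_sub`). `ker`: if `rho N (map τ x) = 0` then `x.coeff i = 0` for `i ≤ N`
(`mem_span_p_pow_iff_le_coeff_eq_zero`), take `r i = 0` there. Constants: take constant `r i`.
Teichmueller lifts: `H = r ^ p ^ N`. With `q = p ^ c` and `ι a = b0 + b1 X + X ^ 2 b2` put
`s = C [b0 ^ q] + X ^ q * (C [b1 ^ q] + X ^ q * s2)` with `π s2 = b2 ^ q`; then `p ∣ r ^ q - s`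
(`add_pow_char_pow`), so `p ^ (n + 1) ∣ r ^ p ^ N - s ^ p ^ n` (`dvd_sub_pow_of_dvd_sub`), and
`coeff q (s ^ P) = P * [b0 ^ q] ^ (P - 1) * [b1 ^ q]` (`Polynomial.powAddExpansion`); finally divide by
the Teichmueller lift of `b0 ^ p ^ N`.
-/

set_option autoImplicit false

namespace Pool.Agent.Work.MP_dd0d16_nt.T

open PowerSeries

variable {p : ℕ} [Fact p.Prime] {F k : Type} [Field F] [Field k] [CharP k p] [PerfectRing k p]

theorem Psi_gen {R S T : Type} [CommRing R] [CommRing S] [CommRing T] (π : R →+* S)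
    (hs : Function.Surjective π) (hk : ∀ x, π x = 0 → (p : R) ∣ x) (f : R →+* T) (N : ℕ)
    (hf : ∀ x, (p : R) ^ (N + 1) ∣ x → f x = 0) : ∃ Θ : WittVector p S →+* T,
      ∀ z, Θ (WittVector.map π z) = f (WittVector.ghostComponent N z) :=
  ⟨RingHom.liftOfSurjective (WittVector.map π) (WittVector.map_surjective _ hs)
    ⟨f.comp (WittVector.ghostComponent N), fun _ hx => hf _
      (WittVector.pow_dvd_ghostComponent_of_dvd_coeff fun i _ =>
        hk _ ((WittVector.map_eq_zero_iff π).1 hx i))⟩,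
    fun _ => RingHom.liftOfSurjective_comp_apply ..⟩

theorem Psi_sum {R : Type} [CommRing R] (N : ℕ) (z : WittVector p R) :
    WittVector.ghostComponent N z =
      ∑ i ∈ Finset.range (N + 1), (p : R) ^ i * z.coeff i ^ p ^ (N - i) := by
  rw [WittVector.ghostComponent_apply, aeval_wittPolynomial]

theorem Psi_map {R S : Type} [CommRing R] [CommRing S] (f : R →+* S) (N : ℕ)
    (z : WittVector p R) : WittVector.ghostComponent N (WittVector.map f z) =
      f (WittVector.ghostComponent N z) := by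
  simp [Psi_sum]

theorem Psi_C {R : Type} [CommRing R] {a : R} {x : PowerSeries R} :
    C a ∣ x ↔ ∀ j, a ∣ coeff j x := by
  refine ⟨fun ⟨y, e⟩ j => ⟨coeff j y, by rw [e, coeff_C_mul]⟩, fun h => ?_⟩
  choose y hy using h
  exact ⟨PowerSeries.mk y, PowerSeries.ext fun j => by rw [coeff_C_mul, coeff_mk, hy]⟩

theorem Psi_pw {R : Type} [CommRing R] {q m : ℕ} {x : PowerSeries R} :
    (q : PowerSeries R) ^ m ∣ x ↔ ∀ j, (q : R) ^ m ∣ coeff j x := by
  rw [← Psi_C, map_pow, map_natCast]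

theorem Psi_ker {x : PowerSeries (WittVector p k)}
    (h : PowerSeries.map WittVector.constantCoeff x = 0) : (p : PowerSeries (WittVector p k)) ∣ x := by
  rw [← pow_one (p : PowerSeries (WittVector p k)), Psi_pw]
  intro j
  rw [pow_one, ← Ideal.mem_span_singleton, WittVector.mem_span_p_iff_coeff_zero_eq_zero]
  simpa using congrArg (coeff j) h

omit [CharP k p] [PerfectRing k p] in
theorem Psi_zero {N : ℕ} {x : PowerSeries (WittVector p k)}
    (h : (p : PowerSeries (WittVector p k)) ^ (N + 1) ∣ x) :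
    (PowerSeries.map (Ideal.Quotient.mk _) x : PowerSeries (Q p k N)) = 0 :=
  PowerSeries.ext fun j => by
    rw [coeff_map, map_zero, Ideal.Quotient.eq_zero_iff_dvd]
    exact Psi_pw.1 h j

theorem Psi_ghost (N : ℕ) (z : WittVector p (WittVector p k)) :
    Ideal.Quotient.mk _ (WittVector.ghostComponent N z) =
      rho N (WittVector.map WittVector.constantCoeff z) := by
  obtain ⟨Θ, hΘ⟩ := Psi_gen (p := p) (T := Q p k N) WittVector.constantCoeff
    (WittVector.constantCoeff_surjective p) (fun x hx => by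
      rwa [← Ideal.mem_span_singleton, WittVector.mem_span_p_iff_coeff_zero_eq_zero])
    (Ideal.Quotient.mk _) N fun x hx => (Ideal.Quotient.eq_zero_iff_dvd _ _).2 hx
  have e : Θ = rho N := WittVector.eq_of_apply_teichmuller_eq _ _ ⟨N + 1, by
    rw [← map_natCast (Ideal.Quotient.mk _), ← map_pow, Ideal.Quotient.eq_zero_iff_dvd]⟩ fun a => by
    have h := hΘ (WittVector.teichmuller p (WittVector.teichmuller p a))
    rw [WittVector.map_teichmuller, WittVector.ghostComponent_teichmuller, ← map_pow] at h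
    rw [rho, RingHom.comp_apply, WittVector.map_teichmuller, iterateFrobenius_def]
    exact h
  rw [← hΘ, e]

omit [PerfectRing k p] in
theorem Psi_dvd {N v j : ℕ} (hv : v ≤ N) (hj : ¬ p ^ (v + 1) ∣ j)
    (z : WittVector p (PowerSeries (WittVector p k))) :
    (p : WittVector p k) ^ (N - v) ∣ coeff j (WittVector.ghostComponent N z) := by
  have hp : p.Prime := Fact.out
  have h0 : j ≠ 0 := fun e => hj (e ▸ dvd_zero _)
  have h1 : (p : PowerSeries (WittVector p k)) ^ N ∣
      derivative _ (WittVector.ghostComponent N z) := by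
    rw [Psi_sum, map_sum]
    refine Finset.dvd_sum fun i hi => ?_
    obtain ⟨d, rfl⟩ := Nat.exists_eq_add_of_le (Nat.lt_succ_iff.1 (Finset.mem_range.1 hi))
    rw [← Nat.cast_pow p i, ← nsmul_eq_mul, map_nsmul, Derivation.leibniz_pow,
      Nat.add_sub_cancel_left, ← mul_smul, ← pow_add, nsmul_eq_mul, Nat.cast_pow]
    exact dvd_mul_right _ _
  obtain ⟨w, u, hu, rfl⟩ := Nat.exists_eq_pow_mul_and_not_dvd h0 p hp.ne_one
  have hw : w ≤ v := by
    by_contra hlt
    exact hj ((pow_dvd_pow _ (by omega)).mul_right _)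
  have h2 := Psi_pw.1 h1 (p ^ w * u - 1)
  have h3 : IsUnit (u : WittVector p k) := WittVector.isUnit_of_coeff_zero_ne_zero _ (by
    rw [← WittVector.constantCoeff_apply, map_natCast]
    exact fun e => hu ((CharP.cast_eq_zero_iff k p u).1 e))
  obtain ⟨d, rfl⟩ := Nat.exists_eq_add_of_le (hw.trans hv)
  rw [coeff_derivative, ← Nat.cast_succ, Nat.succ_eq_add_one, Nat.sub_add_cancel
    (Nat.pos_of_ne_zero h0), Nat.cast_mul, ← mul_assoc, h3.dvd_mul_right, Nat.cast_pow, pow_add,
    mul_comm, mul_dvd_mul_iff_right (pow_ne_zero _ (WittVector.p_nonzero p k))] at h2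
  exact (pow_dvd_pow _ (by omega)).trans h2

theorem Psi_teich {R : Type} [CommRing R] (c n : ℕ) (r : PowerSeries R) :
    ∃ y : R, coeff (p ^ c) (r ^ p ^ (n + c)) = (p : R) ^ n *
      ((coeff 0 r ^ p ^ c) ^ (p ^ n - 1) * coeff 1 r ^ p ^ c + p * y) := by
  have hp : p.Prime := Fact.out
  have hq : 0 < p ^ c := pow_pos hp.pos _
  obtain ⟨w, hw, hw1⟩ : ∃ w : PowerSeries R, r = C (coeff 0 r) + X * w ∧ coeff 0 w = coeff 1 r :=
    ⟨_, by rw [coeff_zero_eq_constantCoeff_apply, add_comm]; exact eq_X_mul_shift_add_const r,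
      coeff_mk _ _⟩
  generalize coeff 0 r = a at *
  obtain ⟨t, ht⟩ := exists_add_pow_prime_pow_eq hp (C a) (X * w) c
  obtain ⟨y, hy⟩ := Psi_pw.1 (dvd_sub_pow_of_dvd_sub (p := p) (a := r ^ p ^ c)
    (b := C a ^ p ^ c + (X * w) ^ p ^ c) ⟨C a * (X * w) * t, by
      rw [hw, ht]; ring⟩ n) (p ^ c)
  obtain ⟨e, he⟩ := Polynomial.powAddExpansion (C a ^ p ^ c) ((X * w) ^ p ^ c) (p ^ n)
  have h1 : coeff (p ^ c) (e * ((X * w) ^ p ^ c) ^ 2) = 0 :=
    (X_pow_dvd_iff (n := p ^ c * 2)).1 (by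
      rw [← pow_mul, mul_pow]
      exact (dvd_mul_right _ _).mul_left _) _ (by omega)
  have h2 : coeff (p ^ c) ((X * w) ^ p ^ c) = coeff 1 r ^ p ^ c := by
    rw [mul_pow, coeff_X_pow_mul', if_pos le_rfl, Nat.sub_self, ← hw1,
      coeff_zero_eq_constantCoeff_apply, coeff_zero_eq_constantCoeff_apply, map_pow]
  refine ⟨y, ?_⟩
  rw [map_sub, he, map_add, map_add, h1, ← map_pow, ← map_pow, ← map_pow, coeff_C, if_neg hq.ne',
    ← map_natCast C, ← map_mul, coeff_C_mul, h2, ← pow_mul, ← pow_add, add_comm c n,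
    Nat.cast_pow] at hy
  linear_combination hy

theorem exists_psi (ι : F →+* PowerSeries k) (τ : F →+* k) (hτ : ∀ x, constantCoeff (ι x) = τ x)
    {c n : ℕ} (h : c ≤ n) :
    ∃ Ψ : WittVector p F →+* DualNumber (Q p k (n + c)),
      (∀ x, (Ψ x).fst = rho (n + c) (WittVector.map τ x)) ∧ (∀ x, (Ψ x).fst = 0 → Ψ x = 0) ∧
      (∀ x, (∀ i, ι (x.coeff i) = C (τ (x.coeff i))) → (Ψ x).snd = 0) ∧
      ∀ a : F, a ≠ 0 → ∃ d : WittVector p k, d.coeff 0 = (coeff 1 (ι a) / τ a) ^ p ^ c ∧
        (Ψ (WittVector.teichmuller p a)).snd = (Ψ (WittVector.teichmuller p a)).fst *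
          Ideal.Quotient.mk _ ((p : WittVector p k) ^ n * d) := by
  have hp : p.Prime := Fact.out
  have hq : 0 < p ^ c := pow_pos hp.pos _
  have hs := PowerSeries.map_surjective _ (WittVector.constantCoeff_surjective p (R := k))
  obtain ⟨Θ0, hΘ0⟩ := Psi_gen (p := p) (T := PowerSeries (Q p k (n + c))) _ hs
    (fun _ => Psi_ker) (PowerSeries.map (Ideal.Quotient.mk _)) (n + c) fun _ => Psi_zero
  obtain ⟨Θ, hΘ⟩ : ∃ Θ : WittVector p F →+* PowerSeries (Q p k (n + c)), ∀ x z,
      (∀ i, PowerSeries.map WittVector.constantCoeff (z.coeff i) = ι (x.coeff i)) → Θ x =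
        PowerSeries.map (Ideal.Quotient.mk _) (WittVector.ghostComponent (n + c) z) :=
    ⟨Θ0.comp (WittVector.map ι), fun x z e => by
      rw [← hΘ0]
      exact congrArg Θ0 (WittVector.ext fun i => (e i).symm)⟩
  have hz : ∀ x : WittVector p F, ∃ z : WittVector p (PowerSeries (WittVector p k)),
      ∀ i, PowerSeries.map WittVector.constantCoeff (z.coeff i) = ι (x.coeff i) := fun x => by
    choose r hr using fun i => hs (ι (x.coeff i))
    exact ⟨WittVector.mk p r, hr⟩
  have h0 : ∀ x, coeff 0 (Θ x) = rho (n + c) (WittVector.map τ x) := fun x => by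
    obtain ⟨z, e⟩ := hz x
    rw [hΘ x z e, coeff_map, coeff_zero_eq_constantCoeff_apply, ← Psi_map, Psi_ghost]
    refine congrArg _ (WittVector.ext fun i => ?_)
    rw [WittVector.map_coeff, WittVector.map_coeff, WittVector.map_coeff, ← hτ, ← e,
      ← coeff_zero_eq_constantCoeff_apply, ← coeff_zero_eq_constantCoeff_apply, coeff_map]
  have hm : ∀ x j, 0 < j → j < p ^ c → ∃ a, coeff j (Θ x) =
      Ideal.Quotient.mk _ ((p : WittVector p k) ^ (n + 1) * a) := fun x j h1 h2 => by
    obtain ⟨z, e⟩ := hz x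
    obtain ⟨c, rfl⟩ := Nat.exists_eq_succ_of_ne_zero (n := c) (by
      rintro rfl
      rw [pow_zero] at h2
      omega)
    obtain ⟨a, ha⟩ := Psi_dvd (N := n + c.succ) (v := c) (by omega)
      (Nat.not_dvd_of_pos_of_lt h1 h2) z
    exact ⟨a, by rw [hΘ x z e, coeff_map, ha, show n + c.succ - c = n + 1 by omega]⟩
  have hmul : ∀ x y, coeff (p ^ c) (Θ x * Θ y) =
      coeff 0 (Θ x) * coeff (p ^ c) (Θ y) + coeff (p ^ c) (Θ x) * coeff 0 (Θ y) := fun x y => by
    rw [coeff_mul]
    refine Finset.sum_eq_add_of_mem (0, p ^ c) (p ^ c, 0) (by simp) (by simp)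
      (fun e => hq.ne (congrArg Prod.fst e)) fun ⟨i, j⟩ hij ⟨e1, e2⟩ => ?_
    rw [Finset.HasAntidiagonal.mem_antidiagonal] at hij
    simp only [ne_eq, Prod.mk.injEq] at hij e1 e2
    obtain ⟨a, ha⟩ := hm x i (by omega) (by omega)
    obtain ⟨b, hb⟩ := hm y j (by omega) (by omega)
    rw [ha, hb, ← map_mul, Ideal.Quotient.eq_zero_iff_dvd, mul_mul_mul_comm, ← pow_add]
    exact (pow_dvd_pow _ (by omega)).mul_right _
  let Ψ : WittVector p F →+* DualNumber (Q p k (n + c)) :=
    { toFun := fun x => (coeff 0 (Θ x), coeff (p ^ c) (Θ x))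
      map_one' := TrivSqZeroExt.ext (by simp) (by simp [coeff_one, hp.ne_zero])
      map_mul' := fun x y => TrivSqZeroExt.ext (by simp) (by
        rw [DualNumber.snd_mul, map_mul]
        exact hmul x y)
      map_zero' := TrivSqZeroExt.ext (by simp) (by simp)
      map_add' := fun x y => TrivSqZeroExt.ext (by simp) (by simp) }
  have e1 : ∀ x, (Ψ x).fst = coeff 0 (Θ x) := fun _ => rfl
  have e2 : ∀ x, (Ψ x).snd = coeff (p ^ c) (Θ x) := fun _ => rfl
  refine ⟨Ψ, h0, fun x hx => ?_, fun x hx => ?_, fun a ha => ?_⟩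
  · obtain ⟨z, e⟩ := hz x
    rw [e1, h0, rho, RingHom.comp_apply, Ideal.Quotient.eq_zero_iff_mem,
      WittVector.mem_span_p_pow_iff_le_coeff_eq_zero] at hx
    have h3 : Θ x = 0 := by
      rw [hΘ x z e]
      refine Psi_zero (WittVector.pow_dvd_ghostComponent_of_dvd_coeff fun i hi => Psi_ker ?_)
      have h4 := hx i (Nat.lt_succ_of_le hi)
      rw [WittVector.map_coeff, WittVector.map_coeff, _root_.map_eq_zero,
        _root_.map_eq_zero] at h4
      rw [e, h4, map_zero]
    exact TrivSqZeroExt.ext (by rw [e1, h3]; rfl) (by rw [e2, h3]; rfl)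
  · rw [e2, hΘ x (WittVector.map C (WittVector.mk p fun i =>
      WittVector.teichmuller p (τ (x.coeff i)))) fun i => by
        rw [hx, WittVector.map_coeff, map_C]
        rfl, Psi_map, map_C, coeff_C, if_neg hq.ne']
  · obtain ⟨r, hr⟩ := hs (ι a)
    obtain ⟨y, hy⟩ := Psi_teich (p := p) c n r
    have b0 : WittVector.constantCoeff (coeff 0 r) = τ a := by
      rw [← hτ, ← hr, ← coeff_zero_eq_constantCoeff_apply, coeff_map]
    have b1 : WittVector.constantCoeff (coeff 1 r) = coeff 1 (ι a) := by rw [← hr, coeff_map]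
    have ha' : τ a ≠ 0 := (map_ne_zero τ).2 ha
    refine ⟨WittVector.teichmuller p (τ a ^ p ^ (n + c))⁻¹ *
      ((coeff 0 r ^ p ^ c) ^ (p ^ n - 1) * coeff 1 r ^ p ^ c + p * y), ?_, ?_⟩
    · rw [← WittVector.constantCoeff_apply]
      simp only [map_mul, map_add, map_pow, map_natCast, b0, b1, CharP.cast_eq_zero, zero_mul,
        add_zero]
      rw [WittVector.constantCoeff_apply, WittVector.teichmuller_coeff_zero, pow_add, mul_comm (p ^ n),
        pow_mul, div_pow]
      obtain ⟨m, hm⟩ := Nat.exists_eq_succ_of_ne_zero (pow_pos hp.pos n).ne'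
      rw [hm, Nat.succ_sub_one, pow_succ]
      field_simp
    · rw [e1, e2, h0, hΘ _ (WittVector.teichmuller p r) fun i => by
        rw [← WittVector.map_coeff, ← WittVector.map_coeff, WittVector.map_teichmuller,
          WittVector.map_teichmuller, hr], WittVector.ghostComponent_teichmuller, coeff_map, hy,
        WittVector.map_teichmuller, rho, RingHom.comp_apply, WittVector.map_teichmuller,
        iterateFrobenius_def, ← map_mul, mul_left_comm, ← mul_assoc (WittVector.teichmuller p _),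
        ← map_mul, mul_inv_cancel₀ (pow_ne_zero _ ha'), map_one, one_mul]

end Pool.Agent.Work.MP_dd0d16_nt.T
end

-- merged part: Pool.Agent.Work.MP_dd0d16_nt.T.Der
section
/-!
An element that is not a `p`-th power moves to first order in a formal deformation.

PLAN. `Der_dual`: let `E0 = (frobenius F p).fieldRange`; it contains the image of the perfect field
`k0` and `g ∉ E0`. By Zorn (`zorn_le_nonempty₀`, `Subfield.mem_sSup_of_directedOn`) take a maximal
subfield `E ⊇ E0` with `g ∉ E`. Then `F = E⟮g⟯`: for `y ∉ E` the field `E⟮y⟯` has degree `p` over `E`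
(`X ^ p - C (y ^ p)` is irreducible, `X_pow_sub_C_irreducible_of_prime`, since Frobenius is injective)
and contains `g` by maximality, so `E⟮g⟯ = E⟮y⟯` (`IntermediateField.eq_of_le_of_finrank_eq`, both have
degree `p`). The power basis of `g` (`IntermediateField.adjoin.powerBasis`, `PowerBasis.lift`) gives an
`E`-algebra map `F → DualNumber F` with `g ↦ inl g + inr 1`, as `(g + ε) ^ p = g ^ p`.
`exists_iota`: `F` is formally smooth over `k0` (instance for `PerfectField`, `EssFiniteType`);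
`PowerSeries F` is complete for `I = span {X} ^ 2` (`Der_complete`, from the instance for `span {X}`);
map dual numbers to `PowerSeries F ⧸ I` by `(u, w) ↦ mk (C u + C w * X)` and lift with
`Algebra.FormallySmooth.exists_mkₐ_comp_eq_of_isAdicComplete`; compare the coefficients `0` and `1`
(`PowerSeries.X_pow_dvd_iff`).
-/

set_option autoImplicit false

namespace Pool.Agent.Work.MP_dd0d16_nt.T

open PowerSeries

theorem Der_complete {R : Type} [CommRing R] (I : Ideal R) [IsAdicComplete I R] :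
    IsAdicComplete (I ^ 2) R := by
  have h1 : ∀ n : ℕ, ((I ^ 2) ^ n • ⊤ : Submodule R R) ≤ I ^ n • ⊤ := fun n => by
    rw [← pow_mul]
    exact Submodule.pow_smul_top_le I R (by omega)
  have : IsHausdorff (I ^ 2) R :=
    ⟨fun x hx => IsHausdorff.haus' (I := I) x fun n => (hx n).mono (h1 n)⟩
  have : IsPrecomplete (I ^ 2) R := ⟨fun f hf => by
    obtain ⟨L, hL⟩ := IsPrecomplete.prec' (I := I) f fun {m n} h => (hf h).mono (h1 m)
    refine ⟨L, fun n => (hf (show n ≤ 2 * n by omega)).trans ?_⟩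
    rw [← pow_mul]
    exact hL _⟩
  exact {}

variable {p : ℕ} [Fact p.Prime] {k0 F : Type} [Field k0] [CharP k0 p] [PerfectField k0] [Field F]
  [Algebra k0 F]

theorem Der_dual {g : F} (hg : ∀ h : F, h ^ p ≠ g) :
    ∃ f : F →ₐ[k0] DualNumber F, (∀ x, (f x).fst = x) ∧ (f g).snd = 1 := by
  have hp : p.Prime := Fact.out
  have : CharP F p := charP_of_injective_algebraMap (algebraMap k0 F).injective p
  obtain ⟨E, hE0, hE⟩ := zorn_le_nonempty₀ {E : Subfield F | g ∉ E}
    (fun c hc hch y hy => ⟨sSup c, fun h => by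
      obtain ⟨E, hE, hgE⟩ := (Subfield.mem_sSup_of_directedOn ⟨y, hy⟩ hch.directedOn).1 h
      exact hc hE hgE, fun z hz => le_sSup hz⟩)
    (frobenius F p).fieldRange (fun ⟨h, e⟩ => hg h e)
  have hpow : ∀ y : F, y ^ p ∈ E := fun y => hE0 ⟨y, rfl⟩
  have hint : ∀ y : F, IsIntegral E y := fun y =>
    ⟨Polynomial.X ^ p - Polynomial.C ⟨y ^ p, hpow y⟩, Polynomial.monic_X_pow_sub_C _ hp.ne_zero,
      by simp [Polynomial.eval₂_sub]; exact sub_self _⟩
  have hmin : ∀ y : F, y ∉ E →
      minpoly E y = Polynomial.X ^ p - Polynomial.C ⟨y ^ p, hpow y⟩ := fun y hy => by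
    refine (minpoly.eq_of_irreducible_of_monic (X_pow_sub_C_irreducible_of_prime hp fun b hb => ?_)
      ?_ (Polynomial.monic_X_pow_sub_C _ hp.ne_zero)).symm
    · have h1 : (b : F) = y := frobenius_inj F p (congrArg Subtype.val hb)
      exact hy (h1 ▸ b.2)
    · simp
      exact sub_self _
  have hrk : ∀ y : F, y ∉ E → Module.finrank E (IntermediateField.adjoin E {y}) = p :=
    fun y hy => by
      rw [IntermediateField.adjoin.finrank (hint y), hmin y hy, Polynomial.natDegree_X_pow_sub_C]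
  have htop : IntermediateField.adjoin E {g} = ⊤ := by
    refine eq_top_iff.2 fun y _ => ?_
    by_cases hy : y ∈ E
    · exact IntermediateField.algebraMap_mem _ (⟨y, hy⟩ : E)
    · have h1 : E ≤ (IntermediateField.adjoin E {y}).toSubfield := fun z hz =>
        IntermediateField.algebraMap_mem _ (⟨z, hz⟩ : E)
      have h2 : g ∈ IntermediateField.adjoin E {y} := by
        by_contra h3
        exact hy (hE.2 (y := (IntermediateField.adjoin E {y}).toSubfield) h3 h1
          (IntermediateField.mem_adjoin_simple_self E y))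
      have := IntermediateField.adjoin.finiteDimensional (hint y)
      rw [IntermediateField.eq_of_le_of_finrank_eq (IntermediateField.adjoin_simple_le_iff.2 h2)
        ((hrk g hE.1).trans (hrk y hy).symm)]
      exact IntermediateField.mem_adjoin_simple_self E y
  have htop' : Algebra.adjoin E {g} = ⊤ := by
    rw [← IntermediateField.adjoin_simple_toSubalgebra_of_isAlgebraic (hint g).isAlgebraic, htop,
      IntermediateField.top_toSubalgebra]
  let pb := PowerBasis.ofAdjoinEqTop (hint g) htop'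
  obtain ⟨z, hz1, hz2⟩ : ∃ z : DualNumber F, z.fst = g ∧ z.snd = 1 := ⟨⟨g, 1⟩, rfl, rfl⟩
  have hy : Polynomial.aeval z (minpoly E pb.gen) = 0 := by
    rw [show pb.gen = g from rfl, hmin g hE.1, map_sub, map_pow, Polynomial.aeval_X,
      Polynomial.aeval_C, sub_eq_zero]
    refine TrivSqZeroExt.ext ?_ ?_
    · rw [TrivSqZeroExt.fst_pow, hz1]
      rfl
    · rw [TrivSqZeroExt.snd_pow, nsmul_eq_mul, CharP.cast_eq_zero, zero_mul]
      rfl
  let f := pb.lift z hy
  have hfg : f g = z := pb.lift_gen _ hy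
  have hfst : (TrivSqZeroExt.fstHom E F F).comp f = AlgHom.id E F :=
    pb.algHom_ext ((congrArg TrivSqZeroExt.fst hfg).trans hz1)
  refine ⟨{ f.toRingHom with commutes' := fun c => ?_ }, fun x => congr($hfst x),
    (congrArg TrivSqZeroExt.snd hfg).trans hz2⟩
  have hc : algebraMap k0 F c ∈ E := by
    obtain ⟨d, rfl⟩ := surjective_frobenius k0 p c
    rw [frobenius_def, map_pow]
    exact hpow _
  exact f.commutes (⟨_, hc⟩ : E)

theorem exists_iota [Algebra.EssFiniteType k0 F] {g : F} (hg : ∀ h : F, h ^ p ≠ g) :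
    ∃ ι : F →ₐ[k0] PowerSeries F, (∀ x, constantCoeff (ι x) = x) ∧ coeff 1 (ι g) = 1 := by
  obtain ⟨f, h1, h2⟩ := Der_dual (p := p) (k0 := k0) hg
  have := Der_complete (Ideal.span {(X : PowerSeries F)})
  let I : Ideal (PowerSeries F) := Ideal.span {(X : PowerSeries F)} ^ 2
  let c : F →ₐ[k0] PowerSeries F ⧸ I :=
    (Ideal.Quotient.mkₐ k0 I).comp (IsScalarTower.toAlgHom k0 F (PowerSeries F))
  have hX : Ideal.Quotient.mk I X * Ideal.Quotient.mk I X = 0 := by
    rw [← map_mul, Ideal.Quotient.eq_zero_iff_mem, ← pow_two]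
    exact Ideal.pow_mem_pow (Ideal.mem_span_singleton_self _) 2
  obtain ⟨ι, hι⟩ := Algebra.FormallySmooth.exists_mkₐ_comp_eq_of_isAdicComplete (I := I)
    ((DualNumber.lift ⟨(c, Ideal.Quotient.mk I X), hX, fun _ => Commute.all _ _⟩).comp f)
  have key : ∀ x, ∀ m < 2, coeff m (ι x) = coeff m (C (f x).fst + C (f x).snd * X) := by
    intro x m hm
    have h3 : Ideal.Quotient.mk I (ι x) = Ideal.Quotient.mk I (C (f x).fst + C (f x).snd * X) :=
      congr($hι x)
    rw [Ideal.Quotient.eq, show I = _ from Ideal.span_singleton_pow _ 2, Ideal.mem_span_singleton,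
      X_pow_dvd_iff] at h3
    exact sub_eq_zero.1 ((map_sub _ _ _).symm.trans (h3 m hm))
  refine ⟨ι, fun x => ?_, ?_⟩
  · rw [← coeff_zero_eq_constantCoeff_apply, key x 0 two_pos, h1]
    simp
  · rw [key g 1 one_lt_two, h2]
    simp

end Pool.Agent.Work.MP_dd0d16_nt.T
end

-- merged part: Pool.Agent.Work.MP_dd0d16_nt.T.Sep
section
/-!
The tests separate gradients.

PLAN. `frob_descent`: among the nonzero `u` with `∑ u i ^ p ^ n * ω i = 0` for all `n` and all
`ω ∈ Z` (for instance `u i = v i ^ p ^ c`) take one with the fewest nonzero entries and scale it so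
that one entry is `1`; then `fun i => u i ^ p - u i` has the same property and fewer nonzero entries,
so it vanishes, and `u i` lies in the prime field (`Subfield.mem_bot_iff_pow_eq_self`,
`mem_bot_iff_intCast`).
`sep_of`: let `g ≠ 0`; write `g i = p ^ c * g' i` with some `(g' i).coeff 0 ≠ 0` (least `c` such that
some `(g i).coeff c ≠ 0`, `WittVector.mem_span_p_pow_iff_le_coeff_eq_zero`). Let `Z` be the set of
vectors `fun i => τ (coeff 1 (ι (a i)) / a i)` for `k0`-algebra maps `ι : F → PowerSeries F` with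
`constantCoeff (ι x) = x`. For such `ι` and `n ≥ c` use `exists_psi` for `PowerSeries.map τ ∘ ι`; it is
a `Test` with `δ i = mk (p ^ n * d i)`, so `p ^ (n + c + 1)` divides
`p ^ (n + c) * ∑ map (iterateFrobenius k p (n + c)) (g' i) * d i`; cancel and take the coefficient `0`
(`WittVector.constantCoeff` is a ring map): `(∑ (g' i).coeff 0 ^ p ^ n * ω i) ^ p ^ c = 0`.
`frob_descent` gives integers `w`; reduce them modulo `p` to natural numbers, the element
`∏ a i ^ w i` is not a `p`-th power by `hsat`, `exists_iota` and the rule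
`coeff 1 (ι (x * y)) / (x * y) = coeff 1 (ι x) / x + coeff 1 (ι y) / y` give a contradiction.
-/

set_option autoImplicit false

namespace Pool.Agent.Work.MP_dd0d16_nt.T

open PowerSeries

variable {p : ℕ} [Fact p.Prime] {k0 F k : Type} [Field k0] [Field F] [Field k] [CharP k p] {m : ℕ}

theorem Sep_descent (Z : Set (Fin m → k)) (s : ℕ) : ∀ u : Fin m → k,
    (Function.support u).ncard = s → u ≠ 0 → (∀ n, ∀ ω ∈ Z, ∑ i, u i ^ p ^ n * ω i = 0) →
    ∃ w : Fin m → ℤ, (∃ i, ¬ (p : ℤ) ∣ w i) ∧ ∀ ω ∈ Z, ∑ i, (w i : k) * ω i = 0 := by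
  induction s using Nat.strong_induction_on with
  | _ s ih =>
    intro u hs hu h
    obtain ⟨i0, hi0⟩ := Function.ne_iff.1 hu
    have hi0' : u i0 ≠ 0 := hi0
    obtain ⟨u1, hu1⟩ : ∃ u1 : Fin m → k, u1 = fun i => (u i0)⁻¹ * u i := ⟨_, rfl⟩
    have h1 : ∀ n, ∀ ω ∈ Z, ∑ i, u1 i ^ p ^ n * ω i = 0 := by
      intro n ω hω
      simp only [hu1, mul_pow, mul_assoc]
      rw [← Finset.mul_sum, h n ω hω, mul_zero]
    have e0 : u1 i0 = 1 := by
      rw [hu1]
      exact inv_mul_cancel₀ hi0'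
    by_cases h2 : (fun i => u1 i ^ p - u1 i) = 0
    · have h3 : ∀ i, ∃ z : ℤ, (z : k) = u1 i := fun i =>
        (mem_bot_iff_intCast p k).1 ((Subfield.mem_bot_iff_pow_eq_self k p).2
          (sub_eq_zero.1 (congrFun h2 i)))
      choose w hw using h3
      refine ⟨w, ⟨i0, fun hd => ?_⟩, fun ω hω => ?_⟩
      · have h4 := (CharP.intCast_eq_zero_iff k p (w i0)).2 hd
        rw [hw, e0] at h4
        exact one_ne_zero h4
      · have h4 := h1 0 ω hω
        simp only [pow_zero, pow_one] at h4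
        simp only [hw]
        exact h4
    · refine ih _ ?_ _ rfl h2 fun n ω hω => ?_
      · rw [← hs]
        refine Set.ncard_lt_ncard ⟨fun i hi e => hi ?_, fun hsub => ?_⟩ (Set.toFinite _)
        · have e1 : u1 i = 0 := by
            rw [hu1]
            beta_reduce
            rw [e, mul_zero]
          beta_reduce
          rw [e1, zero_pow (Fact.out : p.Prime).ne_zero, sub_zero]
        · refine hsub hi0' ?_
          beta_reduce
          rw [e0, one_pow, sub_self]
      · simp only [sub_pow_char_pow, sub_mul, Finset.sum_sub_distrib, ← pow_mul, ← pow_succ']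
        rw [h1 _ ω hω, h1 _ ω hω, sub_zero]

theorem frob_descent (Z : Set (Fin m → k)) (v : Fin m → k) (hv : v ≠ 0) (c : ℕ)
    (h : ∀ n, c ≤ n → ∀ ω ∈ Z, ∑ i, v i ^ p ^ n * ω i = 0) :
    ∃ w : Fin m → ℤ, (∃ i, ¬ (p : ℤ) ∣ w i) ∧ ∀ ω ∈ Z, ∑ i, (w i : k) * ω i = 0 := by
  refine Sep_descent (p := p) Z _ (fun i => v i ^ p ^ c) rfl (fun e => hv ?_) fun n ω hω => ?_
  · exact funext fun i => pow_eq_zero_iff (pow_ne_zero c (Fact.out : p.Prime).ne_zero) |>.1
      (congrFun e i)
  · simp only [← pow_mul, ← pow_add]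
    exact h _ (Nat.le_add_right c n) ω hω

theorem Sep_dlog (ι : F →+* PowerSeries F) (hι : ∀ x, constantCoeff (ι x) = x) (a : Fin m → F)
    (ha : ∀ i, a i ≠ 0) (w : Fin m → ℤ) :
    coeff 1 (ι (∏ i, a i ^ w i)) / ∏ i, a i ^ w i = ∑ i, (w i : F) * (coeff 1 (ι (a i)) / a i) := by
  obtain ⟨φ, hφ⟩ : ∃ φ : Fˣ →* Multiplicative F,
      ∀ x, φ x = Multiplicative.ofAdd (coeff 1 (ι x) / x) := by
    refine ⟨MonoidHom.mk' (fun x => Multiplicative.ofAdd (coeff 1 (ι x) / x)) fun x y => ?_,
      fun _ => rfl⟩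
    rw [← ofAdd_add, Units.val_mul, map_mul, coeff_one_mul, hι, hι]
    congr 1
    have hx := x.ne_zero
    have hy := y.ne_zero
    field_simp
  have e := hφ (∏ i, Units.mk0 (a i) (ha i) ^ w i)
  rw [map_prod] at e
  simp only [map_zpow] at e
  simp only [hφ, Units.coe_prod, Units.val_zpow_eq_zpow_val, Units.val_mk0] at e
  have e1 := congrArg Multiplicative.toAdd e
  simp only [toAdd_prod, toAdd_zpow, toAdd_ofAdd, zsmul_eq_mul] at e1
  exact e1.symm

theorem sep_of [CharP k0 p] [PerfectField k0] [Algebra k0 F] [Algebra.EssFiniteType k0 F]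
    [PerfectRing k p] (τ : F →+* k) (a : Fin m → F) (ha : ∀ i, a i ≠ 0)
    (hsat : ∀ (c : Fin m → ℤ) (h : F), ∏ i, a i ^ c i = h ^ p → ∀ i, (p : ℤ) ∣ c i) :
    Sep p τ (algebraMap k0 F) a := by
  classical
  intro g hg
  by_contra hne
  have hex : ∃ c, ∃ i, (g i).coeff c ≠ 0 := by
    by_contra hc
    push Not at hc
    exact hne (funext fun i => WittVector.ext fun c => by rw [hc c i]; simp)
  obtain ⟨c, ⟨i0, hi0⟩, hmin⟩ : ∃ c, (∃ i, (g i).coeff c ≠ 0) ∧ ∀ j < c, ∀ i, (g i).coeff j = 0 :=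
    ⟨Nat.find hex, Nat.find_spec hex, fun j hj i => by
      by_contra e
      exact Nat.find_min hex hj ⟨i, e⟩⟩
  have hd : ∀ i, ∃ y, g i = (p : WittVector p k) ^ c * y := fun i =>
    Ideal.mem_span_singleton.1 ((WittVector.mem_span_p_pow_iff_le_coeff_eq_zero (g i) c).2
      fun j hj => hmin j hj i)
  choose g' hg' using hd
  have hv : (fun i => (g' i).coeff 0) ≠ 0 := by
    intro e
    obtain ⟨y, hy⟩ := Ideal.mem_span_singleton.1
      ((WittVector.mem_span_p_iff_coeff_zero_eq_zero (g' i0)).2 (congrFun e i0))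
    refine hi0 ((WittVector.mem_span_p_pow_iff_le_coeff_eq_zero (g i0) (c + 1)).1
      (Ideal.mem_span_singleton.2 ⟨y, ?_⟩) c (Nat.lt_succ_self c))
    rw [hg', hy, pow_succ, mul_assoc]
  obtain ⟨w, ⟨i1, hi1⟩, hw⟩ := frob_descent (p := p)
    {ω | ∃ ι : F →ₐ[k0] PowerSeries F, (∀ x, constantCoeff (ι x) = x) ∧
      ω = fun i => τ (coeff 1 (ι (a i)) / a i)} _ hv c (by
    rintro n hn ω ⟨ι, hι, rfl⟩
    obtain ⟨Ψ, h1, h2, h3, h4⟩ := exists_psi (p := p) ((PowerSeries.map τ).comp ι.toRingHom) τ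
      (fun x => by
        change constantCoeff (PowerSeries.map τ (ι x)) = τ x
        rw [← coeff_zero_eq_constantCoeff_apply, coeff_map, coeff_zero_eq_constantCoeff_apply,
          hι]) hn
    choose d hd1 hd2 using fun i => h4 (a i) (ha i)
    have h5 := hg (n + c) Ψ _ ⟨h1, h2, fun y => h3 _ fun i => by
      change PowerSeries.map τ (ι (algebraMap k0 F (y.coeff i))) = C (τ (algebraMap k0 F (y.coeff i)))
      rw [AlgHom.commutes, PowerSeries.algebraMap_apply, PowerSeries.map_C], hd2⟩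
    have h6 : Ideal.Quotient.mk (Ideal.span {(p : WittVector p k) ^ (n + c + 1)})
        ((p : WittVector p k) ^ (n + c) *
          ∑ i, WittVector.map (iterateFrobenius k p (n + c)) (g' i) * d i) = 0 := by
      rw [← h5, Finset.mul_sum, map_sum]
      refine Finset.sum_congr rfl fun i _ => ?_
      rw [rho, RingHom.comp_apply, ← map_mul, hg', map_mul (WittVector.map _), map_pow, map_natCast]
      congr 1
      ring
    rw [Ideal.Quotient.eq_zero_iff_mem, Ideal.mem_span_singleton, pow_succ,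
      mul_dvd_mul_iff_left (pow_ne_zero _ (WittVector.p_nonzero p k)), ← Ideal.mem_span_singleton,
      ← WittVector.ker_constantCoeff, RingHom.mem_ker, map_sum] at h6
    refine (pow_eq_zero_iff (pow_ne_zero c (Fact.out : p.Prime).ne_zero)).1 ?_
    rw [sum_pow_char_pow, ← h6]
    refine Finset.sum_congr rfl fun i _ => ?_
    rw [map_mul, WittVector.constantCoeff_apply, WittVector.constantCoeff_apply, hd1,
      WittVector.map_coeff, iterateFrobenius_def, mul_pow, ← pow_mul, ← pow_add]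
    beta_reduce
    rw [map_div₀]
    congr 3)
  obtain ⟨ι, hι, h1⟩ := exists_iota (p := p) (k0 := k0) (g := ∏ i, a i ^ w i)
    fun y e => hi1 (hsat w y e.symm i1)
  have h2 := hw _ ⟨ι, hι, rfl⟩
  have h3 := congrArg τ (Sep_dlog ι.toRingHom hι a ha w)
  simp only [map_sum, map_mul, map_intCast] at h3
  have h4 : τ (coeff 1 (ι (∏ i, a i ^ w i)) / ∏ i, a i ^ w i) = 0 := h3.trans h2
  rw [h1, _root_.map_eq_zero, one_div, _root_.inv_eq_zero, Finset.prod_eq_zero_iff] at h4
  obtain ⟨i, -, hi⟩ := h4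
  exact zpow_ne_zero _ (ha i) hi

end Pool.Agent.Work.MP_dd0d16_nt.T
end

-- merged part: Pool.Agent.Work.MP_dd0d16_nt.T.ThmD
section
/-!
Algebraic independence of Teichmueller lifts and logarithms of their sums.
-/

set_option autoImplicit false

namespace Pool.Agent.Work.MP_dd0d16_nt.T

open WittVector MvPolynomial

variable {p : ℕ} [Fact p.Prime]

theorem thmD {k0 k : Type} [Field k0] [IsAlgClosed k0] [CharP k0 p] [Field k] [CharP k p]
    [PerfectRing k p] (κ : k0 →+* k) {J I : Type} [Fintype J] [Fintype I] (t : J → k)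
    (ht : ∀ j, t j ≠ 0) (b : I → J → WittVector p k0) (v : I → ℕ) (g : I → k)
    (x l : I → WittVector p k) (hg : ∀ i, g i ≠ 0)
    (hα : ∀ i, ∑ j, WittVector.map κ (b i j) * teichmuller p (t j) =
      p ^ v i * teichmuller p (g i) * (1 + p * x i))
    (hl : ∀ i, WLog p (x i) (l i)) :
    ∃ (m : ℕ) (a : Fin m → k) (N0 : ℕ) (η : J → k0) (e : J → Fin m →₀ ℕ), (∀ i, a i ≠ 0) ∧
      (∀ j, t j * ∏ i, a i ^ N0 = κ (η j) * ∏ i, a i ^ e j i) ∧
      ∀ (I' : Type) [Fintype I'] (s : I' → I),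
      (∀ P : MvPolynomial (Fin m ⊕ I') (WittVector p k0), eval₂ (WittVector.map κ)
        (Sum.elim (fun i => teichmuller p (a i)) fun i => l (s i)) P = 0 → P = 0) ∨
      ∃ (r r' : I' → ℕ) (w w' : Fin m →₀ ℕ), r ≠ r' ∧
        Prop2 (monomial w 1 * ∏ i, fp e (fun j => b (s i) j * teichmuller p (η j)) ^ r i)
          (monomial w' 1 * ∏ i, fp e (fun j => b (s i) j * teichmuller p (η j)) ^ r' i) := by
  classical
  let _ : Algebra k0 k := κ.toAlgebra
  let L := ∑ i, v i + 1
  have hL : ∀ i, v i + 1 ≤ L := fun i => Nat.succ_le_succ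
    (Finset.single_le_sum (f := v) (fun _ _ => Nat.zero_le _) (Finset.mem_univ i))
  let u : J → k := fun j => (iterateFrobeniusEquiv k p L).symm (t j)
  have hu : ∀ j, u j ^ p ^ L = t j := fun j => (iterateFrobeniusEquiv k p L).apply_symm_apply (t j)
  let F := IntermediateField.adjoin k0 (Set.range u)
  have : Algebra.EssFiniteType k0 F := IntermediateField.essFiniteType_iff.2
    (IntermediateField.fg_adjoin_of_finite (Set.finite_range u))
  let τ : F →+* k := algebraMap F k
  have : CharP F p := (RingHom.charP_iff_charP τ p).2 inferInstance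
  let u' : J → F := fun j => ⟨u j, IntermediateField.subset_adjoin _ _ ⟨j, rfl⟩⟩
  have hτ : ∀ j, τ (u' j ^ p ^ L) = t j := fun j => by
    rw [map_pow]
    exact hu j
  have hκ : ∀ z : WittVector p k0,
      WittVector.map τ (WittVector.map (algebraMap k0 F) z) = WittVector.map κ z := fun z => rfl
  have hsh : ∀ i, ∃ (g' : F) (x0 : WittVector p F), g i = τ g' ∧ x i = WittVector.map τ x0 := by
    intro i
    refine shift (τ := τ) (v := v i) (∑ j, WittVector.map (algebraMap k0 F)
      (WittVector.map ((iterateFrobeniusEquiv k0 p (v i + 1)).symm : k0 →+* k0) (b i j)) *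
      teichmuller p (u' j ^ p ^ (L - (v i + 1)))) (hg i) ?_
    rw [← hα, map_sum, map_sum]
    refine Finset.sum_congr rfl fun j _ => ?_
    rw [map_mul, map_mul, map_teichmuller, map_teichmuller, hκ]
    congr 1
    · ext n
      simp only [WittVector.map_coeff, iterateFrobenius_def, ← map_pow]
      congr 1
      exact (iterateFrobeniusEquiv k0 p (v i + 1)).symm_apply_apply _
    · rw [iterateFrobenius_def, ← map_pow, ← pow_mul, ← pow_add, Nat.sub_add_cancel (hL i), hτ]
  choose g' x0 hg' hx0 using hsh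
  have ht' : ∀ j, u' j ^ p ^ L ≠ 0 := fun j h => ht j (by rw [← hτ, h, map_zero])
  have hg'' : ∀ i, g' i ≠ 0 := fun i h => hg i (by rw [hg', h, map_zero])
  obtain ⟨m, a, η, e, ha, he, hsat⟩ := exists_sat (k0 := k0)
    (Sum.elim (fun j => u' j ^ p ^ L) g') (by rintro (j | i); exacts [ht' j, hg'' i])
  have hs : Sep p τ (algebraMap k0 F) a :=
    sep_of τ a ha fun c h => hsat p c h (Fact.out : p.Prime).ne_zero
  let N0 := ∑ j, ∑ i, (e (.inl j) i).natAbs
  have hN : ∀ j i, (e (.inl j) i).natAbs ≤ N0 := fun j i =>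
    (Finset.single_le_sum (f := fun i => (e (.inl j) i).natAbs) (fun _ _ => Nat.zero_le _)
      (Finset.mem_univ i)).trans (Finset.single_le_sum
        (f := fun j => ∑ i, (e (.inl j) i).natAbs) (fun _ _ => Nat.zero_le _) (Finset.mem_univ j))
  let e' : J → Fin m →₀ ℕ := fun j =>
    Finsupp.equivFunOnFinite.symm fun i => (e (.inl j) i + N0).toNat
  have he' : ∀ j i, (e' j i : ℤ) = e (.inl j) i + N0 := fun j i => by
    have := hN j i
    simp only [e', Finsupp.equivFunOnFinite_symm_apply_apply]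
    omega
  refine ⟨m, fun i => τ (a i), N0, fun j => η (.inl j), e', fun i => (map_ne_zero τ).2 (ha i),
    fun j => ?_, fun I' _ s => ?_⟩
  · have h1 := congrArg τ (he (.inl j))
    rw [Sum.elim_inl, hτ, map_mul, map_prod] at h1
    rw [h1, mul_assoc, ← Finset.prod_mul_distrib]
    congr 1
    refine Finset.prod_congr rfl fun i _ => ?_
    rw [map_zpow₀, ← zpow_natCast, ← zpow_natCast, he', zpow_add₀ ((map_ne_zero τ).2 (ha i))]
  · exact core ha hs _ ht' _ _ (fun j => he (.inl j)) g' hg'' _ _ (fun i => he (.inr i)) b v x0 l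
      (fun i => by simp only [hκ, hτ, hα, hg', hx0]) (fun i => hx0 i ▸ hl i) N0 e' he' s

end Pool.Agent.Work.MP_dd0d16_nt.T
end
end
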